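import Pool.Agent.Lib.MP_38dfb6_an.NB.Spec

/-!
# MP_38dfb6_an: module PRD, the path of a node and the path below it
-/

set_option autoImplicit false

namespace Pool.Agent.Lib.MP38dfb6

open Filter Topology Set

namespace PRDM

lemma not_suffix_cons {Λ : Type} (x : Λ) (a : List Λ) : ¬ (x :: a) <:+ a := fun h => by
  have h1 := h.length_le
  rw [List.length_cons] at h1
  omega

lemma not_suffix_cons2 {Λ : Type} (x y : Λ) (a : List Λ) : ¬ (x :: y :: a) <:+ a := fun h => by
  have h1 := h.length_le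
  rw [List.length_cons, List.length_cons] at h1
  omega

end PRDM

open PRDM in
/-- Module PRD. -/
theorem specPRD : SpecPRD := by
  intro Λ L t
  obtain ⟨t1, t2⟩ := t
  refine ⟨fun D x a => ?_, fun D x a => ?_, fun δ D => ?_, fun δ D => ?_, ?_⟩
  · constructor
    · rintro (⟨h1, h2⟩ | h)
      · have h2' : t2 <:+ x :: a := h2
        rcases List.suffix_cons_iff.mp h2' with h3 | h3
        · exact Or.inl (Prod.ext h1 h3)
        · exact Or.inr (Or.inl ⟨h1, h3⟩)
      · exact Or.inr (Or.inr h)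
    · rintro (h | (⟨h1, h2⟩ | h))
      · obtain ⟨rfl, rfl⟩ := Prod.mk.inj h
        exact Or.inl ⟨rfl, List.suffix_refl _⟩
      · have h2' : t2 <:+ a := h2
        exact Or.inl ⟨h1, List.suffix_cons_iff.mpr (Or.inr h2')⟩
      · exact Or.inr h
  · rintro (⟨_, h2⟩ | ⟨δ, h1, _⟩)
    · exact not_suffix_cons x a h2
    · exact not_suffix_cons δ D h1
  · constructor
    · rintro (⟨h1, h2⟩ | ⟨δ', h1, h2⟩)
      · have h2' : t2 <:+ [] := h2
        exact Or.inl (Prod.ext h1 (List.suffix_nil.mp h2'))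
      · have h1' : (δ' :: t1) <:+ (δ :: D) := h1
        rcases List.suffix_cons_iff.mp h1' with h3 | h3
        · obtain ⟨rfl, rfl⟩ := List.cons.inj h3
          exact Or.inr (Or.inl ⟨rfl, h2⟩)
        · exact Or.inr (Or.inr ⟨δ', h3, h2⟩)
    · rintro (h | (⟨h1, h2⟩ | ⟨δ', h1, h2⟩))
      · obtain ⟨rfl, rfl⟩ := Prod.mk.inj h
        exact Or.inl ⟨rfl, List.suffix_refl _⟩
      · have h1' : t1 = D := h1
        subst h1'
        exact Or.inr ⟨δ, List.suffix_refl _, h2⟩
      · have h1' : (δ' :: t1) <:+ D := h1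
        exact Or.inr ⟨δ', List.suffix_cons_iff.mpr (Or.inr h1'), h2⟩
  · rintro (⟨h1, _⟩ | ⟨δ', h1, _⟩)
    · have h1' : δ :: D = D := h1
      have h2 := congrArg List.length h1'
      rw [List.length_cons] at h2
      omega
    · exact not_suffix_cons2 δ' δ D h1
  · constructor
    · rintro (⟨h1, h2⟩ | ⟨δ', h1, _⟩)
      · have h2' : t2 <:+ [] := h2
        exact Prod.ext h1 (List.suffix_nil.mp h2')
      · have h1' : (δ' :: t1) <:+ [] := h1
        exact absurd (List.suffix_nil.mp h1') (List.cons_ne_nil _ _)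
    · intro h
      obtain ⟨rfl, rfl⟩ := Prod.mk.inj h
      exact Or.inl ⟨rfl, List.suffix_refl _⟩

end Pool.Agent.Lib.MP38dfb6
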