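import Pool.Agent.Lib.MP_38dfb6_an.NB.Spec

/-!
# MP_38dfb6_an: the spaces `ES` are `C(K)` spaces. Exact statements of the modules of part K

`ES 𝕜 L N` is isometrically isomorphic to `C(K, 𝕜)`, `K` a compact Hausdorff space (the closure of the set of
all paths in `{0, 1}^(nodes)`; a uniform Eberlein compact space of weight `ℵ₁`).

Convention.  Module `XXX` = file `Pool/Agent/Lib/MP_38dfb6_an/NB/XXX.lean`, imports only
`Pool.Agent.Lib.MP_38dfb6_an.NB.SpecK`, namespace `Pool.Agent.Lib.MP38dfb6`, theorem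
`specXXX (hYYY : SpecYYY) .. : SpecXXX` with the hypotheses in the order of USES, own lemmas in a
namespace `XXXM`.
-/

set_option autoImplicit false

namespace Pool.Agent.Lib.MP38dfb6

open Filter Topology Set

universe u v

section space

variable (𝕜 : Type) [RCLike 𝕜] {Λ : Type} (L : Λ → ℕ → Λ) (N : ℕ∞)

open Classical in
/-- the set of nodes on a path, as a point of `{0, 1}^(nodes)` -/
noncomputable def pth (p : PN Λ N) : Node Λ → Bool := fun s => decide (On L s p.1)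

/-- the closure of the set of all paths -/
def KK : Set (Node Λ → Bool) := closure (range (pth L N))

instance : CompactSpace (KK L N) := isCompact_iff_compactSpace.1 isClosed_closure.isCompact

/-- the coordinate function of the node `s` on `K` -/
noncomputable def gk (s : Node Λ) : C(KK L N, 𝕜) :=
  ⟨fun k => if k.1 s = true then 1 else 0, by
    have h1 : Continuous (fun k : KK L N => k.1 s) := (continuous_apply s).comp continuous_subtype_val
    have h2 : Continuous (fun b : Bool => if b = true then (1 : 𝕜) else 0) := continuous_of_discreteTopology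
    exact h2.comp h1⟩

end space

/-- `KTR` [130].  USES nothing.  The tree property.
PROOF.  (M) If `a <:+ b` then `On L (S, b) p → On L (S, a) p` (`Pre L b e → Pre L a e`: for `e = inl c` transitivity; for `e = inr δ`: `b = lad L δ |b|`, and
the suffix `a` of `lad L δ |b|` is `lad L δ |a|`).  Let `s = (S, a)`, `t = (T, b)` both be on some path `p`; `S`, `T` are suffixes of `p.1`; by symmetry `|S| ≤ |T|`, so
`S <:+ T`.  If `|S| = |T|`, `S = T`: both `On` hold by the first case, or both by the second with the same `δ`, so `Pre L a e`, `Pre L b e` for one `e` and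
`a <:+ b` or `b <:+ a` (suffixes of one list, or two `lad`s); (M).  If `|S| < |T|`: there is `δ` with `(δ :: S) <:+ T`; `On L s p` holds by the second case with the same `δ`
(`(δ' :: S) <:+ p.1`, same length; the first case `S = p.1` is impossible by the lengths), so `a = lad L δ |a|`, and whenever `On L t q`, `T <:+ q.1`, so
`(δ :: S) <:+ q.1` and `On L s q`. -/
def SpecKTR : Prop := ∀ (Λ : Type) (L : Λ → ℕ → Λ) (s t : Node Λ),
  (∀ p : Pt Λ, ¬ (On L s p ∧ On L t p)) ∨ (∀ p : Pt Λ, On L t p → On L s p) ∨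
    ∀ p : Pt Λ, On L s p → On L t p

/-- `KSP` [150].  USES KTR, CHN.  PROOF.  The values of `gk s` at the points of the dense set `range pth` are `1` or `0` according to `On L s p`.  So by KTR and density
(two continuous functions which agree on a dense set) `gk s * gk t` is `0`, `gk t` or `gk s`, and `gk ([], []) = 1` (CHN).  The span of the `gk s` is a
star subalgebra (`star (gk s) = gk s`); it separates the points of `K` (two different points differ at a node `s`); Stone-Weierstrass: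
`ContinuousMap.starSubalgebra_topologicalClosure_eq_top_of_separatesPoints`. -/
def SpecKSP : Prop := ∀ (𝕜 : Type) [RCLike 𝕜] (Λ : Type) (L : Λ → ℕ → Λ) (N : ℕ∞),
  (Submodule.span 𝕜 (range (gk 𝕜 L N))).topologicalClosure = ⊤

/-- `KIS` [150].  USES KSP.  PROOF.  `T : C(K, 𝕜) → lp ⊤`, `(T g) p = g (pth p)`, is linear and isometric (the `pth p` are dense in `K`: `‖g‖ ≤ C` iff `‖g k‖ ≤ C` on a dense set;
`K` may be assumed not empty: `ContinuousMap.norm_le`), `T (gk s) = chi s`.  `T` maps the closure of the span of the `gk s`, i.e. everything, into `ES`; its range is closed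
(complete) and contains the `chi s`, so it contains `ES`.  `LinearIsometryEquiv.ofSurjective` for `T` with values in the subtype `ES`, and `.symm`. -/
def SpecKIS : Prop := ∀ (𝕜 : Type) [RCLike 𝕜] (Λ : Type) (L : Λ → ℕ → Λ) (N : ℕ∞),
  Nonempty (ES 𝕜 L N ≃ₗᵢ[𝕜] C(KK L N, 𝕜))

/-- the theorem of part K -/
def GoalK : Prop := ∀ (𝕜 : Type) [RCLike 𝕜],
  (∃ (E : Type) (_ : NormedAddCommGroup E) (_ : NormedSpace 𝕜 E) (_ : CompleteSpace E),
    WCG 𝕜 E ∧ HG 𝕜 E ∧
    (∃ (K : Type) (_ : TopologicalSpace K) (_ : CompactSpace K) (_ : T2Space K), Nonempty (E ≃ₗᵢ[𝕜] C(K, 𝕜))) ∧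
    (∃ G : Set E, Cardinal.mk G ≤ Cardinal.aleph 1 ∧ (Submodule.span 𝕜 G).topologicalClosure = ⊤) ∧
    (∀ (ι : Type v) (x : ι → E) (f : ι → (E →L[𝕜] 𝕜)), MBasis 𝕜 E x f → charac 𝕜 (cspan 𝕜 f) = 0) ∧
    ∀ (X : Type u) (_ : NormedAddCommGroup X) (_ : NormedSpace 𝕜 X) (J : E →L[𝕜] X) (a : ℝ), 0 < a →
      (∀ e, a * ‖e‖ ≤ ‖J e‖) → ∀ (ι : Type v) (x : ι → X) (f : ι → (X →L[𝕜] 𝕜)),
      MBasis 𝕜 X x f → charac 𝕜 (cspan 𝕜 f) = 0) ∧
  ∀ n : ℕ, ∃ (E : Type) (_ : NormedAddCommGroup E) (_ : NormedSpace 𝕜 E) (_ : CompleteSpace E),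
    WCG 𝕜 E ∧ HG 𝕜 E ∧
    (∃ (K : Type) (_ : TopologicalSpace K) (_ : CompactSpace K) (_ : T2Space K), Nonempty (E ≃ₗᵢ[𝕜] C(K, 𝕜))) ∧
    (∃ G : Set E, Cardinal.mk G ≤ Cardinal.aleph 1 ∧ (Submodule.span 𝕜 G).topologicalClosure = ⊤) ∧
    (∃ (ι : Type) (x : ι → E) (f : ι → (E →L[𝕜] 𝕜)), MBasis 𝕜 E x f ∧
      charac 𝕜 (cspan 𝕜 f) = 1 / (2 * n + 1)) ∧
    (∀ (ι : Type v) (x : ι → E) (f : ι → (E →L[𝕜] 𝕜)), MBasis 𝕜 E x f →
      charac 𝕜 (cspan 𝕜 f) ≤ 1 / (2 * n + 1)) ∧
    ∀ (X : Type u) (_ : NormedAddCommGroup X) (_ : NormedSpace 𝕜 X) (J : E →L[𝕜] X) (a : ℝ), 0 < a →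
      (∀ e, a * ‖e‖ ≤ ‖J e‖) → ∀ (ι : Type v) (x : ι → X) (f : ι → (X →L[𝕜] 𝕜)),
      MBasis 𝕜 X x f → charac 𝕜 (cspan 𝕜 f) ≤ ‖J‖ / (a * (2 * n + 1))

/-- `KFN` [100].  USES LAM, WCG, HIL, BAS, LOW, `UPP.{u, v}`, `UPP.{0, v}`, `UPP.{0, 0}`, CRD, NNG (twice), KIS: copy of `FIN.lean` with the
additional clause (KIS). Hypotheses `(hLAM : SpecLAM) (hWCG : SpecWCG) (hHIL : SpecHIL) (hBAS : SpecBAS) (hLOW : SpecLOW)
(hUPP : SpecUPP.{u, v}) (h0v : SpecUPP.{0, v}) (h00 : SpecUPP.{0, 0}) (hCRD : SpecCRD) (hNNG : SpecNNG.{u}) (hNNG0 : SpecNNG.{0}) (hKIS : SpecKIS)`. -/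
def SpecKFN : Prop := GoalK.{u, v}

end Pool.Agent.Lib.MP38dfb6
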