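import Pool.Agent.Lib.MP_38dfb6_an.NB.Spec

/-!
# MP_38dfb6_an, module BAS: the M-basis of the ladder tree spaces
-/

set_option autoImplicit false

namespace Pool.Agent.Lib.MP38dfb6

open Filter Topology Set

namespace BASM

variable {𝕜 : Type} [RCLike 𝕜] {Λ : Type} {L : Λ → ℕ → Λ} {N : ℕ∞}

open Classical in
theorem ev_ch (p : PN Λ N) (t : Node Λ) :
    ev 𝕜 L N p (ch 𝕜 L N t) = if On L t p.1 then (1 : 𝕜) else 0 := rfl

theorem ev_ch_on (p : PN Λ N) (t : Node Λ) (h : On L t p.1) :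
    ev 𝕜 L N p (ch 𝕜 L N t) = 1 := by
  rw [ev_ch, if_pos h]

theorem ev_ch_off (p : PN Λ N) (t : Node Λ) (h : ¬ On L t p.1) :
    ev 𝕜 L N p (ch 𝕜 L N t) = 0 := by
  rw [ev_ch, if_neg h]

/-- the value of the difference of two evaluations, when exactly one more node is on the path -/
theorem diff_val (p q : PN Λ N) (s : Node Λ) (hiff : ∀ t, On L t p.1 ↔ t = s ∨ On L t q.1)
    (hn : ¬ On L s q.1) (t : Node Λ) :
    (s = t → (ev 𝕜 L N p - ev 𝕜 L N q) (ch 𝕜 L N t) = 1) ∧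
    (s ≠ t → (ev 𝕜 L N p - ev 𝕜 L N q) (ch 𝕜 L N t) = 0) := by
  constructor
  · intro h
    subst h
    rw [_root_.sub_apply, ev_ch_on p s ((hiff s).2 (Or.inl rfl)), ev_ch_off q s hn,
      sub_zero]
  · intro h
    by_cases hq : On L t q.1
    · rw [_root_.sub_apply, ev_ch_on p t ((hiff t).2 (Or.inr hq)), ev_ch_on q t hq,
        sub_self]
    · have hp : ¬ On L t p.1 := by
        intro hp
        rcases (hiff t).1 hp with h1 | h1
        · exact h h1.symm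
        · exact hq h1
      rw [_root_.sub_apply, ev_ch_off p t hp, ev_ch_off q t hq, sub_self]

theorem es_val (hPRD : SpecPRD) (s : NN Λ N) (t : Node Λ) :
    (s.1 = t → es 𝕜 L N s (ch 𝕜 L N t) = 1) ∧ (s.1 ≠ t → es 𝕜 L N s (ch 𝕜 L N t) = 0) := by
  rcases s with ⟨⟨D, _ | ⟨x, a⟩⟩, h⟩
  · rcases D with _ | ⟨δ, D⟩
    · have h5 : ∀ t, On L t ([], Sum.inl []) ↔ t = ([], []) := fun t => (hPRD Λ L t).2.2.2.2
      constructor
      · intro ht
        exact ev_ch_on _ _ ((h5 t).2 ht.symm)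
      · intro ht
        exact ev_ch_off _ _ (fun hh => ht ((h5 t).1 hh).symm)
    · exact diff_val (𝕜 := 𝕜) ⟨(δ :: D, Sum.inl []), h⟩ ⟨(D, Sum.inr δ), h⟩ (δ :: D, [])
        (fun t => (hPRD Λ L t).2.2.1 δ D) ((hPRD Λ L t).2.2.2.1 δ D) t
  · exact diff_val (𝕜 := 𝕜) ⟨(D, Sum.inl (x :: a)), h⟩ ⟨(D, Sum.inl a), h⟩ (D, x :: a)
      (fun t => (hPRD Λ L t).1 D x a) ((hPRD Λ L t).2.1 D x a) t

theorem vanish (hLIM : SpecLIM) (g : ES 𝕜 L N) (hg : ∀ s : NN Λ N, es 𝕜 L N s g = 0)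
    (D : List Λ) :
    (∀ (a : List Λ) (h : ((lev ((D, Sum.inl a) : Pt Λ) : ℕ) : ℕ∞) ≤ N),
      ev 𝕜 L N ⟨(D, Sum.inl a), h⟩ g = 0) ∧
    (∀ (δ : Λ) (h : ((lev ((D, Sum.inr δ) : Pt Λ) : ℕ) : ℕ∞) ≤ N),
      ev 𝕜 L N ⟨(D, Sum.inr δ), h⟩ g = 0) := by
  induction D with
  | nil =>
    have key : ∀ (a : List Λ) (h : ((lev (([], Sum.inl a) : Pt Λ) : ℕ) : ℕ∞) ≤ N),
        ev 𝕜 L N ⟨([], Sum.inl a), h⟩ g = 0 := by
      intro a
      induction a with
      | nil => intro h; exact hg ⟨([], []), h⟩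
      | cons x a ih =>
        intro h
        have h1 : ev 𝕜 L N ⟨([], Sum.inl (x :: a)), h⟩ g - ev 𝕜 L N ⟨([], Sum.inl a), h⟩ g = 0 :=
          hg ⟨([], x :: a), h⟩
        rw [ih h, sub_zero] at h1
        exact h1
    refine ⟨key, fun δ h => ?_⟩
    have h0 : ((([] : List Λ).length : ℕ) : ℕ∞) ≤ N := by simp
    have hl := hLIM 𝕜 Λ L N g [] δ h h0
    have hc : (fun i => ev 𝕜 L N ⟨([], Sum.inl (lad L δ i)), h0⟩ g) = fun _ => (0 : 𝕜) := by
      funext i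
      exact key _ _
    rw [hc] at hl
    exact (tendsto_nhds_unique hl tendsto_const_nhds)
  | cons δ' D ihD =>
    have key : ∀ (a : List Λ) (h : ((lev ((δ' :: D, Sum.inl a) : Pt Λ) : ℕ) : ℕ∞) ≤ N),
        ev 𝕜 L N ⟨(δ' :: D, Sum.inl a), h⟩ g = 0 := by
      intro a
      induction a with
      | nil =>
        intro h
        have h1 : ev 𝕜 L N ⟨(δ' :: D, Sum.inl []), h⟩ g - ev 𝕜 L N ⟨(D, Sum.inr δ'), h⟩ g = 0 :=
          hg ⟨(δ' :: D, []), h⟩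
        rw [ihD.2 δ' h, sub_zero] at h1
        exact h1
      | cons x a ih =>
        intro h
        have h1 : ev 𝕜 L N ⟨(δ' :: D, Sum.inl (x :: a)), h⟩ g
            - ev 𝕜 L N ⟨(δ' :: D, Sum.inl a), h⟩ g = 0 :=
          hg ⟨(δ' :: D, x :: a), h⟩
        rw [ih h, sub_zero] at h1
        exact h1
    refine ⟨key, fun δ h => ?_⟩
    have h0 : (((δ' :: D).length : ℕ) : ℕ∞) ≤ N :=
      le_trans (by exact_mod_cast Nat.le_succ _) h
    have hl := hLIM 𝕜 Λ L N g (δ' :: D) δ h h0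
    have hc : (fun i => ev 𝕜 L N ⟨(δ' :: D, Sum.inl (lad L δ i)), h0⟩ g) = fun _ => (0 : 𝕜) := by
      funext i
      exact key _ _
    rw [hc] at hl
    exact (tendsto_nhds_unique hl tendsto_const_nhds)

end BASM

open BASM in
/-- **BAS.** The vectors `ch s` and the functionals `es s` form an M-basis of `ES 𝕜 L N`. -/
theorem specBAS (hPRD : SpecPRD) (hGEN : SpecGEN) (hLIM : SpecLIM) : SpecBAS := by
  intro 𝕜 _ Λ L N
  refine ⟨fun s => (es_val hPRD s s.1).1 rfl, fun s t hst => (es_val hPRD s t.1).2 ?_,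
    (hGEN 𝕜 Λ L N).2, fun g hg => ?_⟩
  · intro h
    exact hst (Subtype.ext h)
  · apply Subtype.ext
    apply lp.ext
    funext p
    rcases p with ⟨⟨D, a | δ⟩, h⟩
    · exact (vanish hLIM g hg D).1 a h
    · exact (vanish hLIM g hg D).2 δ h

end Pool.Agent.Lib.MP38dfb6
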