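import Pool.Agent.Lib.MP_38dfb6_an.NB.Spec

/-!
# MP_38dfb6_an, module CHN: simple facts about the nodes on a path
-/

set_option autoImplicit false

namespace Pool.Agent.Lib.MP38dfb6

open Filter Topology Set

namespace CHNM

variable {Λ : Type} (L : Λ → ℕ → Λ)

theorem length_lad (δ : Λ) (i : ℕ) : (lad L δ i).length = i := by
  induction i with
  | zero => rfl
  | succ i ih => simp [lad, ih]

theorem pre_nil (e : List Λ ⊕ Λ) : Pre L [] e := by
  rcases e with b | δ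
  · exact List.nil_suffix
  · rfl

theorem pre_lad (δ : Λ) (i : ℕ) : Pre L (lad L δ i) (Sum.inr δ) := by
  show lad L δ i = lad L δ (lad L δ i).length
  rw [length_lad]

end CHNM

theorem specCHN : SpecCHN := by
  intro Λ L p
  refine ⟨?_, ?_, ?_⟩
  · by_cases h : p.1 = []
    · exact Or.inl ⟨h.symm, CHNM.pre_nil L p.2⟩
    · refine Or.inr ⟨p.1.getLast h, ?_, CHNM.pre_nil L _⟩
      show [p.1.getLast h] <:+ p.1
      exact ⟨p.1.dropLast, List.dropLast_append_getLast h⟩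
  · intro s hs
    rcases hs with ⟨h1, -⟩ | ⟨δ, h1, -⟩
    · exact Or.inl ⟨h1, CHNM.pre_nil L p.2⟩
    · exact Or.inr ⟨δ, h1, CHNM.pre_nil L _⟩
  · intro δ D i hs
    rcases hs with ⟨h1, -⟩ | ⟨δ', h1, -⟩
    · refine Or.inr ⟨δ, ?_, CHNM.pre_lad L δ i⟩
      have h2 : δ :: D = p.1 := h1
      rw [← h2]
    · refine Or.inr ⟨δ, ?_, CHNM.pre_lad L δ i⟩
      exact (List.suffix_cons δ' (δ :: D)).trans h1

end Pool.Agent.Lib.MP38dfb6
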