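import Pool.Agent.Lib.MP_38dfb6_an.NB.Spec

/-!
# MP_38dfb6_an: module CLS
-/

set_option autoImplicit false

namespace Pool.Agent.Lib.MP38dfb6

open Filter Topology Set

namespace CLSM

variable (𝕜 : Type) [RCLike 𝕜] {Λ : Type} (L : Λ → ℕ → Λ) (N : ℕ∞)

open Classical in
theorem ch_apply (s : Node Λ) (p : PN Λ N) :
    ((ch 𝕜 L N s).1 : PN Λ N → 𝕜) p = if On L s p.1 then 1 else 0 := rfl

theorem sum_apply (F : Finset (Node Λ)) (e : Node Λ → 𝕜) (p : PN Λ N) :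
    ((∑ s ∈ F, e s • ch 𝕜 L N s : ES 𝕜 L N).1 : PN Λ N → 𝕜) p =
      ∑ s ∈ F, e s * ((ch 𝕜 L N s).1 : PN Λ N → 𝕜) p := by
  have h := map_sum (ev 𝕜 L N p) (fun s => e s • ch 𝕜 L N s) F
  simp only [map_smul, smul_eq_mul] at h
  exact h

theorem norm_sum_le (hUNQ : SpecUNQ) (j l : ℕ) (F : Finset (Node Λ))
    (hF : ∀ s ∈ F, s.1.length = j ∧ s.2.length = l) (e : Node Λ → 𝕜) (he : ∀ s, ‖e s‖ = 1) :
    ‖(∑ s ∈ F, e s • ch 𝕜 L N s : ES 𝕜 L N)‖ ≤ 1 := by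
  rw [Submodule.coe_norm]
  refine lp.norm_le_of_forall_le zero_le_one fun p => ?_
  have h1 : ((∑ s ∈ F, e s • ch 𝕜 L N s : ES 𝕜 L N).1 : PN Λ N → 𝕜) p =
      ∑ s ∈ F, e s * ((ch 𝕜 L N s).1 : PN Λ N → 𝕜) p := sum_apply 𝕜 L N F e p
  rw [h1]
  by_cases h : ∃ s ∈ F, On L s p.1
  · obtain ⟨s, hs, hsp⟩ := h
    rw [Finset.sum_eq_single_of_mem s hs]
    · rw [ch_apply, if_pos hsp, mul_one, he]
    · intro s' hs' hne
      rw [ch_apply, if_neg, mul_zero]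
      intro h'
      exact hne (hUNQ Λ L s' s p.1 h' hsp (by rw [(hF s' hs').1, (hF s hs).1])
        (by rw [(hF s' hs').2, (hF s hs).2]))
  · rw [Finset.sum_eq_zero]
    · rw [norm_zero]; exact zero_le_one
    · intro s hs
      rw [ch_apply, if_neg, mul_zero]
      intro h'
      exact h ⟨s, hs, h'⟩

end CLSM

open CLSM in
theorem specCLS (hUNQ : SpecUNQ) : SpecCLS := by
  intro 𝕜 _ Λ L N ψ j l F hF
  choose e he1 he2 using fun s : Node Λ => RCLike.exists_norm_eq_mul_self (ψ (ch 𝕜 L N s))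
  have hg := norm_sum_le 𝕜 L N hUNQ j l F hF e he1
  have h1 : ψ (∑ s ∈ F, e s • ch 𝕜 L N s) = ((∑ s ∈ F, ‖ψ (ch 𝕜 L N s)‖ : ℝ) : 𝕜) := by
    rw [map_sum, RCLike.ofReal_sum]
    refine Finset.sum_congr rfl fun s _ => ?_
    rw [map_smul, smul_eq_mul]
    exact (he2 s).symm
  have h2 : ‖ψ (∑ s ∈ F, e s • ch 𝕜 L N s)‖ = ∑ s ∈ F, ‖ψ (ch 𝕜 L N s)‖ := by
    rw [h1, RCLike.norm_ofReal, abs_of_nonneg (Finset.sum_nonneg fun s _ => norm_nonneg _)]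
  rw [← h2]
  calc _ ≤ ‖ψ‖ * ‖(∑ s ∈ F, e s • ch 𝕜 L N s : ES 𝕜 L N)‖ := ψ.le_opNorm _
    _ ≤ ‖ψ‖ * 1 := by gcongr
    _ = ‖ψ‖ := mul_one _

end Pool.Agent.Lib.MP38dfb6
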