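import Pool.Agent.Lib.MP_38dfb6_an.NB.Spec

/-!
# MP_38dfb6_an: CNT (every functional lives on countably many nodes; the weighted vectors are weakly null)
-/

set_option autoImplicit false

namespace Pool.Agent.Lib.MP38dfb6

open Filter Topology Set

namespace CNTM

variable {𝕜 : Type} [RCLike 𝕜] {Λ : Type} {L : Λ → ℕ → Λ} {N : ℕ∞}

theorem fin_class (hCLS : SpecCLS) (ψ : ES 𝕜 L N →L[𝕜] 𝕜) (j l : ℕ) (ε : ℝ) (hε : 0 < ε) :
    {t : Node Λ | (t.1.length = j ∧ t.2.length = l) ∧ ε ≤ ‖ψ (ch 𝕜 L N t)‖}.Finite := by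
  by_contra hinf
  obtain ⟨n, hn⟩ := exists_nat_gt (‖ψ‖ / ε)
  obtain ⟨F, hF, hcard⟩ := Set.Infinite.exists_subset_card_eq hinf n
  have h1 : ∑ s ∈ F, ‖ψ (ch 𝕜 L N s)‖ ≤ ‖ψ‖ :=
    hCLS 𝕜 Λ L N ψ j l F (fun s hs => (hF hs).1)
  have h2 : F.card • ε ≤ ∑ s ∈ F, ‖ψ (ch 𝕜 L N s)‖ :=
    Finset.card_nsmul_le_sum F _ ε (fun s hs => (hF hs).2)
  rw [hcard, nsmul_eq_mul] at h2
  rw [div_lt_iff₀ hε] at hn
  linarith

theorem le_norm (hCLS : SpecCLS) (ψ : ES 𝕜 L N →L[𝕜] 𝕜) (t : Node Λ) :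
    ‖ψ (ch 𝕜 L N t)‖ ≤ ‖ψ‖ := by
  have h := hCLS 𝕜 Λ L N ψ t.1.length t.2.length {t} (by
    intro s hs
    rw [Finset.mem_singleton] at hs
    subst hs
    exact ⟨rfl, rfl⟩)
  simpa using h

theorem norm_w (ψ : ES 𝕜 L N →L[𝕜] 𝕜) (t : Node Λ) (n : ℕ) :
    ‖ψ (((1 / 2 : 𝕜) ^ n) • ch 𝕜 L N t)‖ = (1 / 2 : ℝ) ^ n * ‖ψ (ch 𝕜 L N t)‖ := by
  rw [map_smul, norm_smul, norm_pow, norm_div, norm_one, RCLike.norm_ofNat]

end CNTM

open CNTM in
theorem specCNT (hCLS : SpecCLS) : SpecCNT := by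
  intro 𝕜 _ Λ L N ψ
  constructor
  · have hsub : {t : Node Λ | ψ (ch 𝕜 L N t) ≠ 0} ⊆
        ⋃ j : ℕ, ⋃ l : ℕ, ⋃ m : ℕ, {t : Node Λ | (t.1.length = j ∧ t.2.length = l) ∧
          1 / ((m : ℝ) + 1) ≤ ‖ψ (ch 𝕜 L N t)‖} := by
      intro t ht
      simp only [Set.mem_iUnion]
      obtain ⟨m, hm⟩ := exists_nat_one_div_lt (norm_pos_iff.2 ht)
      exact ⟨t.1.length, t.2.length, m, ⟨rfl, rfl⟩, hm.le⟩
    refine Set.Countable.mono hsub ?_
    refine Set.countable_iUnion fun j => Set.countable_iUnion fun l => Set.countable_iUnion fun m => ?_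
    exact (fin_class hCLS ψ j l _ (by positivity)).countable
  · intro ε hε
    obtain ⟨M, hM⟩ : ∃ M : ℕ, (1 / 2 : ℝ) ^ M * (‖ψ‖ + 1) < ε := by
      have h0 : Tendsto (fun M : ℕ => (1 / 2 : ℝ) ^ M * (‖ψ‖ + 1)) atTop (𝓝 (0 * (‖ψ‖ + 1))) :=
        (tendsto_pow_atTop_nhds_zero_of_lt_one (by norm_num) (by norm_num)).mul_const _
      rw [zero_mul] at h0
      exact (h0.eventually (gt_mem_nhds hε)).exists
    have hsub : {t : Node Λ | ε ≤ ‖ψ (((1 / 2 : 𝕜) ^ (t.1.length + t.2.length)) • ch 𝕜 L N t)‖} ⊆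
        ⋃ j ∈ Finset.range M, ⋃ l ∈ Finset.range M,
          {t : Node Λ | (t.1.length = j ∧ t.2.length = l) ∧ ε ≤ ‖ψ (ch 𝕜 L N t)‖} := by
      intro t ht
      rw [Set.mem_setOf_eq, norm_w] at ht
      have hle := le_norm hCLS ψ t
      have hnn : 0 ≤ ‖ψ (ch 𝕜 L N t)‖ := norm_nonneg _
      have hlt : t.1.length + t.2.length < M := by
        by_contra hge
        push Not at hge
        have h1 : (1 / 2 : ℝ) ^ (t.1.length + t.2.length) ≤ (1 / 2 : ℝ) ^ M :=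
          pow_le_pow_of_le_one (by norm_num) (by norm_num) hge
        have h2 : (1 / 2 : ℝ) ^ (t.1.length + t.2.length) * ‖ψ (ch 𝕜 L N t)‖ ≤
            (1 / 2 : ℝ) ^ M * (‖ψ‖ + 1) :=
          mul_le_mul h1 (by linarith) hnn (by positivity)
        linarith
      have h3 : ε ≤ ‖ψ (ch 𝕜 L N t)‖ := by
        refine ht.trans ?_
        have h1 : (1 / 2 : ℝ) ^ (t.1.length + t.2.length) ≤ 1 :=
          pow_le_one₀ (by norm_num) (by norm_num)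
        calc (1 / 2 : ℝ) ^ (t.1.length + t.2.length) * ‖ψ (ch 𝕜 L N t)‖
            ≤ 1 * ‖ψ (ch 𝕜 L N t)‖ := mul_le_mul_of_nonneg_right h1 hnn
          _ = _ := one_mul _
      simp only [Set.mem_iUnion, Finset.mem_range]
      exact ⟨t.1.length, by omega, t.2.length, by omega, ⟨rfl, rfl⟩, h3⟩
    refine Set.Finite.subset ?_ hsub
    refine Set.Finite.biUnion (Finset.finite_toSet _) fun j _ => ?_
    refine Set.Finite.biUnion (Finset.finite_toSet _) fun l _ => ?_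
    exact fin_class hCLS ψ j l ε hε

end Pool.Agent.Lib.MP38dfb6
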