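import Pool.Agent.Lib.MP_38dfb6_an.NB.Spec

/-!
# MP_38dfb6_an, module CRD: the space is generated by at most `ℵ₁` vectors
-/

set_option autoImplicit false

namespace Pool.Agent.Lib.MP38dfb6

open Filter Topology Set

theorem specCRD (hGEN : SpecGEN) : SpecCRD := by
  intro 𝕜 _ Λ L N hΛ
  refine ⟨range (ch 𝕜 L N), ?_, (hGEN 𝕜 Λ L N).1⟩
  have h0 : Cardinal.aleph0 ≤ Cardinal.aleph 1 := Cardinal.aleph0_le_aleph 1
  have h1 : Cardinal.mk (List Λ) ≤ Cardinal.aleph 1 :=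
    (Cardinal.mk_list_le_max Λ).trans (max_le h0 hΛ)
  have h2 : Cardinal.mk (List Λ × List Λ) ≤ Cardinal.aleph 1 := by
    rw [Cardinal.mk_prod, Cardinal.lift_id]
    calc Cardinal.mk (List Λ) * Cardinal.mk (List Λ)
        ≤ Cardinal.aleph 1 * Cardinal.aleph 1 := mul_le_mul' h1 h1
      _ = Cardinal.aleph 1 := Cardinal.mul_eq_self h0
  exact Cardinal.mk_range_le.trans h2

end Pool.Agent.Lib.MP38dfb6
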