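import Mathlib

/-!
# MP_38dfb6_an: weakly compactly generated spaces, M-bases, the characteristic, and the ladder tree spaces
-/

set_option autoImplicit false

namespace Pool.Agent.Lib.MP38dfb6

open Filter Topology Set

universe u v

/-! ## Banach spaces -/

/-- `E` is weakly compactly generated: there is a weakly compact set whose closed linear span is `E`. -/
def WCG (𝕜 : Type) [RCLike 𝕜] (E : Type u) [NormedAddCommGroup E] [NormedSpace 𝕜 E] : Prop :=
  ∃ K : Set E, IsCompact (toWeakSpace 𝕜 E '' K) ∧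
    (Submodule.span 𝕜 K).topologicalClosure = ⊤

/-- `E` is Hilbert generated: there is a bounded linear operator with dense range from a Hilbert
space to `E`. -/
def HG (𝕜 : Type) [RCLike 𝕜] (E : Type u) [NormedAddCommGroup E] [NormedSpace 𝕜 E] : Prop :=
  ∃ (H : Type) (_ : NormedAddCommGroup H) (_ : InnerProductSpace 𝕜 H) (_ : CompleteSpace H)
    (T : H →L[𝕜] E), DenseRange T

/-- `x` (vectors) and `f` (associated functionals) form an (extended) M-basis of `E`. -/
structure MBasis (𝕜 : Type) [RCLike 𝕜] (E : Type u) [NormedAddCommGroup E] [NormedSpace 𝕜 E]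
    {ι : Type v} (x : ι → E) (f : ι → (E →L[𝕜] 𝕜)) : Prop where
  one : ∀ i, f i (x i) = 1
  zero : ∀ i j, i ≠ j → f i (x j) = 0
  fund : (Submodule.span 𝕜 (range x)).topologicalClosure = ⊤
  tot : ∀ y : E, (∀ i, f i y = 0) → y = 0

/-- `[f_i]`: the norm closed linear span of the functionals `f_i` in the dual space. -/
def cspan (𝕜 : Type) [RCLike 𝕜] {E : Type u} [NormedAddCommGroup E] [NormedSpace 𝕜 E]
    {ι : Type v} (f : ι → (E →L[𝕜] 𝕜)) : Submodule 𝕜 (E →L[𝕜] 𝕜) :=
  (Submodule.span 𝕜 (range f)).topologicalClosure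

/-- The characteristic `r(V)` of a linear subspace `V` of the dual space: the infimum over all unit
vectors `x` of the supremum of `|f x|` over the `f` in `V` with `‖f‖ ≤ 1`. -/
noncomputable def charac (𝕜 : Type) [RCLike 𝕜] {E : Type u} [NormedAddCommGroup E]
    [NormedSpace 𝕜 E] (V : Submodule 𝕜 (E →L[𝕜] 𝕜)) : ℝ :=
  ⨅ x : {x : E // ‖x‖ = 1}, ⨆ f : {f : E →L[𝕜] 𝕜 // f ∈ V ∧ ‖f‖ ≤ 1}, ‖f.1 x.1‖

/-! ## The ladder tree -/

/-- A node `(D, a)`. Both lists are written with the newest element first. -/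
abbrev Node (Λ : Type) : Type := List Λ × List Λ

/-- A point: `(D, inl a)` is the path of all nodes up to the node `(D, a)`, and `(D, inr δ)` is the
path of all nodes strictly below the node `(δ :: D, [])`. -/
abbrev Pt (Λ : Type) : Type := List Λ × (List Λ ⊕ Λ)

/-- the first `i` terms of the ladder `L δ`, newest first -/
def lad {Λ : Type} (L : Λ → ℕ → Λ) (δ : Λ) : ℕ → List Λ
  | 0 => []
  | i + 1 => L δ i :: lad L δ i

/-- `a` is an initial part of the finite or infinite sequence described by `e`. -/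
def Pre {Λ : Type} (L : Λ → ℕ → Λ) (a : List Λ) : List Λ ⊕ Λ → Prop
  | Sum.inl b => a <:+ b
  | Sum.inr δ => a = lad L δ a.length

/-- The node `s` is on the path `p`. -/
def On {Λ : Type} (L : Λ → ℕ → Λ) (s : Node Λ) (p : Pt Λ) : Prop :=
  (s.1 = p.1 ∧ Pre L s.2 p.2) ∨ ∃ δ : Λ, (δ :: s.1) <:+ p.1 ∧ Pre L s.2 (Sum.inr δ)

/-- the number of limit levels of a point -/
def lev {Λ : Type} : Pt Λ → ℕ
  | (D, Sum.inl _) => D.length
  | (D, Sum.inr _) => D.length + 1

/-- the points with at most `N` limit levels (all points for `N = ⊤`) -/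
def PN (Λ : Type) (N : ℕ∞) : Type := {p : Pt Λ // (lev p : ℕ∞) ≤ N}

/-- the nodes with at most `N` limit levels -/
def NN (Λ : Type) (N : ℕ∞) : Type := {s : Node Λ // (s.1.length : ℕ∞) ≤ N}

section space

variable (𝕜 : Type) [RCLike 𝕜] {Λ : Type} (L : Λ → ℕ → Λ) (N : ℕ∞)

open Classical in
/-- The indicator of the set of all paths (with at most `N` limit levels) which contain the node `s`. -/
noncomputable def chi (s : Node Λ) : lp (fun _ : PN Λ N => 𝕜) ⊤ :=
  ⟨fun p => if On L s p.1 then 1 else 0, memℓp_infty ⟨1, by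
    rintro _ ⟨p, rfl⟩
    dsimp only
    split_ifs <;> simp⟩⟩

/-- The space: the closed linear span of the indicators in the space of all bounded functions on
the set of paths. -/
noncomputable def ES : Submodule 𝕜 (lp (fun _ : PN Λ N => 𝕜) ⊤) :=
  (Submodule.span 𝕜 (range (chi 𝕜 L N))).topologicalClosure

/-- `chi s` as an element of the space `ES` -/
noncomputable def ch (s : Node Λ) : ES 𝕜 L N :=
  ⟨chi 𝕜 L N s, Submodule.le_topologicalClosure _ (Submodule.subset_span ⟨s, rfl⟩)⟩

instance : CompleteSpace (ES 𝕜 L N) := by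
  unfold ES
  infer_instance

/-- evaluation at a point -/
noncomputable def ev (p : PN Λ N) : ES 𝕜 L N →L[𝕜] 𝕜 :=
  LinearMap.mkContinuous
    { toFun := fun g => (g.1 : PN Λ N → 𝕜) p
      map_add' := fun _ _ => rfl
      map_smul' := fun _ _ => rfl } 1 (by
    intro g
    have h := lp.norm_apply_le_norm ENNReal.top_ne_zero g.1 p
    simpa using h)

/-- the functionals associated with the vectors `ch s` -/
noncomputable def es : NN Λ N → (ES 𝕜 L N →L[𝕜] 𝕜)
  | ⟨(D, x :: a), h⟩ => ev 𝕜 L N ⟨(D, Sum.inl (x :: a)), h⟩ - ev 𝕜 L N ⟨(D, Sum.inl a), h⟩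
  | ⟨(δ :: D, []), h⟩ => ev 𝕜 L N ⟨(δ :: D, Sum.inl []), h⟩ - ev 𝕜 L N ⟨(D, Sum.inr δ), h⟩
  | ⟨([], []), h⟩ => ev 𝕜 L N ⟨([], Sum.inl []), h⟩

end space

/-- A ladder system on a well-ordered set like `ω_1`: countable sets are bounded, and for every `δ`
(not the least element) the sequence `L δ` enumerates the elements below `δ`. -/
structure Lad (Λ : Type) [LinearOrder Λ] (L : Λ → ℕ → Λ) : Prop where
  wf : WellFounded ((· < ·) : Λ → Λ → Prop)
  bdd : ∀ s : Set Λ, s.Countable → ∃ b, ∀ x ∈ s, x < b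
  cnt : ∀ δ : Λ, (Iio δ).Countable
  sur : ∀ δ x : Λ, x < δ → ∃ i, L δ i = x
  lt : ∀ δ x : Λ, x < δ → ∀ i, L δ i < δ

end Pool.Agent.Lib.MP38dfb6
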