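import Pool.Agent.Lib.MP_38dfb6_an.NB.Spec

/-!
# MP_38dfb6_an: module GEN (the vectors `ch s` generate the space)
-/

set_option autoImplicit false

namespace Pool.Agent.Lib.MP38dfb6

open Filter Topology Set

namespace GENM

variable {𝕜 : Type} [RCLike 𝕜] {Λ : Type} {L : Λ → ℕ → Λ} {N : ℕ∞}

theorem length_le_lev (p : Pt Λ) : p.1.length ≤ lev p := by
  obtain ⟨D, e⟩ := p
  cases e with
  | inl a => exact le_refl _
  | inr δ => exact Nat.le_succ _

theorem on_length {s : Node Λ} {p : Pt Λ} (h : On L s p) : s.1.length ≤ lev p := by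
  refine le_trans ?_ (length_le_lev p)
  rcases h with ⟨h, _⟩ | ⟨δ, h, _⟩
  · rw [h]
  · have := h.length_le
    rw [List.length_cons] at this
    omega

open Classical in
theorem ch_zero {s : Node Λ} (h : ¬ ((s.1.length : ℕ) : ℕ∞) ≤ N) : ch 𝕜 L N s = 0 := by
  apply Subtype.ext
  show chi 𝕜 L N s = 0
  apply lp.ext
  funext p
  show (if On L s p.1 then (1 : 𝕜) else 0) = 0
  rw [if_neg]
  intro hon
  apply h
  exact le_trans (by exact_mod_cast on_length hon) p.2

theorem first : (Submodule.span 𝕜 (range (ch 𝕜 L N))).topologicalClosure = ⊤ := by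
  rw [eq_top_iff]
  intro g _
  have h1 : (g : lp (fun _ : PN Λ N => 𝕜) ⊤) ∈
      closure ((Submodule.span 𝕜 (range (chi 𝕜 L N)) : Submodule 𝕜 _) : Set (lp (fun _ : PN Λ N => 𝕜) ⊤)) :=
    g.2
  have h2 : (Subtype.val '' ((Submodule.span 𝕜 (range (ch 𝕜 L N)) : Submodule 𝕜 (ES 𝕜 L N)) :
      Set (ES 𝕜 L N))) =
      ((Submodule.span 𝕜 (range (chi 𝕜 L N)) : Submodule 𝕜 _) : Set (lp (fun _ : PN Λ N => 𝕜) ⊤)) := by
    have h3 : (Submodule.span 𝕜 (range (ch 𝕜 L N))).map (ES 𝕜 L N).subtype =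
        Submodule.span 𝕜 (range (chi 𝕜 L N)) := by
      rw [Submodule.map_span, ← Set.range_comp]
      rfl
    rw [← h3]
    rfl
  rw [← h2] at h1
  exact closure_subtype.2 h1

end GENM

theorem specGEN : SpecGEN := by
  intro 𝕜 _ Λ L N
  refine ⟨GENM.first, ?_⟩
  rw [eq_top_iff, ← GENM.first (𝕜 := 𝕜) (L := L) (N := N)]
  apply Submodule.topologicalClosure_mono
  rw [Submodule.span_le]
  rintro _ ⟨s, rfl⟩
  by_cases h : ((s.1.length : ℕ) : ℕ∞) ≤ N
  · exact Submodule.subset_span ⟨⟨s, h⟩, rfl⟩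
  · rw [GENM.ch_zero h]
    exact Submodule.zero_mem _

end Pool.Agent.Lib.MP38dfb6
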