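import Pool.Agent.Lib.MP_38dfb6_an.NB.Spec

/-!
# Module HIL (helper52)

The operator is the sum over the classes `k = (j, l)` of the operators `c ↦ (p ↦ c s)`, `s` the node of
the class `k` on the path `p`, with the weights `2 ^ (-(j + l))`.
-/

set_option autoImplicit false

namespace Pool.Agent.Lib.MP38dfb6

open Filter Topology Set

namespace HILM

/-- the class of a node -/
def In {Λ : Type} (k : ℕ × ℕ) (s : Node Λ) : Prop := s.1.length = k.1 ∧ s.2.length = k.2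

section

variable (𝕜 : Type) [RCLike 𝕜] {Λ : Type} (L : Λ → ℕ → Λ) (N : ℕ∞)

open Classical in
/-- the coefficient of the node of class `k` on the path `p` -/
noncomputable def val (k : ℕ × ℕ) (p : PN Λ N) (c : Node Λ → 𝕜) : 𝕜 :=
  if h : ∃ s : Node Λ, In k s ∧ On L s p.1 then c h.choose else 0

theorem val_add (k : ℕ × ℕ) (p : PN Λ N) (c d : Node Λ → 𝕜) :
    val 𝕜 L N k p (fun s => c s + d s) = val 𝕜 L N k p c + val 𝕜 L N k p d := by
  unfold val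
  split_ifs with h
  · rfl
  · rw [add_zero]

theorem val_smul (k : ℕ × ℕ) (p : PN Λ N) (a : 𝕜) (c : Node Λ → 𝕜) :
    val 𝕜 L N k p (fun s => a * c s) = a * val 𝕜 L N k p c := by
  unfold val
  split_ifs with h
  · rfl
  · rw [mul_zero]

theorem norm_val_le (k : ℕ × ℕ) (p : PN Λ N) (c : lp (fun _ : Node Λ => 𝕜) 2) :
    ‖val 𝕜 L N k p c‖ ≤ ‖c‖ := by
  unfold val
  split_ifs with h
  · exact lp.norm_apply_le_norm two_ne_zero c _
  · rw [norm_zero]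
    exact norm_nonneg c

/-- the operator of the class `k` -/
noncomputable def op (k : ℕ × ℕ) :
    lp (fun _ : Node Λ => 𝕜) 2 →L[𝕜] lp (fun _ : PN Λ N => 𝕜) ⊤ :=
  LinearMap.mkContinuous
    { toFun := fun c => ⟨fun p => val 𝕜 L N k p c, memℓp_infty ⟨‖c‖, by
        rintro _ ⟨p, rfl⟩
        exact norm_val_le 𝕜 L N k p c⟩⟩
      map_add' := fun c d => Subtype.ext (funext fun p => val_add 𝕜 L N k p c d)
      map_smul' := fun a c => Subtype.ext (funext fun p => val_smul 𝕜 L N k p a c) } 1 (by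
    intro c
    rw [one_mul]
    exact lp.norm_le_of_forall_le (norm_nonneg c) fun p => norm_val_le 𝕜 L N k p c)

theorem norm_op_le (k : ℕ × ℕ) : ‖op 𝕜 L N k‖ ≤ 1 :=
  LinearMap.mkContinuous_norm_le _ zero_le_one _

theorem summable_op :
    Summable fun k : ℕ × ℕ => ((1 / 2 : 𝕜) ^ k.1 * (1 / 2 : 𝕜) ^ k.2) • op 𝕜 L N k := by
  have hg : Summable fun n : ℕ => (1 / 2 : ℝ) ^ n :=
    summable_geometric_of_lt_one (by norm_num) (by norm_num)
  have h0 : (0 : ℕ → ℝ) ≤ fun n : ℕ => (1 / 2 : ℝ) ^ n := fun n => by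
    show (0 : ℝ) ≤ (1 / 2 : ℝ) ^ n
    positivity
  have h2 : Summable fun k : ℕ × ℕ => (1 / 2 : ℝ) ^ k.1 * (1 / 2 : ℝ) ^ k.2 :=
    hg.mul_of_nonneg hg h0 h0
  refine Summable.of_norm_bounded h2 fun k => ?_
  have h3 : ‖(1 / 2 : 𝕜)‖ = 1 / 2 := by
    rw [norm_div, norm_one, RCLike.norm_ofNat]
  rw [norm_smul, norm_mul, norm_pow, norm_pow, h3]
  exact mul_le_of_le_one_right (by positivity) (norm_op_le 𝕜 L N k)

/-- the operator -/
noncomputable def T : lp (fun _ : Node Λ => 𝕜) 2 →L[𝕜] lp (fun _ : PN Λ N => 𝕜) ⊤ :=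
  ∑' k : ℕ × ℕ, ((1 / 2 : 𝕜) ^ k.1 * (1 / 2 : 𝕜) ^ k.2) • op 𝕜 L N k

theorem hasSum_T (c : lp (fun _ : Node Λ => 𝕜) 2) :
    HasSum (fun k : ℕ × ℕ => ((1 / 2 : 𝕜) ^ k.1 * (1 / 2 : 𝕜) ^ k.2) • op 𝕜 L N k c)
      (T 𝕜 L N c) := by
  have h := (summable_op 𝕜 L N).hasSum
  exact h.mapL (ContinuousLinearMap.apply 𝕜 (lp (fun _ : PN Λ N => 𝕜) ⊤) c)

end

section

variable {𝕜 : Type} [RCLike 𝕜] {Λ : Type} {L : Λ → ℕ → Λ} {N : ℕ∞}

open Classical in
theorem op_single (hUNQ : SpecUNQ) (k : ℕ × ℕ) (s : Node Λ) (a : 𝕜) (h : In k s) :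
    op 𝕜 L N k (lp.single 2 s a) = a • chi 𝕜 L N s := by
  apply Subtype.ext
  funext p
  show val 𝕜 L N k p (Pi.single s a) = a * (if On L s p.1 then 1 else 0)
  unfold val
  by_cases hs : On L s p.1
  · have hex : ∃ t : Node Λ, In k t ∧ On L t p.1 := ⟨s, h, hs⟩
    rw [dif_pos hex, if_pos hs, mul_one]
    have h1 := hex.choose_spec
    have h2 : hex.choose = s :=
      hUNQ Λ L _ _ p.1 h1.2 hs (h1.1.1.trans h.1.symm) (h1.1.2.trans h.2.symm)
    rw [h2, Pi.single_eq_same]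
  · rw [if_neg hs, mul_zero]
    split_ifs with hex
    · have h1 := hex.choose_spec
      have h2 : hex.choose ≠ s := fun h3 => hs (h3 ▸ h1.2)
      rw [Pi.single_eq_of_ne h2]
    · rfl

open Classical in
theorem op_single_ne (k : ℕ × ℕ) (s : Node Λ) (a : 𝕜) (h : ¬ In k s) :
    op 𝕜 L N k (lp.single 2 s a) = 0 := by
  apply Subtype.ext
  funext p
  show val 𝕜 L N k p (Pi.single s a) = 0
  unfold val
  split_ifs with hex
  · have h1 := hex.choose_spec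
    have h2 : hex.choose ≠ s := fun h3 => h (h3 ▸ h1.1)
    rw [Pi.single_eq_of_ne h2]
  · rfl

open Classical in
theorem T_single (hUNQ : SpecUNQ) (s : Node Λ) (a : 𝕜) :
    T 𝕜 L N (lp.single 2 s a) =
      ((1 / 2 : 𝕜) ^ s.1.length * (1 / 2 : 𝕜) ^ s.2.length * a) • chi 𝕜 L N s := by
  have h1 := hasSum_T 𝕜 L N (lp.single 2 s a)
  have h2 := hasSum_single (f := fun k : ℕ × ℕ =>
    ((1 / 2 : 𝕜) ^ k.1 * (1 / 2 : 𝕜) ^ k.2) • op 𝕜 L N k (lp.single 2 s a))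
    (s.1.length, s.2.length) (by
      intro k hk
      show ((1 / 2 : 𝕜) ^ k.1 * (1 / 2 : 𝕜) ^ k.2) • op 𝕜 L N k (lp.single 2 s a) = 0
      rw [op_single_ne k s a (fun h => hk (Prod.ext h.1.symm h.2.symm)), smul_zero])
  rw [h1.unique h2]
  show ((1 / 2 : 𝕜) ^ s.1.length * (1 / 2 : 𝕜) ^ s.2.length) •
    op 𝕜 L N (s.1.length, s.2.length) (lp.single 2 s a) = _
  rw [op_single hUNQ (s.1.length, s.2.length) s a ⟨rfl, rfl⟩, smul_smul]

open Classical in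
theorem T_mem (hUNQ : SpecUNQ) (c : lp (fun _ : Node Λ => 𝕜) 2) : T 𝕜 L N c ∈ ES 𝕜 L N := by
  have h1 := lp.hasSum_single (p := 2) (E := fun _ : Node Λ => 𝕜) (by norm_num) c
  have h2 := h1.mapL (T 𝕜 L N)
  have hcl : IsClosed (ES 𝕜 L N : Set (lp (fun _ : PN Λ N => 𝕜) ⊤)) := by
    unfold ES
    exact Submodule.isClosed_topologicalClosure _
  refine hcl.mem_of_tendsto h2 (Eventually.of_forall fun F => ?_)
  refine Submodule.sum_mem _ fun s _ => ?_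
  show T 𝕜 L N (lp.single 2 s (c s)) ∈ ES 𝕜 L N
  rw [T_single hUNQ]
  exact Submodule.smul_mem _ _ (ch 𝕜 L N s).2

end

end HILM

open Classical in
theorem specHIL (hUNQ : SpecUNQ) (hGEN : SpecGEN) : SpecHIL := by
  intro 𝕜 _ Λ L N
  refine ⟨lp (fun _ : Node Λ => 𝕜) 2, inferInstance, inferInstance, inferInstance,
    (HILM.T 𝕜 L N).codRestrict (ES 𝕜 L N) (HILM.T_mem hUNQ), ?_⟩
  have hT := (hGEN 𝕜 Λ L N).1
  have hle : Submodule.span 𝕜 (range (ch 𝕜 L N)) ≤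
      LinearMap.range ((HILM.T 𝕜 L N).codRestrict (ES 𝕜 L N) (HILM.T_mem hUNQ)).toLinearMap := by
    rw [Submodule.span_le]
    rintro _ ⟨s, rfl⟩
    refine ⟨lp.single 2 s (((1 / 2 : 𝕜) ^ s.1.length * (1 / 2 : 𝕜) ^ s.2.length)⁻¹), ?_⟩
    apply Subtype.ext
    show HILM.T 𝕜 L N (lp.single 2 s _) = chi 𝕜 L N s
    have h0 : (1 / 2 : 𝕜) ≠ 0 := one_div_ne_zero two_ne_zero
    rw [HILM.T_single hUNQ, mul_inv_cancel₀ (mul_ne_zero (pow_ne_zero _ h0) (pow_ne_zero _ h0)),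
      one_smul]
  intro y
  have hy : y ∈ (Submodule.span 𝕜 (range (ch 𝕜 L N))).topologicalClosure := by
    rw [hT]; trivial
  exact closure_mono hle hy

end Pool.Agent.Lib.MP38dfb6
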