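import Pool.Agent.Lib.MP_38dfb6_an.NB.SpecK

/-!
# MP_38dfb6_an: module KFN

The theorem of part K from the modules (copy of `FIN`, with the `C(K)` clause).
-/

set_option autoImplicit false

namespace Pool.Agent.Lib.MP38dfb6

open Filter Topology Set

universe u v

namespace KFNM

theorem zero_of (c K a : ℝ) (h0 : 0 ≤ c) (ha : 0 < a)
    (h : ∀ n : ℕ, c ≤ K / (a * (2 * n + 1))) : c = 0 := by
  by_contra hc
  have hc' : 0 < c := lt_of_le_of_ne h0 (Ne.symm hc)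
  obtain ⟨n, hn⟩ := exists_nat_gt (K / (c * a))
  have h1 := h n
  have hp : 0 < a * (2 * (n : ℝ) + 1) := by positivity
  rw [le_div_iff₀ hp] at h1
  rw [div_lt_iff₀ (by positivity)] at hn
  have hn0 : (0 : ℝ) ≤ n := Nat.cast_nonneg n
  have h2 : (n : ℝ) * (c * a) ≤ c * (a * (2 * n + 1)) := by
    have : c * (a * (2 * n + 1)) = (2 * n + 1) * (c * a) := by ring
    rw [this]
    exact mul_le_mul_of_nonneg_right (by linarith) (by positivity)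
  linarith

theorem id_le (𝕜 : Type) [RCLike 𝕜] (E : Type u) [NormedAddCommGroup E] [NormedSpace 𝕜 E] (n : ℕ)
    (c : ℝ) (h : c ≤ ‖ContinuousLinearMap.id 𝕜 E‖ / (1 * (2 * n + 1))) : c ≤ 1 / (2 * n + 1) := by
  refine h.trans ?_
  rw [one_mul]
  have hp : (0 : ℝ) < 2 * (n : ℝ) + 1 := by positivity
  exact div_le_div_of_nonneg_right ContinuousLinearMap.norm_id_le hp.le

theorem ck (hKIS : SpecKIS) (𝕜 : Type) [RCLike 𝕜] (Λ : Type) (L : Λ → ℕ → Λ) (N : ℕ∞) :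
    ∃ (K : Type) (_ : TopologicalSpace K) (_ : CompactSpace K) (_ : T2Space K),
      Nonempty (ES 𝕜 L N ≃ₗᵢ[𝕜] C(K, 𝕜)) :=
  ⟨KK L N, inferInstance, inferInstance, inferInstance, hKIS 𝕜 Λ L N⟩

end KFNM

/-- **KFN**. -/
theorem specKFN (hLAM : SpecLAM) (hWCG : SpecWCG) (hHIL : SpecHIL) (hBAS : SpecBAS)
    (hLOW : SpecLOW) (hUPP : SpecUPP.{u, v}) (h0v : SpecUPP.{0, v}) (h00 : SpecUPP.{0, 0})
    (hCRD : SpecCRD) (hNNG : SpecNNG.{u}) (hNNG0 : SpecNNG.{0}) (hKIS : SpecKIS) :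
    SpecKFN.{u, v} := by
  intro 𝕜 _
  obtain ⟨Λ, _, L, hL, hcard⟩ := hLAM
  refine ⟨⟨ES 𝕜 L ⊤, inferInstance, inferInstance, inferInstance, hWCG 𝕜 Λ L ⊤, hHIL 𝕜 Λ L ⊤,
    KFNM.ck hKIS 𝕜 Λ L ⊤, hCRD 𝕜 Λ L ⊤ hcard, ?_, ?_⟩, ?_⟩
  · intro ι x f hB
    refine KFNM.zero_of _ ‖ContinuousLinearMap.id 𝕜 (ES 𝕜 L ⊤)‖ 1 (hNNG0 𝕜 _ _) one_pos ?_
    intro n
    exact h0v 𝕜 Λ L ⊤ hL (ES 𝕜 L ⊤) (ContinuousLinearMap.id 𝕜 (ES 𝕜 L ⊤)) 1 one_pos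
      (fun e => by rw [one_mul]; exact le_refl _) ι x f hB n le_top
  · intro X _ _ J a ha hJ ι x f hB
    refine KFNM.zero_of _ ‖J‖ a (hNNG 𝕜 _ _) ha ?_
    intro n
    exact hUPP 𝕜 Λ L ⊤ hL X J a ha hJ ι x f hB n le_top
  · intro n
    refine ⟨ES 𝕜 L (n : ℕ∞), inferInstance, inferInstance, inferInstance, hWCG 𝕜 Λ L n,
      hHIL 𝕜 Λ L n, KFNM.ck hKIS 𝕜 Λ L n, hCRD 𝕜 Λ L n hcard, ?_, ?_, ?_⟩
    · refine ⟨NN Λ (n : ℕ∞), _, _, hBAS 𝕜 Λ L n, ?_⟩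
      refine le_antisymm ?_ (hLOW 𝕜 Λ L n)
      exact KFNM.id_le 𝕜 (ES 𝕜 L (n : ℕ∞)) n _ (h00 𝕜 Λ L n hL (ES 𝕜 L (n : ℕ∞))
        (ContinuousLinearMap.id 𝕜 (ES 𝕜 L (n : ℕ∞))) 1 one_pos
        (fun e => by rw [one_mul]; exact le_refl _) _ _ _ (hBAS 𝕜 Λ L n) n le_rfl)
    · intro ι x f hB
      exact KFNM.id_le 𝕜 (ES 𝕜 L (n : ℕ∞)) n _ (h0v 𝕜 Λ L n hL (ES 𝕜 L (n : ℕ∞))
        (ContinuousLinearMap.id 𝕜 (ES 𝕜 L (n : ℕ∞))) 1 one_pos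
        (fun e => by rw [one_mul]; exact le_refl _) ι x f hB n le_rfl)
    · intro X _ _ J a ha hJ ι x f hB
      exact hUPP 𝕜 Λ L n hL X J a ha hJ ι x f hB n le_rfl

end Pool.Agent.Lib.MP38dfb6
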