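import Pool.Agent.Lib.MP_38dfb6_an.NB.SpecK

/-!
# MP_38dfb6_an, module `KIS`: the space `ES` is isometrically isomorphic to `C(K)`
-/

set_option autoImplicit false

namespace Pool.Agent.Lib.MP38dfb6

open Filter Topology Set

namespace KISM

section space

variable (𝕜 : Type) [RCLike 𝕜] {Λ : Type} (L : Λ → ℕ → Λ) (N : ℕ∞)

/-- the path `p` as a point of `K` -/
noncomputable def pk (p : PN Λ N) : KK L N := ⟨pth L N p, subset_closure ⟨p, rfl⟩⟩

theorem pk_dense : DenseRange (pk L N) := by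
  intro k
  rw [closure_subtype]
  have h : ((fun x : KK L N => (x : Node Λ → Bool)) '' range (pk L N)) = range (pth L N) := by
    rw [← range_comp]
    rfl
  rw [h]
  exact k.2

/-- restriction to the paths -/
noncomputable def TV (g : C(KK L N, 𝕜)) : lp (fun _ : PN Λ N => 𝕜) ⊤ :=
  ⟨fun p => g (pk L N p), memℓp_infty ⟨‖g‖, by
    rintro _ ⟨p, rfl⟩
    exact g.norm_coe_le_norm _⟩⟩

/-- restriction to the paths as a linear isometry -/
noncomputable def TL : C(KK L N, 𝕜) →ₗᵢ[𝕜] lp (fun _ : PN Λ N => 𝕜) ⊤ where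
  toFun := TV 𝕜 L N
  map_add' g h := by
    apply Subtype.ext
    funext p
    rfl
  map_smul' c g := by
    apply Subtype.ext
    funext p
    rfl
  norm_map' g := by
    apply le_antisymm
    · apply lp.norm_le_of_forall_le (norm_nonneg _)
      intro p
      exact g.norm_coe_le_norm _
    · rw [ContinuousMap.norm_le _ (norm_nonneg _)]
      intro k
      have hc : IsClosed {k : KK L N | ‖g k‖ ≤ ‖TV 𝕜 L N g‖} :=
        isClosed_le (g.continuous.norm) continuous_const
      exact (pk_dense L N).induction_on k hc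
        (fun p => lp.norm_apply_le_norm ENNReal.top_ne_zero (TV 𝕜 L N g) p)

open Classical in
theorem TL_gk (s : Node Λ) : TL 𝕜 L N (gk 𝕜 L N s) = chi 𝕜 L N s := by
  apply Subtype.ext
  funext p
  show (if pth L N p s = true then (1 : 𝕜) else 0) = if On L s p.1 then 1 else 0
  unfold pth
  by_cases h : On L s p.1
  · rw [if_pos h, if_pos (decide_eq_true h)]
  · rw [if_neg h, if_neg (by rw [decide_eq_false h]; exact Bool.false_ne_true)]

theorem range_TL (hKSP : SpecKSP) : LinearMap.range (TL 𝕜 L N).toLinearMap = ES 𝕜 L N := by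
  apply SetLike.coe_injective
  have h1 : (ES 𝕜 L N : Set (lp (fun _ : PN Λ N => 𝕜) ⊤)) =
      closure (Submodule.span 𝕜 (range (chi 𝕜 L N)) : Set _) := by
    unfold ES
    exact Submodule.topologicalClosure_coe _
  have h2 : range (chi 𝕜 L N) = (TL 𝕜 L N).toLinearMap '' range (gk 𝕜 L N) := by
    rw [← range_comp]
    congr 1
    funext s
    exact (TL_gk 𝕜 L N s).symm
  have h3 : (Submodule.span 𝕜 (range (chi 𝕜 L N)) : Set (lp (fun _ : PN Λ N => 𝕜) ⊤)) =
      (TL 𝕜 L N) '' (Submodule.span 𝕜 (range (gk 𝕜 L N)) : Set C(KK L N, 𝕜)) := by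
    rw [h2, ← Submodule.map_span]
    rfl
  have h4 : closure (Submodule.span 𝕜 (range (gk 𝕜 L N)) : Set C(KK L N, 𝕜)) = univ := by
    have := hKSP 𝕜 Λ L N
    rw [← Submodule.topologicalClosure_coe, this]
    rfl
  rw [h1, h3, (TL 𝕜 L N).isometry.isClosedEmbedding.closure_image_eq, h4, image_univ]
  rfl

end space

end KISM

theorem specKIS (hKSP : SpecKSP) : SpecKIS := by
  intro 𝕜 _ Λ L N
  exact ⟨((KISM.TL 𝕜 L N).equivRange.trans
    (LinearIsometryEquiv.ofEq _ _ (KISM.range_TL 𝕜 L N hKSP))).symm⟩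

end Pool.Agent.Lib.MP38dfb6
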