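import Pool.Agent.Lib.MP_38dfb6_an.NB.SpecK

/-!
Module KSP: the coordinate functions span a dense subspace of the continuous functions.
-/

set_option autoImplicit false

namespace Pool.Agent.Lib.MP38dfb6

open Filter Topology Set

namespace KSPM

section

variable (𝕜 : Type) [RCLike 𝕜] {Λ : Type} (L : Λ → ℕ → Λ) (N : ℕ∞)

/-- a path as a point of `K` -/
noncomputable def pt (p : PN Λ N) : KK L N := ⟨pth L N p, subset_closure ⟨p, rfl⟩⟩

theorem dense_pt : Dense (range (pt L N)) := by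
  rw [Subtype.dense_iff, ← range_comp]
  exact subset_rfl

theorem gk_pt_of (s : Node Λ) (p : PN Λ N) (h : On L s p.1) : gk 𝕜 L N s (pt L N p) = 1 := by
  have h1 : (pt L N p).1 s = true := by
    classical
    exact decide_eq_true h
  change (if (pt L N p).1 s = true then (1 : 𝕜) else 0) = 1
  rw [if_pos h1]

theorem gk_pt_not (s : Node Λ) (p : PN Λ N) (h : ¬ On L s p.1) : gk 𝕜 L N s (pt L N p) = 0 := by
  have h1 : (pt L N p).1 s = false := by
    classical
    exact decide_eq_false h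
  change (if (pt L N p).1 s = true then (1 : 𝕜) else 0) = 0
  rw [h1]
  simp

theorem ext_pt {f g : C(KK L N, 𝕜)} (h : ∀ p : PN Λ N, f (pt L N p) = g (pt L N p)) : f = g := by
  apply DFunLike.coe_injective
  refine Continuous.ext_on (dense_pt L N) f.continuous g.continuous ?_
  rintro _ ⟨p, rfl⟩
  exact h p

theorem mul_left {s t : Node Λ} (h : ∀ p : Pt Λ, On L t p → On L s p) :
    gk 𝕜 L N s * gk 𝕜 L N t = gk 𝕜 L N t := by
  refine ext_pt 𝕜 L N fun p => ?_
  rw [ContinuousMap.mul_apply]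
  by_cases ht : On L t p.1
  · rw [gk_pt_of 𝕜 L N s p (h _ ht), one_mul]
  · rw [gk_pt_not 𝕜 L N t p ht, mul_zero]

theorem mul_zero' {s t : Node Λ} (h : ∀ p : Pt Λ, ¬ (On L s p ∧ On L t p)) :
    gk 𝕜 L N s * gk 𝕜 L N t = 0 := by
  refine ext_pt 𝕜 L N fun p => ?_
  rw [ContinuousMap.mul_apply, ContinuousMap.zero_apply]
  by_cases hs : On L s p.1
  · have ht : ¬ On L t p.1 := fun ht => h _ ⟨hs, ht⟩
    rw [gk_pt_not 𝕜 L N t p ht, mul_zero]
  · rw [gk_pt_not 𝕜 L N s p hs, zero_mul]

theorem star_gk (s : Node Λ) : star (gk 𝕜 L N s) = gk 𝕜 L N s := by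
  refine ext_pt 𝕜 L N fun p => ?_
  rw [ContinuousMap.star_apply]
  by_cases hs : On L s p.1
  · rw [gk_pt_of 𝕜 L N s p hs, star_one]
  · rw [gk_pt_not 𝕜 L N s p hs, star_zero]

end

end KSPM

open KSPM in
theorem specKSP (hKTR : SpecKTR) (hCHN : SpecCHN) : SpecKSP := by
  intro 𝕜 _ Λ L N
  have hone : (1 : C(KK L N, 𝕜)) ∈ Submodule.span 𝕜 (range (gk 𝕜 L N)) := by
    have h1 : gk 𝕜 L N ([], []) = 1 := by
      refine ext_pt 𝕜 L N fun p => ?_
      rw [gk_pt_of 𝕜 L N _ p (hCHN Λ L p.1).1, ContinuousMap.one_apply]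
    rw [← h1]
    exact Submodule.subset_span ⟨_, rfl⟩
  have hgen : ∀ s t : Node Λ, gk 𝕜 L N s * gk 𝕜 L N t ∈ Submodule.span 𝕜 (range (gk 𝕜 L N)) := by
    intro s t
    rcases hKTR Λ L s t with h | h | h
    · rw [mul_zero' 𝕜 L N h]
      exact Submodule.zero_mem _
    · rw [mul_left 𝕜 L N h]
      exact Submodule.subset_span ⟨_, rfl⟩
    · rw [mul_comm, mul_left 𝕜 L N h]
      exact Submodule.subset_span ⟨_, rfl⟩
  have hmul : ∀ x y : C(KK L N, 𝕜), x ∈ Submodule.span 𝕜 (range (gk 𝕜 L N)) →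
      y ∈ Submodule.span 𝕜 (range (gk 𝕜 L N)) → x * y ∈ Submodule.span 𝕜 (range (gk 𝕜 L N)) := by
    intro x y hx hy
    induction hx using Submodule.span_induction with
    | mem x hx =>
      obtain ⟨s, rfl⟩ := hx
      induction hy using Submodule.span_induction with
      | mem y hy =>
        obtain ⟨t, rfl⟩ := hy
        exact hgen s t
      | zero => rw [mul_zero]; exact Submodule.zero_mem _
      | add a b _ _ iha ihb => rw [mul_add]; exact Submodule.add_mem _ iha ihb
      | smul c a _ iha => rw [mul_smul_comm]; exact Submodule.smul_mem _ c iha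
    | zero => rw [zero_mul]; exact Submodule.zero_mem _
    | add a b _ _ iha ihb => rw [add_mul]; exact Submodule.add_mem _ iha ihb
    | smul c a _ iha => rw [smul_mul_assoc]; exact Submodule.smul_mem _ c iha
  have hstar : ∀ x : C(KK L N, 𝕜), x ∈ Submodule.span 𝕜 (range (gk 𝕜 L N)) →
      star x ∈ Submodule.span 𝕜 (range (gk 𝕜 L N)) := by
    intro x hx
    induction hx using Submodule.span_induction with
    | mem x hx =>
      obtain ⟨s, rfl⟩ := hx
      rw [star_gk]
      exact Submodule.subset_span ⟨_, rfl⟩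
    | zero => rw [star_zero]; exact Submodule.zero_mem _
    | add a b _ _ iha ihb => rw [star_add]; exact Submodule.add_mem _ iha ihb
    | smul c a _ iha => rw [star_smul]; exact Submodule.smul_mem _ _ iha
  let A : StarSubalgebra 𝕜 C(KK L N, 𝕜) :=
    { Submodule.toSubalgebra (Submodule.span 𝕜 (range (gk 𝕜 L N))) hone hmul with
      star_mem' := fun {x} hx => hstar x hx }
  have hAmem : ∀ x, x ∈ A ↔ x ∈ Submodule.span 𝕜 (range (gk 𝕜 L N)) := fun x => Iff.rfl
  have hsep : A.SeparatesPoints := by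
    intro x y hxy
    have h1 : x.1 ≠ y.1 := fun h => hxy (Subtype.ext h)
    obtain ⟨s, hs⟩ := Function.ne_iff.mp h1
    refine ⟨gk 𝕜 L N s, ⟨gk 𝕜 L N s, (hAmem _).mpr (Submodule.subset_span ⟨s, rfl⟩), rfl⟩, ?_⟩
    change (if x.1 s = true then (1 : 𝕜) else 0) ≠ (if y.1 s = true then (1 : 𝕜) else 0)
    cases hx : x.1 s <;> cases hy : y.1 s
    · rw [hx, hy] at hs; exact absurd rfl hs
    · simp
    · simp
    · rw [hx, hy] at hs; exact absurd rfl hs
  have htop := ContinuousMap.starSubalgebra_topologicalClosure_eq_top_of_separatesPoints A hsep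
  rw [eq_top_iff]
  intro f _
  have hf : f ∈ A.topologicalClosure := by rw [htop]; trivial
  have h2 : f ∈ closure (A : Set C(KK L N, 𝕜)) := hf
  exact h2

end Pool.Agent.Lib.MP38dfb6
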