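import Pool.Agent.Lib.MP_38dfb6_an.NB.SpecK

/-!
# Module KTR: the tree property of the sets of paths through a node
-/

set_option autoImplicit false

namespace Pool.Agent.Lib.MP38dfb6

namespace KTRM

theorem suf_eq {α : Type} {a b c : List α} (ha : a <:+ c) (hb : b <:+ c)
    (h : a.length = b.length) : a = b :=
  (List.suffix_of_suffix_length_le ha hb h.le).eq_of_length h

variable {Λ : Type} {L : Λ → ℕ → Λ}

theorem lad_length (δ : Λ) (i : ℕ) : (lad L δ i).length = i := by
  induction i with
  | zero => rfl
  | succ i ih =>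
    show (L δ i :: lad L δ i).length = i + 1
    rw [List.length_cons, ih]

theorem lad_suffix (δ : Λ) {j i : ℕ} (h : j ≤ i) : lad L δ j <:+ lad L δ i := by
  induction h with
  | refl => exact List.suffix_rfl
  | step _ ih => exact ih.trans (List.suffix_cons _ _)

theorem pre_mono {a b : List Λ} (hab : a <:+ b) {e : List Λ ⊕ Λ} (h : Pre L b e) : Pre L a e := by
  cases e with
  | inl c => exact hab.trans h
  | inr δ =>
    have h1 : b = lad L δ b.length := h
    show a = lad L δ a.length
    have h2 : a <:+ lad L δ b.length := by rwa [← h1]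
    exact suf_eq h2 (lad_suffix δ hab.length_le) (lad_length δ _).symm

theorem pre_comp {a b : List Λ} {e : List Λ ⊕ Λ} (ha : Pre L a e) (hb : Pre L b e) :
    a <:+ b ∨ b <:+ a := by
  cases e with
  | inl c => exact List.suffix_or_suffix_of_suffix ha hb
  | inr δ =>
    have h1 : a = lad L δ a.length := ha
    have h2 : b = lad L δ b.length := hb
    rw [h1, h2]
    rcases le_total a.length b.length with h | h
    · exact Or.inl (lad_suffix δ h)
    · exact Or.inr (lad_suffix δ h)

theorem on_mono {S a b : List Λ} (hab : a <:+ b) {p : Pt Λ} (h : On L (S, b) p) :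
    On L (S, a) p := by
  rcases h with ⟨h1, h2⟩ | ⟨δ, h1, h2⟩
  · exact Or.inl ⟨h1, pre_mono hab h2⟩
  · exact Or.inr ⟨δ, h1, pre_mono hab h2⟩

theorem on_suf {S a : List Λ} {p : Pt Λ} (h : On L (S, a) p) : S <:+ p.1 := by
  rcases h with ⟨h1, -⟩ | ⟨δ, h1, -⟩
  · have h2 : S = p.1 := h1
    rw [h2]
  · exact (List.suffix_cons δ S).trans h1

theorem main {S a T b : List Λ} {p : Pt Λ} (hs : On L (S, a) p) (ht : On L (T, b) p)
    (hl : S.length ≤ T.length) :
    (∀ q : Pt Λ, On L (T, b) q → On L (S, a) q) ∨ ∀ q : Pt Λ, On L (S, a) q → On L (T, b) q := by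
  have hS := on_suf hs
  have hT := on_suf ht
  rcases hl.eq_or_lt with h | h
  · have hST : S = T := suf_eq hS hT h
    subst hST
    have key : a <:+ b ∨ b <:+ a := by
      rcases hs with ⟨h1, h2⟩ | ⟨δ, h1, h2⟩
      · have h1 : S = p.1 := h1
        rcases ht with ⟨h1', h2'⟩ | ⟨δ', h1', h2'⟩
        · exact pre_comp h2 h2'
        · exfalso
          have h3 := h1'.length_le
          rw [← h1] at h3
          simp only [List.length_cons] at h3
          omega
      · rcases ht with ⟨h1', h2'⟩ | ⟨δ', h1', h2'⟩
        · exfalso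
          have h1' : S = p.1 := h1'
          have h3 := h1.length_le
          rw [← h1'] at h3
          simp only [List.length_cons] at h3
          omega
        · have e1 : δ :: S = δ' :: S := suf_eq h1 h1' (by simp only [List.length_cons])
          injection e1 with e3 e4
          subst e3
          exact pre_comp h2 h2'
    rcases key with hk | hk
    · exact Or.inl fun q hq => on_mono hk hq
    · exact Or.inr fun q hq => on_mono hk hq
  · left
    rcases hs with ⟨h1, h2⟩ | ⟨δ, h1, h2⟩
    · exfalso
      have h1 : S = p.1 := h1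
      have h3 := hT.length_le
      rw [← h1] at h3
      omega
    · have h3 : (δ :: S) <:+ T := List.suffix_of_suffix_length_le h1 hT (by
        simp only [List.length_cons]
        omega)
      intro q hq
      exact Or.inr ⟨δ, h3.trans (on_suf hq), h2⟩

end KTRM

open KTRM in
theorem specKTR : SpecKTR := by
  rintro Λ L ⟨S, a⟩ ⟨T, b⟩
  by_cases h : ∀ p : Pt Λ, ¬ (On L (S, a) p ∧ On L (T, b) p)
  · exact Or.inl h
  · right
    push Not at h
    obtain ⟨p, hs, ht⟩ := h
    rcases le_total S.length T.length with hl | hl
    · exact main hs ht hl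
    · exact (main ht hs hl).symm

end Pool.Agent.Lib.MP38dfb6
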