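import Pool.Agent.Lib.MP_38dfb6_an.NB.Spec

/-!
# LAM: a ladder system on `ω₁`
-/

set_option autoImplicit false

namespace Pool.Agent.Lib.MP38dfb6

open Filter Topology Set

theorem specLAM : SpecLAM := by
  classical
  let Λ : Type := (Cardinal.aleph 1).ord.ToType
  have hcard : Cardinal.mk Λ = Cardinal.aleph 1 := Cardinal.mk_ord_toType _
  have hIio : ∀ δ : Λ, (Iio δ).Countable := by
    intro δ
    have h1 : Cardinal.mk (Iio δ) < Cardinal.aleph 1 := Cardinal.mk_Iio_toType_ord_lt δ
    rw [← Cardinal.le_aleph0_iff_set_countable]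
    have h2 : Cardinal.aleph 1 = Order.succ Cardinal.aleph0 := by
      rw [← Cardinal.succ_aleph0]
    exact Order.lt_succ_iff.1 (h1.trans_le h2.le)
  have hunc : ¬ (univ : Set Λ).Countable := by
    intro h
    have h1 : Cardinal.mk (univ : Set Λ) ≤ Cardinal.aleph0 :=
      Cardinal.le_aleph0_iff_set_countable.2 h
    rw [Cardinal.mk_univ, hcard] at h1
    exact absurd h1 (not_le.2 Cardinal.aleph0_lt_aleph_one)
  have hL : ∀ δ : Λ, ∃ f : ℕ → Λ, ∀ x : Λ, x < δ → (∃ i, f i = x) ∧ ∀ i, f i < δ := by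
    intro δ
    by_cases hne : (Iio δ).Nonempty
    · obtain ⟨f, hf⟩ := (hIio δ).exists_eq_range hne
      refine ⟨f, fun x hx => ⟨?_, fun i => ?_⟩⟩
      · have : x ∈ range f := hf ▸ hx
        exact this
      · have : f i ∈ Iio δ := hf ▸ mem_range_self i
        exact this
    · exact ⟨fun _ => δ, fun x hx => absurd ⟨x, hx⟩ hne⟩
  choose L hL using hL
  refine ⟨Λ, inferInstance, L, ⟨?_, ?_, hIio, fun δ x hx => (hL δ x hx).1,
    fun δ x hx => (hL δ x hx).2⟩, hcard.le⟩
  · exact wellFounded_lt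
  · intro s hs
    by_contra hne
    push Not at hne
    apply hunc
    have h1 : (univ : Set Λ) ⊆ ⋃ x ∈ s, Iic x := by
      intro b _
      obtain ⟨x, hx, hbx⟩ := hne b
      exact mem_biUnion hx hbx
    refine (Countable.biUnion hs fun x _ => ?_).mono h1
    have : Iic x = Iio x ∪ {x} := by
      ext y
      simp only [mem_Iic, mem_union, mem_Iio, mem_singleton_iff]
      exact le_iff_lt_or_eq
    rw [this]
    exact (hIio x).union (countable_singleton x)

end Pool.Agent.Lib.MP38dfb6
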