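import Pool.Agent.Lib.MP_38dfb6_an.NB.Spec

/-!
# Module LIM (helper52)
-/

set_option autoImplicit false

namespace Pool.Agent.Lib.MP38dfb6

open Filter Topology Set

namespace LIMM

theorem length_lad {Λ : Type} (L : Λ → ℕ → Λ) (δ : Λ) (i : ℕ) : (lad L δ i).length = i := by
  induction i with
  | zero => rfl
  | succ i ih => rw [lad, List.length_cons, ih]

theorem lad_suffix {Λ : Type} (L : Λ → ℕ → Λ) (δ : Λ) (j i : ℕ) (h : j ≤ i) :
    lad L δ j <:+ lad L δ i := by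
  induction i, h using Nat.le_induction with
  | base => exact List.suffix_rfl
  | succ i _ ih => exact ih.trans (List.suffix_cons _ _)

theorem suffix_lad_iff {Λ : Type} (L : Λ → ℕ → Λ) (δ : Λ) (a : List Λ) (i : ℕ)
    (h : a.length ≤ i) : a <:+ lad L δ i ↔ a = lad L δ a.length := by
  constructor
  · intro h1
    have h2 := lad_suffix L δ a.length i h
    have h3 : a <:+ lad L δ a.length :=
      List.suffix_of_suffix_length_le h1 h2 (by rw [length_lad])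
    exact h3.eq_of_length (by rw [length_lad])
  · intro h1
    rw [h1]
    exact lad_suffix L δ _ i h

theorem on_iff {Λ : Type} (L : Λ → ℕ → Λ) (s : Node Λ) (D : List Λ) (δ : Λ) (i : ℕ)
    (h : s.2.length ≤ i) : On L s (D, Sum.inl (lad L δ i)) ↔ On L s (D, Sum.inr δ) := by
  unfold On
  have h1 : Pre L s.2 (Sum.inl (lad L δ i)) ↔ Pre L s.2 (Sum.inr δ) :=
    suffix_lad_iff L δ s.2 i h
  show (s.1 = D ∧ Pre L s.2 (Sum.inl (lad L δ i))) ∨ _ ↔ (s.1 = D ∧ Pre L s.2 (Sum.inr δ)) ∨ _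
  rw [h1]

theorem span_ev {𝕜 : Type} [RCLike 𝕜] {Λ : Type} (L : Λ → ℕ → Λ) (N : ℕ∞)
    (p : ℕ → PN Λ N) (q : PN Λ N)
    (hpq : ∀ s : Node Λ, ∀ᶠ i in atTop, (On L s (p i).1 ↔ On L s q.1))
    (g : lp (fun _ : PN Λ N => 𝕜) ⊤) (hg : g ∈ Submodule.span 𝕜 (range (chi 𝕜 L N))) :
    ∀ᶠ i in atTop, (g : PN Λ N → 𝕜) (p i) = (g : PN Λ N → 𝕜) q := by
  classical
  induction hg using Submodule.span_induction with
  | mem x hx =>
    obtain ⟨s, rfl⟩ := hx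
    filter_upwards [hpq s] with i hi
    show (if On L s (p i).1 then (1 : 𝕜) else 0) = if On L s q.1 then (1 : 𝕜) else 0
    by_cases h : On L s q.1
    · rw [if_pos h, if_pos (hi.2 h)]
    · rw [if_neg h, if_neg (fun h' => h (hi.1 h'))]
  | zero => exact Eventually.of_forall fun i => rfl
  | add x y _ _ hx hy =>
    filter_upwards [hx, hy] with i h1 h2
    show (x : PN Λ N → 𝕜) (p i) + (y : PN Λ N → 𝕜) (p i) =
      (x : PN Λ N → 𝕜) q + (y : PN Λ N → 𝕜) q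
    rw [h1, h2]
  | smul a x _ hx =>
    filter_upwards [hx] with i h1
    show a • (x : PN Λ N → 𝕜) (p i) = a • (x : PN Λ N → 𝕜) q
    rw [h1]

theorem tendsto_ev {𝕜 : Type} [RCLike 𝕜] {Λ : Type} (L : Λ → ℕ → Λ) (N : ℕ∞)
    (p : ℕ → PN Λ N) (q : PN Λ N)
    (hpq : ∀ s : Node Λ, ∀ᶠ i in atTop, (On L s (p i).1 ↔ On L s q.1))
    (g : ES 𝕜 L N) :
    Tendsto (fun i => (g.1 : PN Λ N → 𝕜) (p i)) atTop (𝓝 ((g.1 : PN Λ N → 𝕜) q)) := by
  rw [Metric.tendsto_atTop]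
  intro ε hε
  have hmem : g.1 ∈ closure (Submodule.span 𝕜 (range (chi 𝕜 L N)) :
      Set (lp (fun _ : PN Λ N => 𝕜) ⊤)) := by
    have := g.2
    unfold ES at this
    exact this
  obtain ⟨g', hg', hd⟩ := Metric.mem_closure_iff.1 hmem (ε / 2) (by positivity)
  obtain ⟨n, hn⟩ := eventually_atTop.1 (span_ev L N p q hpq g' hg')
  refine ⟨n, fun i hi => ?_⟩
  have h0 := hn i hi
  have h1 : ∀ r : PN Λ N, ‖(g.1 : PN Λ N → 𝕜) r - (g' : PN Λ N → 𝕜) r‖ < ε / 2 := by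
    intro r
    have h2 := lp.norm_apply_le_norm ENNReal.top_ne_zero (g.1 - g') r
    rw [dist_eq_norm] at hd
    exact lt_of_le_of_lt h2 hd
  rw [dist_eq_norm]
  have h3 : (g.1 : PN Λ N → 𝕜) (p i) - (g.1 : PN Λ N → 𝕜) q =
      ((g.1 : PN Λ N → 𝕜) (p i) - (g' : PN Λ N → 𝕜) (p i)) -
        ((g.1 : PN Λ N → 𝕜) q - (g' : PN Λ N → 𝕜) q) := by
    rw [h0]; ring
  rw [h3]
  refine lt_of_le_of_lt (norm_sub_le _ _) ?_
  have h4 := h1 (p i)
  have h5 := h1 q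
  linarith

end LIMM

theorem specLIM : SpecLIM := by
  intro 𝕜 _ Λ L N g D δ h h'
  refine LIMM.tendsto_ev L N (fun i => ⟨(D, Sum.inl (lad L δ i)), h'⟩) ⟨(D, Sum.inr δ), h⟩ ?_ g
  intro s
  filter_upwards [eventually_ge_atTop s.2.length] with i hi
  exact LIMM.on_iff L s D δ i hi

end Pool.Agent.Lib.MP38dfb6
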