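import Pool.Agent.Lib.MP_38dfb6_an.NB.Spec

/-!
# MP_38dfb6_an, module LOW: the lower bound of the characteristic
-/

set_option autoImplicit false

namespace Pool.Agent.Lib.MP38dfb6

open Filter Topology Set

namespace LOWM

/-- the supremum at a unit vector -/
noncomputable def sg {𝕜 : Type} [RCLike 𝕜] {E : Type} [NormedAddCommGroup E] [NormedSpace 𝕜 E]
    (V : Submodule 𝕜 (E →L[𝕜] 𝕜)) (g : E) : ℝ :=
  ⨆ f : {f : E →L[𝕜] 𝕜 // f ∈ V ∧ ‖f‖ ≤ 1}, ‖f.1 g‖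

theorem sg_le {𝕜 : Type} [RCLike 𝕜] {E : Type} [NormedAddCommGroup E] [NormedSpace 𝕜 E]
    (V : Submodule 𝕜 (E →L[𝕜] 𝕜)) (g : E) (v : E →L[𝕜] 𝕜) (hv : v ∈ V)
    (hv1 : ‖v‖ ≤ 1) : ‖v g‖ ≤ sg V g := by
  have hbdd : BddAbove (range fun f : {f : E →L[𝕜] 𝕜 // f ∈ V ∧ ‖f‖ ≤ 1} => ‖f.1 g‖) := by
    refine ⟨‖g‖, ?_⟩
    rintro _ ⟨f, rfl⟩
    refine (f.1.le_opNorm g).trans ?_
    exact mul_le_of_le_one_left (norm_nonneg g) f.2.2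
  exact le_ciSup hbdd ⟨v, hv, hv1⟩

theorem sg_nonneg {𝕜 : Type} [RCLike 𝕜] {E : Type} [NormedAddCommGroup E] [NormedSpace 𝕜 E]
    (V : Submodule 𝕜 (E →L[𝕜] 𝕜)) (g : E) : 0 ≤ sg V g := by
  refine (norm_nonneg _).trans (sg_le V g 0 (Submodule.zero_mem _) ?_)
  rw [norm_zero]
  exact zero_le_one

theorem sg_two {𝕜 : Type} [RCLike 𝕜] {E : Type} [NormedAddCommGroup E] [NormedSpace 𝕜 E]
    (V : Submodule 𝕜 (E →L[𝕜] 𝕜)) (g : E) (v w : E →L[𝕜] 𝕜) (hv : v - w ∈ V)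
    (hv1 : ‖v‖ ≤ 1) (hw1 : ‖w‖ ≤ 1) : ‖v g‖ ≤ ‖w g‖ + 2 * sg V g := by
  have h0 : ‖v - w‖ ≤ 2 := (norm_sub_le v w).trans (by linarith)
  have h1 := sg_le V g ((1 / 2 : 𝕜) • (v - w)) (Submodule.smul_mem _ _ hv) (by
    rw [norm_smul, norm_div, norm_one, RCLike.norm_ofNat]
    linarith)
  have h2 : ((1 / 2 : 𝕜) • (v - w)) g = (1 / 2 : 𝕜) * (v g - w g) := rfl
  rw [h2, norm_mul, norm_div, norm_one, RCLike.norm_ofNat] at h1
  have h3 := norm_le_norm_sub_add (v g) (w g)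
  linarith

variable {𝕜 : Type} [RCLike 𝕜] {Λ : Type} (L : Λ → ℕ → Λ) (N : ℕ∞)

theorem ev_norm (p : PN Λ N) : ‖ev 𝕜 L N p‖ ≤ 1 :=
  LinearMap.mkContinuous_norm_le _ zero_le_one _

theorem ev_apply (p : PN Λ N) (g : ES 𝕜 L N) : ev 𝕜 L N p g = (g.1 : PN Λ N → 𝕜) p := rfl

theorem norm_ch : ‖ch 𝕜 L N ([], [])‖ = 1 := by
  classical
  have h0 : (lev (([], Sum.inl []) : Pt Λ) : ℕ∞) ≤ N := by
    show ((0 : ℕ) : ℕ∞) ≤ N
    simp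
  apply le_antisymm
  · refine lp.norm_le_of_forall_le zero_le_one fun p => ?_
    show ‖(if On L ([], []) p.1 then (1 : 𝕜) else 0)‖ ≤ 1
    split_ifs <;> simp
  · have h1 := lp.norm_apply_le_norm ENNReal.top_ne_zero (chi 𝕜 L N ([], []))
      ⟨([], Sum.inl []), h0⟩
    have h2 : On L (([], []) : Node Λ) (([], Sum.inl []) : Pt Λ) :=
      Or.inl ⟨rfl, List.suffix_refl _⟩
    have h3 : (chi 𝕜 L N ([], []) : PN Λ N → 𝕜) ⟨([], Sum.inl []), h0⟩ = 1 := by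
      show (if On L (([], []) : Node Λ) (([], Sum.inl []) : Pt Λ) then (1 : 𝕜) else 0) = 1
      rw [if_pos h2]
    rw [h3, norm_one] at h1
    exact h1

theorem mem1 (a : List Λ) (h : (lev (([], Sum.inl a) : Pt Λ) : ℕ∞) ≤ N) :
    ev 𝕜 L N ⟨([], Sum.inl a), h⟩ ∈ Submodule.span 𝕜 (range (es 𝕜 L N)) := by
  induction a with
  | nil => exact Submodule.subset_span ⟨⟨([], []), h⟩, rfl⟩
  | cons x a ih =>
    have h1 : es 𝕜 L N ⟨([], x :: a), h⟩ ∈ Submodule.span 𝕜 (range (es 𝕜 L N)) :=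
      Submodule.subset_span ⟨_, rfl⟩
    have h2 := Submodule.add_mem _ h1 (ih h)
    have h3 : es 𝕜 L N ⟨([], x :: a), h⟩ + ev 𝕜 L N ⟨([], Sum.inl a), h⟩ =
        ev 𝕜 L N ⟨([], Sum.inl (x :: a)), h⟩ := sub_add_cancel _ _
    rw [h3] at h2
    exact h2

theorem mem2 (δ : Λ) (D : List Λ) (a : List Λ)
    (h : (lev ((δ :: D, Sum.inl a) : Pt Λ) : ℕ∞) ≤ N)
    (h' : (lev ((D, Sum.inr δ) : Pt Λ) : ℕ∞) ≤ N) :
    ev 𝕜 L N ⟨(δ :: D, Sum.inl a), h⟩ - ev 𝕜 L N ⟨(D, Sum.inr δ), h'⟩ ∈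
      Submodule.span 𝕜 (range (es 𝕜 L N)) := by
  induction a with
  | nil => exact Submodule.subset_span ⟨⟨(δ :: D, []), h⟩, rfl⟩
  | cons x a ih =>
    have h1 : es 𝕜 L N ⟨(δ :: D, x :: a), h⟩ ∈ Submodule.span 𝕜 (range (es 𝕜 L N)) :=
      Submodule.subset_span ⟨_, rfl⟩
    have h2 := Submodule.add_mem _ h1 (ih h)
    have h3 : es 𝕜 L N ⟨(δ :: D, x :: a), h⟩ +
        (ev 𝕜 L N ⟨(δ :: D, Sum.inl a), h⟩ - ev 𝕜 L N ⟨(D, Sum.inr δ), h'⟩) =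
        ev 𝕜 L N ⟨(δ :: D, Sum.inl (x :: a)), h⟩ - ev 𝕜 L N ⟨(D, Sum.inr δ), h'⟩ := by
      show ev 𝕜 L N ⟨(δ :: D, Sum.inl (x :: a)), h⟩ - ev 𝕜 L N ⟨(δ :: D, Sum.inl a), h⟩ + _ = _
      abel
    rw [h3] at h2
    exact h2

end LOWM

open LOWM in
theorem specLOW (hLIM : SpecLIM) : SpecLOW := by
  intro 𝕜 _ Λ L n
  set N : ℕ∞ := (n : ℕ∞) with hN
  set V := cspan 𝕜 (es 𝕜 L N) with hV
  have hsub : ∀ v ∈ Submodule.span 𝕜 (range (es 𝕜 L N)), v ∈ V := fun v hv =>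
    Submodule.le_topologicalClosure _ hv
  have hne : Nonempty {x : ES 𝕜 L N // ‖x‖ = 1} := ⟨⟨_, norm_ch L N⟩⟩
  refine le_ciInf fun g => ?_
  obtain ⟨g, hg⟩ := g
  show 1 / (2 * (n : ℝ) + 1) ≤ sg V g
  set σ := sg V g with hσ
  have hσ0 : 0 ≤ σ := sg_nonneg V g
  -- the induction
  have hlim : ∀ (D : List Λ) (C : ℝ),
      (∀ (a : List Λ) (h : (lev ((D, Sum.inl a) : Pt Λ) : ℕ∞) ≤ N),
        ‖ev 𝕜 L N ⟨(D, Sum.inl a), h⟩ g‖ ≤ C) →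
      ∀ (δ : Λ) (h : (lev ((D, Sum.inr δ) : Pt Λ) : ℕ∞) ≤ N),
        ‖ev 𝕜 L N ⟨(D, Sum.inr δ), h⟩ g‖ ≤ C := by
    intro D C hC δ h
    have h' : ((D.length : ℕ) : ℕ∞) ≤ N := by
      refine le_trans ?_ h
      show ((D.length : ℕ) : ℕ∞) ≤ ((D.length + 1 : ℕ) : ℕ∞)
      exact_mod_cast Nat.le_succ _
    have h1 := (hLIM 𝕜 Λ L N g D δ h h').norm
    exact le_of_tendsto h1 (Eventually.of_forall fun i => hC _ _)
  have main : ∀ D : List Λ,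
      ∀ (a : List Λ) (h : (lev ((D, Sum.inl a) : Pt Λ) : ℕ∞) ≤ N),
        ‖ev 𝕜 L N ⟨(D, Sum.inl a), h⟩ g‖ ≤ (2 * (D.length : ℝ) + 1) * σ := by
    intro D
    induction D with
    | nil =>
      intro a h
      have h1 := sg_le V g _ (hsub _ (mem1 L N a h)) (ev_norm L N _)
      rw [List.length_nil, Nat.cast_zero, mul_zero, zero_add, one_mul]
      exact h1
    | cons δ D ih =>
      intro a h
      have h' : (lev ((D, Sum.inr δ) : Pt Λ) : ℕ∞) ≤ N := h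
      have h1 := hlim D _ ih δ h'
      have h2 := sg_two V g _ _ (hsub _ (mem2 L N δ D a h h')) (ev_norm L N _) (ev_norm L N _)
      rw [List.length_cons]
      push_cast
      linarith
  have hall : ∀ p : PN Λ N, ‖(g.1 : PN Λ N → 𝕜) p‖ ≤ (2 * (n : ℝ) + 1) * σ := by
    rintro ⟨⟨D, e⟩, h⟩
    have hlen : (D.length : ℝ) ≤ n := by
      have h1 : ((D.length : ℕ) : ℕ∞) ≤ (n : ℕ∞) := by
        refine le_trans ?_ h
        cases e with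
        | inl a => exact le_rfl
        | inr δ =>
          show ((D.length : ℕ) : ℕ∞) ≤ ((D.length + 1 : ℕ) : ℕ∞)
          exact_mod_cast Nat.le_succ _
      exact_mod_cast h1
    have h2 : ‖ev 𝕜 L N ⟨(D, e), h⟩ g‖ ≤ (2 * (D.length : ℝ) + 1) * σ := by
      cases e with
      | inl a => exact main D a h
      | inr δ => exact hlim D _ (main D) δ h
    refine h2.trans (mul_le_mul_of_nonneg_right ?_ hσ0)
    linarith
  have hfin : ‖g‖ ≤ (2 * (n : ℝ) + 1) * σ :=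
    lp.norm_le_of_forall_le (by positivity) hall
  rw [hg] at hfin
  rw [div_le_iff₀ (by positivity)]
  linarith

end Pool.Agent.Lib.MP38dfb6

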