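import Pool.Agent.Lib.MP_38dfb6_an.NB.Spec

/-!
Module NNG: the characteristic of a subspace of the dual space is nonnegative.
-/

set_option autoImplicit false

namespace Pool.Agent.Lib.MP38dfb6

universe u

theorem specNNG : SpecNNG.{u} := by
  intro 𝕜 _ X _ _ V
  unfold charac
  exact Real.iInf_nonneg fun x => Real.iSup_nonneg fun f => norm_nonneg _

end Pool.Agent.Lib.MP38dfb6
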