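import Pool.Agent.Lib.MP_38dfb6_an.NB.Defs

/-!
# MP_38dfb6_an: the best characteristic of M-bases in WCG spaces. Exact statements of the modules

THEOREM.  `𝕜` real or complex.
(1) There is a Hilbert generated (so WCG) Banach space `E`, generated by `ℵ₁` vectors, such that no
Banach space `X` containing an isomorphic copy of `E` has a norming M-basis.
(2) For every `n` there is a Hilbert generated space `E_n` with a norming M-basis such that the largest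
characteristic of an M-basis of `E_n` is exactly `1/(2n+1)`; and if `J : E_n → X` satisfies
`a ‖e‖ ≤ ‖J e‖` then all M-bases of `X` have characteristic `≤ ‖J‖ / (a (2n+1))`.
(`E = ES 𝕜 L ⊤`, `E_n = ES 𝕜 L n`.)

Convention.  Module `XXX` = file `Pool/Agent/Lib/MP_38dfb6_an/NB/XXX.lean`, imports only
`Pool.Agent.Lib.MP_38dfb6_an.NB.Spec`, namespace `Pool.Agent.Lib.MP38dfb6`, theorem
`specXXX (hYYY : SpecYYY) .. : SpecXXX` with the hypotheses in the order of USES, own lemmas in a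
namespace `XXXM`.
-/

set_option autoImplicit false

namespace Pool.Agent.Lib.MP38dfb6

open Filter Topology Set

universe u v

/-- `LAM` [80].  USES nothing.  PROOF.  `Λ = (Cardinal.aleph 1).ord.ToType` (or `Set.Iio (Ordinal.omega 1)`
shrunk to `Type`, or any well-order of type `ω₁`): every `Iio δ` is countable (its cardinality is `< ℵ₁`),
the whole type is not.  `bdd`: if a countable `s` is not bounded then `Λ = ⋃ x ∈ s, Iic x` is countable.
`L δ`: if `Iio δ` is not empty, a surjection from `ℕ` onto it (`Set.Countable.exists_eq_range`), else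
anything.  `#Λ = ℵ₁`. -/
def SpecLAM : Prop := ∃ (Λ : Type) (_ : LinearOrder Λ) (L : Λ → ℕ → Λ), Lad Λ L ∧
  Cardinal.mk Λ ≤ Cardinal.aleph 1

/-- `UNQ` [70].  USES nothing.  At most one node of every class `(j, l)` on a path.
PROOF.  `s.1`, `s'.1` are suffixes of `p.1` with the same length, so equal (`List.suffix_of_suffix_length_le`).
If both `On` hold by the first case: `Pre L s.2 p.2`, `Pre L s'.2 p.2` and equal lengths give `s.2 = s'.2`
(two suffixes of `b` of the same length; or both are `lad L δ length`).  If both hold by the second case: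
`δ :: s.1` and `δ' :: s.1` are suffixes of `p.1` of the same length, so `δ = δ'`.  The mixed case is
impossible by the lengths. -/
def SpecUNQ : Prop := ∀ (Λ : Type) (L : Λ → ℕ → Λ) (s s' : Node Λ) (p : Pt Λ), On L s p → On L s' p →
  s.1.length = s'.1.length → s.2.length = s'.2.length → s = s'

/-- `CHN` [60].  USES nothing.  PROOF.  (a) `[] <:+ p.1`: if `p.1 = []` first case (`Pre L [] e` always holds), else
`p.1` ends with some `[δ]`, second case with this `δ`.  (b) the same case.  (c) first case: `δ :: D = p.1`, so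
the second case for `(D, _)` with this `δ` (`lad` has length `i`: `(lad L δ i).length = i`).  Second case:
`δ' :: δ :: D <:+ p.1`, so `δ :: D <:+ p.1`. -/
def SpecCHN : Prop := ∀ (Λ : Type) (L : Λ → ℕ → Λ) (p : Pt Λ), On L ([], []) p ∧
  (∀ s : Node Λ, On L s p → On L (s.1, []) p) ∧
  ∀ (δ : Λ) (D : List Λ) (i : ℕ), On L (δ :: D, []) p → On L (D, lad L δ i) p

/-- `PRD` [90].  USES nothing.  The path of a node and the path below it.
PROOF.  (a) On the path of `(D, inl (x :: a))`: the first case is `t.1 = D ∧ t.2 <:+ x :: a` (`List.suffix_cons_iff`),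
the second case does not see the second component; `x :: a` is not a suffix of `a`, and `(δ :: D) <:+ D` is
impossible.  (b) `On L t (δ :: D, inl [])`: first case `t.1 = δ :: D ∧ t.2 = []`; second case
`(δ' :: t.1) <:+ (δ :: D)`: either `δ' = δ`, `t.1 = D` and `t.2 = lad L δ _` (first case for `(D, inr δ)`), or
`(δ' :: t.1) <:+ D` (second case for `(D, inr δ)`).  `¬ On L (δ :: D, []) (D, inr δ)`: lengths.  (c) trivial. -/
def SpecPRD : Prop := ∀ (Λ : Type) (L : Λ → ℕ → Λ) (t : Node Λ),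
  (∀ (D : List Λ) (x : Λ) (a : List Λ), On L t (D, Sum.inl (x :: a)) ↔ t = (D, x :: a) ∨ On L t (D, Sum.inl a)) ∧
  (∀ (D : List Λ) (x : Λ) (a : List Λ), ¬ On L (D, x :: a) (D, Sum.inl a)) ∧
  (∀ (δ : Λ) (D : List Λ), On L t (δ :: D, Sum.inl []) ↔ t = (δ :: D, []) ∨ On L t (D, Sum.inr δ)) ∧
  (∀ (δ : Λ) (D : List Λ), ¬ On L (δ :: D, []) (D, Sum.inr δ)) ∧
  (On L t ([], Sum.inl []) ↔ t = ([], []))

/-- `CLS` [100].  USES UNQ.  PROOF.  For `s ∈ F` let `ε s` be of absolute value `≤ 1` with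
`ψ (ch s) * ε s = ‖ψ (ch s)‖` (e.g. `conj (ψ (ch s)) / ‖ψ (ch s)‖`).  `g = ∑ s ∈ F, ε s • ch s` has norm `≤ 1`: at every
point `p` at most one term is not `0` (UNQ) (`lp.norm_le_of_forall_le`; `Finset.sum_eq_single` or all zero).
`∑ ‖ψ (ch s)‖ = ψ g ≤ ‖ψ‖`. -/
def SpecCLS : Prop := ∀ (𝕜 : Type) [RCLike 𝕜] (Λ : Type) (L : Λ → ℕ → Λ) (N : ℕ∞) (ψ : ES 𝕜 L N →L[𝕜] 𝕜)
  (j l : ℕ) (F : Finset (Node Λ)), (∀ s ∈ F, s.1.length = j ∧ s.2.length = l) →
  ∑ s ∈ F, ‖ψ (ch 𝕜 L N s)‖ ≤ ‖ψ‖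

/-- `CNT` [120].  USES CLS.  PROOF.  For every class `(j, l)` and `ε > 0` the set of the `s` in the class with
`‖ψ (ch s)‖ ≥ ε` is finite (otherwise it contains a finite set `F` with more than `‖ψ‖/ε` elements; `Set.Infinite.exists_subset_card_eq`).
First statement: countable union over `j, l, m` with `ε = 1/(m+1)`.  Second: `‖ψ (ch t)‖ ≤ ‖ψ‖` (one-element `F`), so
`(1/2)^(j+l) ‖ψ‖ ≥ ε` only for finitely many `(j, l)`, and for each of them the set is finite. -/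
def SpecCNT : Prop := ∀ (𝕜 : Type) [RCLike 𝕜] (Λ : Type) (L : Λ → ℕ → Λ) (N : ℕ∞) (ψ : ES 𝕜 L N →L[𝕜] 𝕜),
  {t : Node Λ | ψ (ch 𝕜 L N t) ≠ 0}.Countable ∧
  ∀ ε : ℝ, 0 < ε → {t : Node Λ |
    ε ≤ ‖ψ (((1 / 2 : 𝕜) ^ (t.1.length + t.2.length)) • ch 𝕜 L N t)‖}.Finite

/-- `GEN` [80].  USES nothing.  PROOF.  `chi s = 0` if `N < s.1.length` (a point `p` with `On L s p` has
`s.1.length ≤ p.1.length ≤ lev p ≤ N`).  So the span of all `chi s` is the span of those with `s ∈ NN Λ N`.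
The closed span of the `ch s` in the subtype `ES` is everything: every `g ∈ ES` is a limit of elements of
the span of the `chi s` (`Submodule.mem_closure_iff`/`mem_closure_iff_seq_limit`; the map `Subtype.val` is isometric). -/
def SpecGEN : Prop := ∀ (𝕜 : Type) [RCLike 𝕜] (Λ : Type) (L : Λ → ℕ → Λ) (N : ℕ∞),
  (Submodule.span 𝕜 (range (ch 𝕜 L N))).topologicalClosure = ⊤ ∧
  (Submodule.span 𝕜 (range fun s : NN Λ N => ch 𝕜 L N s.1)).topologicalClosure = ⊤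

/-- `WCG` [90].  USES CNT, GEN.  PROOF.  `y t = (1/2)^(|t.1| + |t.2|) • ch t`.  `y → 0` weakly along `cofinite` (CNT;
`tendsto_iff_forall_eval_tendsto_topDualPairing` for `WeakSpace`), so `insert 0 (range y)` is weakly compact
(`Filter.Tendsto.isCompact_insert_range_of_cofinite`).  Its span contains all `ch t`; GEN. -/
def SpecWCG : Prop := ∀ (𝕜 : Type) [RCLike 𝕜] (Λ : Type) (L : Λ → ℕ → Λ) (N : ℕ∞), WCG 𝕜 (ES 𝕜 L N)

/-- `HIL` [150].  USES UNQ, GEN.  PROOF.  `H = lp (fun _ : Node Λ => 𝕜) 2` (`ℓ²`).  For a finitely supported `c`,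
`T c = ∑ c s (1/2)^(|s.1|+|s.2|) ch s` satisfies `‖T c‖ ≤ 2 ‖c‖`: at a point `p`, by Cauchy-Schwarz,
`|∑_(s on p) c s w s| ≤ ‖c‖ (∑_(s on p) (w s)²)^(1/2)`, `w s = (1/2)^(|s.1|+|s.2|)`, and by UNQ (the classes of the nodes on
`p` are different) `∑_(s on p) (w s)² ≤ ∑_(j, l) (1/4)^j (1/4)^l = 16/9 ≤ 4`.  One can define `T` directly on `H` with values in
`lp ⊤`: `(T c) p = ∑' s, if On L s p then w s * c s else 0` (absolutely convergent), check that it maps the elements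
of finite support to the span of the `chi s`, so everything to `ES` (closed; finitely supported elements are
dense, `lp.hasSum_single`); or extend a bounded operator from a dense subspace (`LinearMap.extend`, `ContinuousLinearMap.extend`).  The
range contains all `ch s`, so it is dense (GEN). -/
def SpecHIL : Prop := ∀ (𝕜 : Type) [RCLike 𝕜] (Λ : Type) (L : Λ → ℕ → Λ) (N : ℕ∞), HG 𝕜 (ES 𝕜 L N)

/-- `LIM` [100].  USES nothing.  PROOF.  The set of the `g` in `lp ⊤` with this property is a closed linear subspace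
(a uniform limit: `‖g p - g' p‖ ≤ ‖g - g'‖`; or use `tendsto_of_tendstoUniformly..`, or an `ε/3` argument).  For
`g = chi s` the values are equal for `i ≥ s.2.length`: the second case of `On` is the same for the two points,
and in the first case (`s.1 = D`) `s.2 <:+ lad L δ i ↔ s.2 = lad L δ s.2.length` for `i ≥ s.2.length` (`lad L δ j <:+ lad L δ i`
for `j ≤ i`, and suffixes of the same length are equal). -/
def SpecLIM : Prop := ∀ (𝕜 : Type) [RCLike 𝕜] (Λ : Type) (L : Λ → ℕ → Λ) (N : ℕ∞) (g : ES 𝕜 L N)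
  (D : List Λ) (δ : Λ) (h : ((D.length + 1 : ℕ) : ℕ∞) ≤ N) (h' : ((D.length : ℕ) : ℕ∞) ≤ N),
  Tendsto (fun i => ev 𝕜 L N ⟨(D, Sum.inl (lad L δ i)), h'⟩ g) atTop (𝓝 (ev 𝕜 L N ⟨(D, Sum.inr δ), h⟩ g))

/-- `BAS` [150].  USES PRD, GEN, LIM.  The M-basis of `ES 𝕜 L N`.
PROOF.  `es s (ch t) = 1` if `s = t` and `0` otherwise: cases of `s` and PRD (`ev p (ch t) = if On L t p then 1 else 0`).
`fund`: GEN.  `tot`: let `es s g = 0` for all `s ∈ NN Λ N`.  Claim: `g` vanishes at all points `(D, inl a)` and `(D, inr δ)`: induction on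
`D`, then on `a`.  `([], inl [])`: `es ([],[])`.  `(δ :: D, inl [])`: `es (δ :: D, [])` and the value at `(D, inr δ)`.  `(D, inl (x :: a))`:
`es (D, x :: a)` and the value at `(D, inl a)`.  `(D, inr δ)`: LIM.  So `g = 0`. -/
def SpecBAS : Prop := ∀ (𝕜 : Type) [RCLike 𝕜] (Λ : Type) (L : Λ → ℕ → Λ) (N : ℕ∞),
  MBasis 𝕜 (ES 𝕜 L N) (fun s : NN Λ N => ch 𝕜 L N s.1) (es 𝕜 L N)

/-- `LOW` [180].  USES LIM.  The characteristic of this M-basis.
PROOF.  Let `V = span (range es)`, `‖g‖ = 1`, `σ = ⨆ f ∈ cspan, ‖f‖ ≤ 1, ‖f g‖` (bounded above by `1`).  (1) `ev ([], inl a) ∈ V`, and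
`ev (δ :: D, inl a) - ev (D, inr δ) ∈ V` (induction on `a`, telescoping: `es (D', x :: a) = ev (D', inl (x :: a)) - ev (D', inl a)`).
`‖ev p‖ ≤ 1`.  (2) `‖g p‖ ≤ (2 |D| + 1) σ` for `p = (D, inl a)` and `p = (D, inr δ)`: induction on `D`.  `D = []`, `p = ([], inl a)`: `ev p` is in `V` with norm
`≤ 1`.  `D = δ :: D'`, `p = (D, inl a)`: `(1/2) • (ev p - ev (D', inr δ))` is in `V` with norm `≤ 1`, so
`‖g p‖ ≤ ‖g (D', inr δ)‖ + 2 σ`.  `p = (D, inr δ)`: LIM (`le_of_tendsto`).  (3) all points have `|D| ≤ n`, so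
`1 = ‖g‖ ≤ (2 n + 1) σ` (`lp.norm_le_of_forall_le`).  `charac` is the infimum of the `σ`; the set of unit vectors is not empty
(`‖ch ([], [])‖ = 1`: value `1` at the point `([], inl [])`). -/
def SpecLOW : Prop := ∀ (𝕜 : Type) [RCLike 𝕜] (Λ : Type) (L : Λ → ℕ → Λ) (n : ℕ),
  1 / (2 * n + 1 : ℝ) ≤ charac 𝕜 (cspan 𝕜 (es 𝕜 L (n : ℕ∞)))

/-- `δ` is closed under `β`: `β s < δ` for all nodes `s` with all entries `< δ`. -/
def Closed {Λ : Type} [LinearOrder Λ] (β : Node Λ → Λ) (δ : Λ) : Prop :=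
  ∀ s : Node Λ, (∀ x ∈ s.1, x < δ) → (∀ x ∈ s.2, x < δ) → β s < δ

/-- `CLO` [130].  USES nothing.  PROOF.  (1) For every `b` there is a closed `δ > b`: define `A 0 = b`; the set of the nodes
with all entries `≤ A m` is countable (lists over a countable set; `Iic = Iio ∪ {·}`), so by `Lad.bdd` there is
`A (m+1)` greater than `A m` and than all `β s` for these `s`.  The set of upper bounds of `range A` is not empty
(`Lad.bdd`), let `δ` be its least element (`Lad.wf`).  `A m < A (m+1) ≤ δ`.  Every `x < δ` is not an upper bound, so `x < A m` for some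
`m`; so if all entries of `s` are `< δ` they are all `≤ A m` for one `m` (finitely many, `A` increasing) and `β s < A (m+1) ≤ δ`.
(2) Induction on `n`: given `D`, `Lad.bdd` gives `b` above all its entries, and `δ > b` closed; `δ :: D`
(`List.suffix_cons_iff`). -/
def SpecCLO : Prop := ∀ (Λ : Type) [LinearOrder Λ] (L : Λ → ℕ → Λ), Lad Λ L → ∀ (β : Node Λ → Λ) (n : ℕ),
  ∃ D : List Λ, D.length = n ∧ ∀ (δ : Λ) (D' : List Λ), (δ :: D') <:+ D →
    Closed β δ ∧ ∀ x ∈ D', x < δ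

/-- `KIL` [200].  USES CNT, CLO.  The closing-off argument.
PROOF.  For every node `s` there is a countable `I s ⊆ ι` with `J (ch s)` in the closure of the span of `x '' I s` (`J (ch s)` is a limit
of a sequence in `span (range x)`, `MBasis.fund`; every member of the sequence is in the span of a finite subset).  The
set of the nodes `t` with `f i (J (ch t)) ≠ 0` for some `i ∈ I s` is countable (CNT for `(f i).comp J`), each has finitely many
entries, so by `Lad.bdd` there is `β s` greater than all entries of all these `t`.  Take `D` from CLO.  Let `(δ :: D') <:+ D`, and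
`φ = ∑ i ∈ F, c i • f i` (`F` finite).  `δ` is not least: `β ([], []) < δ`.  For every `i ∈ F` for which there is a node `s` with entries `< δ` and
`i ∈ I s` choose one, `s i`; let `δ' < δ` be the maximum of `β ([], [])` and of the `β (s i)`.  `L δ j = δ'` for some `j` (`Lad.sur`).  The node
`t = (D', lad L δ (j+1))` has entries `< δ` (CLO, `Lad.lt`) and the entry `δ'`.  For every `i ∈ F`: `f i (J (ch t)) = 0`.  Indeed, if `s i` is defined and
`f i (J (ch t)) ≠ 0` then all entries of `t` are `< β (s i) ≤ δ'`, a contradiction.  Otherwise `i ∉ I t`, so `f i` vanishes on `x '' I t` and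
on the closure of its span.  So `φ (J (ch t)) = 0`. -/
def SpecKIL : Prop := ∀ (𝕜 : Type) [RCLike 𝕜] (Λ : Type) [LinearOrder Λ] (L : Λ → ℕ → Λ) (N : ℕ∞), Lad Λ L →
  ∀ (X : Type u) [NormedAddCommGroup X] [NormedSpace 𝕜 X] (J : ES 𝕜 L N →L[𝕜] X)
    (ι : Type v) (x : ι → X) (f : ι → (X →L[𝕜] 𝕜)), MBasis 𝕜 X x f → ∀ n : ℕ,
  ∃ D : List Λ, D.length = n ∧ ∀ φ ∈ Submodule.span 𝕜 (range f), ∀ (δ : Λ) (D' : List Λ), (δ :: D') <:+ D →
    ∃ i : ℕ, φ (J (ch 𝕜 L N (D', lad L δ i))) = 0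

/-- the test vector: `1 + 2 ∑ ch (c_k)` -/
noncomputable def GG (𝕜 : Type) [RCLike 𝕜] {Λ : Type} (L : Λ → ℕ → Λ) (N : ℕ∞) : List Λ → ES 𝕜 L N
  | [] => ch 𝕜 L N ([], [])
  | δ :: D => GG 𝕜 L N D + (2 : 𝕜) • ch 𝕜 L N (δ :: D, [])

/-- `TST` [110].  USES CHN.  The test vector.
PROOF.  Norm: at the point `(D, inl [])` all `ch (D'', [])`, `D'' <:+ D`, are `1`, so the value of `GG D` is `2 |D| + 1` (more generally,
by induction on `D`: at every point `p` with `On L (D, []) p` the value of `GG D` is `2 |D| + 1`; `On L (δ :: D, []) p` gives `On L (D, []) p`).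
Second part: induction on `D` with the statement: there is `R` with `ψ R = ψ (GG D)`, such that for every point `p` the value of `R` is `1` or
`-1`, and is `1` if `On L (D, []) p`.  `D = []`: `R = ch ([], [])` (CHN (a)).  Step: `R' = R - 2 ch (D, lad L δ i) + 2 ch (δ :: D, [])`, `i` from the
hypothesis.  If `On L (D, lad L δ i) p` then `On L (D, []) p`, the value of `R` is `1`, that of `R'` is `-1` or `1`, and `1` if `On L (δ :: D, []) p`.
Otherwise `¬ On L (δ :: D, []) p` and the values are the same.  `‖R‖ ≤ 1`. -/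
def SpecTST : Prop := ∀ (𝕜 : Type) [RCLike 𝕜] (Λ : Type) (L : Λ → ℕ → Λ) (N : ℕ∞) (D : List Λ),
  (((D.length : ℕ) : ℕ∞) ≤ N → (2 * D.length + 1 : ℝ) ≤ ‖GG 𝕜 L N D‖) ∧
  ∀ ψ : ES 𝕜 L N →L[𝕜] 𝕜, (∀ (δ : Λ) (D' : List Λ), (δ :: D') <:+ D →
    ∃ i : ℕ, ψ (ch 𝕜 L N (D', lad L δ i)) = 0) → ‖ψ (GG 𝕜 L N D)‖ ≤ ‖ψ‖

/-- `UPP` [120].  USES KIL, TST.
PROOF.  `D` from KIL, `G = GG D`.  For `φ ∈ span (range f)`: `‖φ (J G)‖ ≤ ‖φ.comp J‖ ≤ ‖φ‖ ‖J‖` (TST for `ψ = φ.comp J`).  The set of the `φ` with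
`‖φ (J G)‖ ≤ ‖φ‖ ‖J‖` is closed, so this holds for `φ ∈ cspan`.  `‖J G‖ ≥ a ‖G‖ ≥ a (2 n + 1) > 0`.  At the unit vector
`‖J G‖⁻¹ • J G` the supremum is `≤ ‖J‖ / ‖J G‖` (`ciSup_le`; nonempty: `0`), and `ciInf_le` (bounded below by `0`: `Real.iSup_nonneg`). -/
def SpecUPP : Prop := ∀ (𝕜 : Type) [RCLike 𝕜] (Λ : Type) [LinearOrder Λ] (L : Λ → ℕ → Λ) (N : ℕ∞), Lad Λ L →
  ∀ (X : Type u) [NormedAddCommGroup X] [NormedSpace 𝕜 X] (J : ES 𝕜 L N →L[𝕜] X) (a : ℝ), 0 < a →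
    (∀ e, a * ‖e‖ ≤ ‖J e‖) → ∀ (ι : Type v) (x : ι → X) (f : ι → (X →L[𝕜] 𝕜)), MBasis 𝕜 X x f →
  ∀ n : ℕ, ((n : ℕ) : ℕ∞) ≤ N → charac 𝕜 (cspan 𝕜 f) ≤ ‖J‖ / (a * (2 * n + 1))

/-- `CRD` [60].  USES GEN.  PROOF.  `G = range (ch ..)`; `#(Node Λ) ≤ ℵ₁`: `Cardinal.mk_list_le_max`, `Cardinal.mk_prod`,
`Cardinal.mul_le_max_of_aleph0_le..`; `Cardinal.mk_range_le`. -/
def SpecCRD : Prop := ∀ (𝕜 : Type) [RCLike 𝕜] (Λ : Type) (L : Λ → ℕ → Λ) (N : ℕ∞),
  Cardinal.mk Λ ≤ Cardinal.aleph 1 →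
  ∃ G : Set (ES 𝕜 L N), Cardinal.mk G ≤ Cardinal.aleph 1 ∧ (Submodule.span 𝕜 G).topologicalClosure = ⊤

/-- `NNG` [40].  USES nothing.  PROOF.  `Real.iInf_nonneg`, `Real.iSup_nonneg`. -/
def SpecNNG : Prop := ∀ (𝕜 : Type) [RCLike 𝕜] (X : Type u) [NormedAddCommGroup X] [NormedSpace 𝕜 X]
  (V : Submodule 𝕜 (X →L[𝕜] 𝕜)), 0 ≤ charac 𝕜 V

/-- the theorem -/
def Goal : Prop := ∀ (𝕜 : Type) [RCLike 𝕜],
  (∃ (E : Type) (_ : NormedAddCommGroup E) (_ : NormedSpace 𝕜 E) (_ : CompleteSpace E),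
    WCG 𝕜 E ∧ HG 𝕜 E ∧
    (∃ G : Set E, Cardinal.mk G ≤ Cardinal.aleph 1 ∧ (Submodule.span 𝕜 G).topologicalClosure = ⊤) ∧
    (∀ (ι : Type v) (x : ι → E) (f : ι → (E →L[𝕜] 𝕜)), MBasis 𝕜 E x f → charac 𝕜 (cspan 𝕜 f) = 0) ∧
    ∀ (X : Type u) (_ : NormedAddCommGroup X) (_ : NormedSpace 𝕜 X) (J : E →L[𝕜] X) (a : ℝ), 0 < a →
      (∀ e, a * ‖e‖ ≤ ‖J e‖) → ∀ (ι : Type v) (x : ι → X) (f : ι → (X →L[𝕜] 𝕜)),
      MBasis 𝕜 X x f → charac 𝕜 (cspan 𝕜 f) = 0) ∧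
  ∀ n : ℕ, ∃ (E : Type) (_ : NormedAddCommGroup E) (_ : NormedSpace 𝕜 E) (_ : CompleteSpace E),
    WCG 𝕜 E ∧ HG 𝕜 E ∧
    (∃ G : Set E, Cardinal.mk G ≤ Cardinal.aleph 1 ∧ (Submodule.span 𝕜 G).topologicalClosure = ⊤) ∧
    (∃ (ι : Type) (x : ι → E) (f : ι → (E →L[𝕜] 𝕜)), MBasis 𝕜 E x f ∧
      charac 𝕜 (cspan 𝕜 f) = 1 / (2 * n + 1)) ∧
    (∀ (ι : Type v) (x : ι → E) (f : ι → (E →L[𝕜] 𝕜)), MBasis 𝕜 E x f →
      charac 𝕜 (cspan 𝕜 f) ≤ 1 / (2 * n + 1)) ∧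
    ∀ (X : Type u) (_ : NormedAddCommGroup X) (_ : NormedSpace 𝕜 X) (J : E →L[𝕜] X) (a : ℝ), 0 < a →
      (∀ e, a * ‖e‖ ≤ ‖J e‖) → ∀ (ι : Type v) (x : ι → X) (f : ι → (X →L[𝕜] 𝕜)),
      MBasis 𝕜 X x f → charac 𝕜 (cspan 𝕜 f) ≤ ‖J‖ / (a * (2 * n + 1))

/-- `FIN` [140].  USES LAM, WCG, HIL, BAS, LOW, `UPP.{u, v}`, `UPP.{0, v}`, `UPP.{0, 0}`, CRD, NNG: hypotheses
`(hLAM : SpecLAM) (hWCG : SpecWCG) (hHIL : SpecHIL) (hBAS : SpecBAS) (hLOW : SpecLOW) (hUPP : SpecUPP.{u, v})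
(h0v : SpecUPP.{0, v}) (h00 : SpecUPP.{0, 0}) (hCRD : SpecCRD) (hNNG : SpecNNG.{u}) (hNNG0 : SpecNNG.{0})`.
PROOF.  `Λ, L` from LAM.  (1) `E = ES 𝕜 L ⊤`: `charac ≤ ‖J‖/(a (2 n + 1))` for all `n`, and `≥ 0`; `J = id` for `X = E`, `a = 1`.
(2) `E = ES 𝕜 L n`; `x, f` from BAS, `≥` is LOW, `≤` is UPP for `J = id` (`‖id‖ ≤ 1`). -/
def SpecFIN : Prop := Goal.{u, v}

end Pool.Agent.Lib.MP38dfb6
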