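import Pool.Agent.Lib.MP_38dfb6_an.NB.Spec

/-!
# MP_38dfb6_an: all best characteristics. Exact statements of the modules of part W

THEOREM.  `𝕜` real or complex, `0 ≤ r ≤ 1`.  There is a Hilbert generated (so WCG) Banach space, generated by
`ℵ₁` vectors, whose M-bases have largest characteristic exactly `r` (attained), and `r ‖J‖ / a` bounds the
characteristics of all M-bases of `X` if `J : E → X`, `a ‖e‖ ≤ ‖J e‖`.

The space is the space `ES` with the weight `lam ^ |D|` at the points with `|D|` limit levels, `0 < lam ≤ 1`: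
the closed linear span `EW` of the functions `p ↦ lam ^ |D_p| [On L s p]`.  With
`BB lam n = 1 + 2 ∑_{j=1}^n lam ^ j` the largest characteristic is `1 / sup_{n ≤ N} BB lam n`.

Convention.  Module `XXX` = file `Pool/Agent/Lib/MP_38dfb6_an/NB/XXX.lean`, imports only
`Pool.Agent.Lib.MP_38dfb6_an.NB.SpecW`, namespace `Pool.Agent.Lib.MP38dfb6`, theorem
`specXXX (hYYY : SpecYYY) .. : SpecXXX` with the hypotheses in the order of USES, own lemmas in a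
namespace `XXXM`.  (The modules of part 1 are on main: their proofs can be copied.)
-/

set_option autoImplicit false

namespace Pool.Agent.Lib.MP38dfb6

open Filter Topology Set

universe u v

section space

variable (𝕜 : Type) [RCLike 𝕜] {Λ : Type} (L : Λ → ℕ → Λ) (N : ℕ∞) (lam : Ioc (0 : ℝ) 1)

open Classical in
/-- the weighted indicator -/
noncomputable def chw (s : Node Λ) : lp (fun _ : PN Λ N => 𝕜) ⊤ :=
  ⟨fun p => if On L s p.1 then ((((lam : ℝ) ^ p.1.1.length : ℝ)) : 𝕜) else 0, memℓp_infty ⟨1, by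
    rintro _ ⟨p, rfl⟩
    dsimp only
    split_ifs
    · rw [RCLike.norm_ofReal, abs_of_nonneg (pow_nonneg lam.2.1.le _)]
      exact pow_le_one₀ lam.2.1.le lam.2.2
    · simp⟩⟩

/-- The weighted space. -/
noncomputable def EW : Submodule 𝕜 (lp (fun _ : PN Λ N => 𝕜) ⊤) :=
  (Submodule.span 𝕜 (range (chw 𝕜 L N lam))).topologicalClosure

/-- `chw s` as an element of the space `EW` -/
noncomputable def cw (s : Node Λ) : EW 𝕜 L N lam :=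
  ⟨chw 𝕜 L N lam s, Submodule.le_topologicalClosure _ (Submodule.subset_span ⟨s, rfl⟩)⟩

instance : CompleteSpace (EW 𝕜 L N lam) := by
  unfold EW
  infer_instance

/-- evaluation at a point, divided by the weight of the point -/
noncomputable def evw (p : PN Λ N) : EW 𝕜 L N lam →L[𝕜] 𝕜 :=
  ((((lam : ℝ) ^ p.1.1.length : ℝ)) : 𝕜)⁻¹ • LinearMap.mkContinuous
    { toFun := fun g => (g.1 : PN Λ N → 𝕜) p
      map_add' := fun _ _ => rfl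
      map_smul' := fun _ _ => rfl } 1 (by
    intro g
    have h := lp.norm_apply_le_norm ENNReal.top_ne_zero g.1 p
    simpa using h)

/-- the functionals associated with the vectors `cw s` -/
noncomputable def esw : NN Λ N → (EW 𝕜 L N lam →L[𝕜] 𝕜)
  | ⟨(D, x :: a), h⟩ => evw 𝕜 L N lam ⟨(D, Sum.inl (x :: a)), h⟩ - evw 𝕜 L N lam ⟨(D, Sum.inl a), h⟩
  | ⟨(δ :: D, []), h⟩ => evw 𝕜 L N lam ⟨(δ :: D, Sum.inl []), h⟩ - evw 𝕜 L N lam ⟨(D, Sum.inr δ), h⟩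
  | ⟨([], []), h⟩ => evw 𝕜 L N lam ⟨([], Sum.inl []), h⟩

end space

/-- `1 + 2 (lam + lam² + ... + lam^n)` -/
noncomputable def BB (lam : ℝ) (n : ℕ) : ℝ := 1 + 2 * ∑ j ∈ Finset.range n, lam ^ (j + 1)

/-- `WPH` [80].  USES nothing.  PROOF.  Multiplication by the weight `p ↦ lam ^ |D_p| ≤ 1` is a bounded linear operator of
`lp ⊤` of norm `≤ 1`; it maps `chi s` to `chw s`, so `ES` to `EW` (`Submodule.topologicalClosure`, continuity: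
`map_mem_closure`).  Restrict it; the range contains all `cw s`; their span is dense in the subtype `EW` (cf. `GEN`). -/
def SpecWPH : Prop := ∀ (𝕜 : Type) [RCLike 𝕜] (Λ : Type) (L : Λ → ℕ → Λ) (N : ℕ∞) (lam : Ioc (0 : ℝ) 1),
  ∃ Φ : ES 𝕜 L N →L[𝕜] EW 𝕜 L N lam, (∀ s, Φ (ch 𝕜 L N s) = cw 𝕜 L N lam s) ∧ DenseRange Φ

/-- `WGN` [80].  USES WPH, GEN, WCG, HIL.  PROOF.  `Φ` continuous with dense range: the image of a set with dense span has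
dense span (`DenseRange`, `Submodule.map_span`, `DenseRange.topologicalClosure_map_submodule` or by hand), the image of a
weakly compact set is weakly compact (`Φ` is weak-weak continuous, `toWeakSpace`; `WeakSpace.map`), `Φ ∘ T` has dense
range.  Last statement: `cw s = Φ (ch s)`. -/
def SpecWGN : Prop := ∀ (𝕜 : Type) [RCLike 𝕜] (Λ : Type) (L : Λ → ℕ → Λ) (N : ℕ∞) (lam : Ioc (0 : ℝ) 1),
  WCG 𝕜 (EW 𝕜 L N lam) ∧ HG 𝕜 (EW 𝕜 L N lam) ∧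
  (Submodule.span 𝕜 (range (cw 𝕜 L N lam))).topologicalClosure = ⊤ ∧
  (Submodule.span 𝕜 (range fun s : NN Λ N => cw 𝕜 L N lam s.1)).topologicalClosure = ⊤

/-- `WCR` [50].  USES WGN.  PROOF.  As `CRD`. -/
def SpecWCR : Prop := ∀ (𝕜 : Type) [RCLike 𝕜] (Λ : Type) (L : Λ → ℕ → Λ) (N : ℕ∞) (lam : Ioc (0 : ℝ) 1),
  Cardinal.mk Λ ≤ Cardinal.aleph 1 →
  ∃ G : Set (EW 𝕜 L N lam), Cardinal.mk G ≤ Cardinal.aleph 1 ∧ (Submodule.span 𝕜 G).topologicalClosure = ⊤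

/-- `WLM` [100].  USES nothing.  PROOF.  As `LIM` (the weight of the points `(D, inl _)` and `(D, inr δ)` is the same). -/
def SpecWLM : Prop := ∀ (𝕜 : Type) [RCLike 𝕜] (Λ : Type) (L : Λ → ℕ → Λ) (N : ℕ∞) (lam : Ioc (0 : ℝ) 1)
  (g : EW 𝕜 L N lam) (D : List Λ) (δ : Λ) (h : ((D.length + 1 : ℕ) : ℕ∞) ≤ N) (h' : ((D.length : ℕ) : ℕ∞) ≤ N),
  Tendsto (fun i => evw 𝕜 L N lam ⟨(D, Sum.inl (lad L δ i)), h'⟩ g) atTop
    (𝓝 (evw 𝕜 L N lam ⟨(D, Sum.inr δ), h⟩ g))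

/-- `WBS` [150].  USES PRD, WGN, WLM.  PROOF.  As `BAS` (`evw p (cw t) = if On L t p then 1 else 0`; `evw p g = 0` iff `g p = 0`, as the weight is
not `0`). -/
def SpecWBS : Prop := ∀ (𝕜 : Type) [RCLike 𝕜] (Λ : Type) (L : Λ → ℕ → Λ) (N : ℕ∞) (lam : Ioc (0 : ℝ) 1),
  MBasis 𝕜 (EW 𝕜 L N lam) (fun s : NN Λ N => cw 𝕜 L N lam s.1) (esw 𝕜 L N lam)

/-- `WLO` [180].  USES WLM.  The characteristic of this M-basis (`lam` is written `λ`).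
PROOF.  As `LOW`.  `‖evw p‖ ≤ λ^(-|D_p|)`.  With `σ` the supremum for a unit vector `g`: for `p = (D, inl a)` and `p = (D, inr δ)`, `k = |D|`:
`λ^k ‖evw p g‖ ≤ BB λ k σ`, by induction on `D`.  `k = 0`, `p = ([], inl a)`: `evw p` is in `V` and has norm `≤ 1`.  Step, `D = δ :: D'`, `p = (D, inl a)`,
`y = (D', inr δ)`: `evw p - evw y` is in `V` (telescoping) with norm `≤ λ^(-k) + λ^(-(k-1))`, so
`λ^k ‖evw p g‖ ≤ λ^k ‖evw y g‖ + (1 + λ) σ ≤ λ BB λ (k-1) σ + (1 + λ) σ = BB λ k σ` (`BB λ k = 1 + λ + λ BB λ (k-1)`: `Finset.sum_range_succ'`).  `p = (D, inr δ)`: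
WLM.  `‖g p‖ = λ^k ‖evw p g‖ ≤ M σ`, so `1 = ‖g‖ ≤ M σ`.  `M ≥ BB λ 0 = 1 > 0`.  `cw ([], [])` has the value `1` at `([], inl [])`, so there are
unit vectors. -/
def SpecWLO : Prop := ∀ (𝕜 : Type) [RCLike 𝕜] (Λ : Type) (L : Λ → ℕ → Λ) (N : ℕ∞) (lam : Ioc (0 : ℝ) 1)
  (M : ℝ), (∀ k : ℕ, (k : ℕ∞) ≤ N → BB lam k ≤ M) → 1 / M ≤ charac 𝕜 (cspan 𝕜 (esw 𝕜 L N lam))

/-- the test vector: `1 + ∑ (λ^(-k) + λ^(-(k-1))) cw (c_k)`, `k = 1, ..., |D|` -/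
noncomputable def GW (𝕜 : Type) [RCLike 𝕜] {Λ : Type} (L : Λ → ℕ → Λ) (N : ℕ∞) (lam : Ioc (0 : ℝ) 1) :
    List Λ → EW 𝕜 L N lam
  | [] => cw 𝕜 L N lam ([], [])
  | δ :: D => GW 𝕜 L N lam D +
      ((((lam : ℝ) ^ (D.length + 1))⁻¹ + ((lam : ℝ) ^ D.length)⁻¹ : ℝ) : 𝕜) • cw 𝕜 L N lam (δ :: D, [])

/-- `WTS` [150].  USES CHN.  The test vector.  (`λ = lam`; the value of `g` at `p` divided by the weight `λ^|D_p|` is called its pure value; the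
pure value of `cw s` at `p` is `[On L s p]`.)
PROOF.  Norm: at the point `(D, inl [])`, `n = |D|`, the pure value of `GW D` is `1 + ∑_{k=1}^n (λ^(-k) + λ^(-(k-1)))`, so the value is
`λ^n + ∑_{k=1}^n (λ^(n-k) + λ^(n-k+1)) = BB λ n` (by induction on `D`: at every point `p` with `On L (D, []) p` the pure value is `λ^(-n) BB λ n`, as
`λ^(-(n+1)) BB λ (n+1) = λ^(-n) BB λ n + λ^(-(n+1)) + λ^(-n)`: `BB λ (n+1) = 1 + λ + λ BB λ n`).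
Second part: induction on `D` with the statement: there is `R` with `ψ R = ψ (GW D)` such that at every point `p` the pure value of `R` has absolute
value `≤ λ^(-|D_p|)`, and is equal to `λ^(-|D|)` if `On L (D, []) p`.  `D = []`: `R = cw ([], [])` (`1 ≤ λ^(-|D_p|)`).  Step: `k = |D|`,
`R' = R - 2 λ^(-k) cw (D, lad L δ i) + (λ^(-(k+1)) + λ^(-k)) cw (δ :: D, [])`.  If `On L (D, lad L δ i) p` then `On L (D, []) p`, so `|D_p| ≥ k` (`D` is a suffix of `D_p`)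
and the pure value of `R` is `λ^(-k)`; that of `R'` is `-λ^(-k)` (fine) or, if `On L (δ :: D, []) p` (then `|D_p| ≥ k + 1`),
`-λ^(-k) + λ^(-(k+1)) + λ^(-k) = λ^(-(k+1))` (fine).  Otherwise `¬ On L (δ :: D, []) p` and nothing changes.  So `‖R‖ ≤ 1`. -/
def SpecWTS : Prop := ∀ (𝕜 : Type) [RCLike 𝕜] (Λ : Type) (L : Λ → ℕ → Λ) (N : ℕ∞) (lam : Ioc (0 : ℝ) 1)
  (D : List Λ), (((D.length : ℕ) : ℕ∞) ≤ N → BB lam D.length ≤ ‖GW 𝕜 L N lam D‖) ∧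
  ∀ ψ : EW 𝕜 L N lam →L[𝕜] 𝕜, (∀ (δ : Λ) (D' : List Λ), (δ :: D') <:+ D →
    ∃ i : ℕ, ψ (cw 𝕜 L N lam (D', lad L δ i)) = 0) → ‖ψ (GW 𝕜 L N lam D)‖ ≤ ‖ψ‖

/-- `WUP` [120].  USES KIL, WPH, WTS.  PROOF.  As `UPP`: KIL for `J.comp Φ : ES → X` (`Φ` from WPH) gives `D` of length `n` with `φ (J (cw (D', lad L δ i))) = 0`;
the rest is the same with `GW D`, `BB lam n > 0`. -/
def SpecWUP : Prop := ∀ (𝕜 : Type) [RCLike 𝕜] (Λ : Type) [LinearOrder Λ] (L : Λ → ℕ → Λ) (N : ℕ∞)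
  (lam : Ioc (0 : ℝ) 1), Lad Λ L →
  ∀ (X : Type u) [NormedAddCommGroup X] [NormedSpace 𝕜 X] (J : EW 𝕜 L N lam →L[𝕜] X) (a : ℝ), 0 < a →
    (∀ e, a * ‖e‖ ≤ ‖J e‖) → ∀ (ι : Type v) (x : ι → X) (f : ι → (X →L[𝕜] 𝕜)), MBasis 𝕜 X x f →
  ∀ n : ℕ, ((n : ℕ) : ℕ∞) ≤ N → charac 𝕜 (cspan 𝕜 f) ≤ ‖J‖ / (a * BB lam n)

/-- `WNU` [80].  USES nothing.  Numbers.
PROOF.  `r = 0`: `N = ⊤`, `lam = 1`, `BB 1 n = 2 n + 1`, `M` anything (`0 < r` is false).  `0 < r < 1`: `N = ⊤`, `lam = (1 - r)/(1 + r)`;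
`BB lam n = 1 + 2 lam (1 - lam^n)/(1 - lam) → (1 + lam)/(1 - lam) = 1/r` and `BB lam n ≤ 1/r`.  `r = 1`: `N = 0`, `lam = 1`, `BB 1 0 = 1` (the
sequence `n = 0` constantly: `s n ≤ N` is needed only for the terms `s n` of the sequence). -/
def SpecWNU : Prop := ∀ r : ℝ, 0 ≤ r → r ≤ 1 → ∃ (N : ℕ∞) (lam : Ioc (0 : ℝ) 1) (s : ℕ → ℕ),
  (∀ n, (s n : ℕ∞) ≤ N) ∧ Tendsto (fun n => 1 / BB lam (s n)) atTop (𝓝 r) ∧
  (0 < r → ∀ k : ℕ, (k : ℕ∞) ≤ N → BB lam k ≤ 1 / r)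

/-- the theorem of part W -/
def GoalW : Prop := ∀ (𝕜 : Type) [RCLike 𝕜] (r : ℝ), 0 ≤ r → r ≤ 1 →
  ∃ (E : Type) (_ : NormedAddCommGroup E) (_ : NormedSpace 𝕜 E) (_ : CompleteSpace E),
    WCG 𝕜 E ∧ HG 𝕜 E ∧
    (∃ G : Set E, Cardinal.mk G ≤ Cardinal.aleph 1 ∧ (Submodule.span 𝕜 G).topologicalClosure = ⊤) ∧
    (∃ (ι : Type) (x : ι → E) (f : ι → (E →L[𝕜] 𝕜)), MBasis 𝕜 E x f ∧ charac 𝕜 (cspan 𝕜 f) = r) ∧
    (∀ (ι : Type v) (x : ι → E) (f : ι → (E →L[𝕜] 𝕜)), MBasis 𝕜 E x f → charac 𝕜 (cspan 𝕜 f) ≤ r) ∧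
    ∀ (X : Type u) (_ : NormedAddCommGroup X) (_ : NormedSpace 𝕜 X) (J : E →L[𝕜] X) (a : ℝ), 0 < a →
      (∀ e, a * ‖e‖ ≤ ‖J e‖) → ∀ (ι : Type v) (x : ι → X) (f : ι → (X →L[𝕜] 𝕜)),
      MBasis 𝕜 X x f → charac 𝕜 (cspan 𝕜 f) ≤ r * (‖J‖ / a)

/-- `WFN` [140].  USES LAM, WGN, WCR, WBS, WLO, `WUP.{u, v}`, `WUP.{0, v}`, `WUP.{0, 0}`, NNG, WNU: hypotheses
`(hLAM : SpecLAM) (hWGN : SpecWGN) (hWCR : SpecWCR) (hWBS : SpecWBS) (hWLO : SpecWLO) (hWUP : SpecWUP.{u, v})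
(h0v : SpecWUP.{0, v}) (h00 : SpecWUP.{0, 0}) (hNNG : SpecNNG.{0}) (hWNU : SpecWNU)`.
PROOF.  `Λ, L` from LAM, `N, lam, s` from WNU, `E = EW 𝕜 L N lam`.  `charac ≤ ‖J‖ / (a BB lam (s n)) = (‖J‖ / a) (1 / BB lam (s n)) → r ‖J‖ / a`
(`ge_of_tendsto'`).  `J = id`: `≤ r`.  M-basis: WBS, `charac ≥ r` by WLO (`M = 1/r`) if `r > 0`, by NNG if `r = 0`. -/
def SpecWFN : Prop := GoalW.{u, v}

end Pool.Agent.Lib.MP38dfb6
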