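import Pool.Agent.Lib.MP_38dfb6_an.NB.Spec

/-!
# MP_38dfb6_an, NB, module TST: the test vector
-/

set_option autoImplicit false

namespace Pool.Agent.Lib.MP38dfb6

open Filter Topology Set

universe u v

namespace TSTM

section

variable (𝕜 : Type) [RCLike 𝕜] {Λ : Type} (L : Λ → ℕ → Λ) (N : ℕ∞)

open Classical in
lemma ev_ch (p : PN Λ N) (s : Node Λ) :
    ev 𝕜 L N p (ch 𝕜 L N s) = if On L s p.1 then (1 : 𝕜) else 0 := rfl

lemma ev_pos {p : PN Λ N} {s : Node Λ} (h : On L s p.1) : ev 𝕜 L N p (ch 𝕜 L N s) = 1 := by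
  classical
  rw [ev_ch, if_pos h]

lemma ev_neg {p : PN Λ N} {s : Node Λ} (h : ¬ On L s p.1) : ev 𝕜 L N p (ch 𝕜 L N s) = 0 := by
  classical
  rw [ev_ch, if_neg h]

lemma ev_apply (p : PN Λ N) (g : ES 𝕜 L N) : ev 𝕜 L N p g = (g.1 : PN Λ N → 𝕜) p := rfl

lemma ev_le (p : PN Λ N) (g : ES 𝕜 L N) : ‖ev 𝕜 L N p g‖ ≤ ‖g‖ := by
  rw [ev_apply]
  exact lp.norm_apply_le_norm ENNReal.top_ne_zero g.1 p

lemma norm_le {g : ES 𝕜 L N} {C : ℝ} (hC : 0 ≤ C) (h : ∀ p : PN Λ N, ‖ev 𝕜 L N p g‖ ≤ C) :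
    ‖g‖ ≤ C := by
  have h1 : ‖g.1‖ ≤ C := lp.norm_le_of_forall_le hC (fun p => h p)
  exact h1

/-- The value of the test vector. -/
lemma ev_GG (hCHN : SpecCHN) (D : List Λ) (p : PN Λ N) (h : On L (D, []) p.1) :
    ev 𝕜 L N p (GG 𝕜 L N D) = 2 * (D.length : 𝕜) + 1 := by
  induction D with
  | nil =>
    show ev 𝕜 L N p (ch 𝕜 L N ([], [])) = _
    rw [ev_pos 𝕜 L N h]
    simp
  | cons δ D ih =>
    have h1 : On L (D, []) p.1 := (hCHN Λ L p.1).2.2 δ D 0 h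
    show ev 𝕜 L N p (GG 𝕜 L N D + (2 : 𝕜) • ch 𝕜 L N (δ :: D, [])) = _
    rw [map_add, map_smul, ih h1, ev_pos 𝕜 L N h, List.length_cons, smul_eq_mul]
    push_cast
    ring

/-- The modified vector. -/
lemma exists_R (hCHN : SpecCHN) (ψ : ES 𝕜 L N →L[𝕜] 𝕜) (D : List Λ)
    (h : ∀ (δ : Λ) (D' : List Λ), (δ :: D') <:+ D →
      ∃ i : ℕ, ψ (ch 𝕜 L N (D', lad L δ i)) = 0) :
    ∃ R : ES 𝕜 L N, ψ R = ψ (GG 𝕜 L N D) ∧ ∀ p : PN Λ N,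
      (ev 𝕜 L N p R = 1 ∨ ev 𝕜 L N p R = -1) ∧ (On L (D, []) p.1 → ev 𝕜 L N p R = 1) := by
  induction D with
  | nil =>
    refine ⟨ch 𝕜 L N ([], []), rfl, fun p => ?_⟩
    have h1 := ev_pos 𝕜 L N (hCHN Λ L p.1).1
    exact ⟨Or.inl h1, fun _ => h1⟩
  | cons δ D ih =>
    obtain ⟨R, hR, hv⟩ := ih (fun δ' D' hs => h δ' D' (hs.trans (List.suffix_cons δ D)))
    obtain ⟨i, hi⟩ := h δ D (List.suffix_refl _)
    refine ⟨R - (2 : 𝕜) • ch 𝕜 L N (D, lad L δ i) + (2 : 𝕜) • ch 𝕜 L N (δ :: D, []), ?_, ?_⟩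
    · show _ = ψ (GG 𝕜 L N D + (2 : 𝕜) • ch 𝕜 L N (δ :: D, []))
      rw [map_add, map_sub, map_add, map_smul, map_smul, hi, hR, smul_zero, sub_zero]
    · intro p
      have e : ev 𝕜 L N p (R - (2 : 𝕜) • ch 𝕜 L N (D, lad L δ i) +
          (2 : 𝕜) • ch 𝕜 L N (δ :: D, [])) = ev 𝕜 L N p R -
          2 * ev 𝕜 L N p (ch 𝕜 L N (D, lad L δ i)) +
          2 * ev 𝕜 L N p (ch 𝕜 L N (δ :: D, [])) := by
        rw [map_add, map_sub, map_smul, map_smul, smul_eq_mul, smul_eq_mul]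
      rw [e]
      by_cases h1 : On L (D, lad L δ i) p.1
      · have h2 : On L (D, []) p.1 := (hCHN Λ L p.1).2.1 (D, lad L δ i) h1
        rw [(hv p).2 h2, ev_pos 𝕜 L N h1]
        by_cases h3 : On L (δ :: D, []) p.1
        · rw [ev_pos 𝕜 L N h3]
          have h4 : (1 : 𝕜) - 2 * 1 + 2 * 1 = 1 := by ring
          exact ⟨Or.inl h4, fun _ => h4⟩
        · rw [ev_neg 𝕜 L N h3]
          have h4 : (1 : 𝕜) - 2 * 1 + 2 * 0 = -1 := by ring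
          exact ⟨Or.inr h4, fun h5 => absurd h5 h3⟩
      · have h3 : ¬ On L (δ :: D, []) p.1 := fun h5 => h1 ((hCHN Λ L p.1).2.2 δ D i h5)
        rw [ev_neg 𝕜 L N h1, ev_neg 𝕜 L N h3]
        have h4 : ev 𝕜 L N p R - 2 * 0 + 2 * 0 = ev 𝕜 L N p R := by ring
        rw [h4]
        exact ⟨(hv p).1, fun h5 => absurd h5 h3⟩

end

end TSTM

open TSTM in
theorem specTST (hCHN : SpecCHN) : SpecTST := by
  intro 𝕜 _ Λ L N D
  constructor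
  · intro hD
    have hp : (lev ((D, Sum.inl []) : Pt Λ) : ℕ∞) ≤ N := hD
    have hOn : On L (D, []) ((D, Sum.inl []) : Pt Λ) := Or.inl ⟨rfl, List.suffix_refl _⟩
    have h1 := ev_GG 𝕜 L N hCHN D ⟨(D, Sum.inl []), hp⟩ hOn
    have h2 := ev_le 𝕜 L N ⟨(D, Sum.inl []), hp⟩ (GG 𝕜 L N D)
    rw [h1] at h2
    have h3 : ‖(2 * (D.length : 𝕜) + 1)‖ = 2 * (D.length : ℝ) + 1 := by
      have e : (2 * (D.length : 𝕜) + 1) = ((2 * D.length + 1 : ℕ) : 𝕜) := by push_cast; ring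
      rw [e, RCLike.norm_natCast]
      push_cast
      ring
    rw [h3] at h2
    exact h2
  · intro ψ h
    obtain ⟨R, hR, hv⟩ := exists_R 𝕜 L N hCHN ψ D h
    have hRn : ‖R‖ ≤ 1 := by
      apply norm_le 𝕜 L N zero_le_one
      intro p
      rcases (hv p).1 with h1 | h1
      · rw [h1, norm_one]
      · rw [h1, norm_neg, norm_one]
    rw [← hR]
    calc ‖ψ R‖ ≤ ‖ψ‖ * ‖R‖ := ψ.le_opNorm R
      _ ≤ ‖ψ‖ * 1 := mul_le_mul_of_nonneg_left hRn (ContinuousLinearMap.opNorm_nonneg ψ)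
      _ = ‖ψ‖ := mul_one _

end Pool.Agent.Lib.MP38dfb6
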