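import Pool.Agent.Lib.MP_38dfb6_an.NB.Spec

/-!
# Module UNQ: at most one node of every class on a path
-/

set_option autoImplicit false

namespace Pool.Agent.Lib.MP38dfb6

namespace UNQM

theorem suf_eq {α : Type} {a b c : List α} (ha : a <:+ c) (hb : b <:+ c)
    (h : a.length = b.length) : a = b :=
  (List.suffix_of_suffix_length_le ha hb h.le).eq_of_length h

theorem pre_eq {Λ : Type} {L : Λ → ℕ → Λ} {a a' : List Λ} {e : List Λ ⊕ Λ}
    (h : Pre L a e) (h' : Pre L a' e) (hl : a.length = a'.length) : a = a' := by
  cases e with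
  | inl b => exact suf_eq h h' hl
  | inr δ =>
    have h1 : a = lad L δ a.length := h
    have h2 : a' = lad L δ a'.length := h'
    exact h1.trans ((congrArg (lad L δ) hl).trans h2.symm)

end UNQM

open UNQM in
theorem specUNQ : SpecUNQ := by
  rintro Λ L ⟨D, a⟩ ⟨D', a'⟩ ⟨E, e⟩ h h' hD ha
  have hD : D.length = D'.length := hD
  have ha : a.length = a'.length := ha
  rcases h with ⟨h1, h2⟩ | ⟨δ, h1, h2⟩
  · have h1 : D = E := h1
    rcases h' with ⟨h1', h2'⟩ | ⟨δ', h1', h2'⟩
    · have h1' : D' = E := h1'
      have e1 : D = D' := h1.trans h1'.symm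
      have e2 : a = a' := pre_eq h2 h2' ha
      rw [e1, e2]
    · exfalso
      have h3 := h1'.length_le
      simp only [List.length_cons] at h3
      rw [← h1, hD] at h3
      omega
  · rcases h' with ⟨h1', h2'⟩ | ⟨δ', h1', h2'⟩
    · exfalso
      have h1' : D' = E := h1'
      have h3 := h1.length_le
      simp only [List.length_cons] at h3
      rw [← h1', ← hD] at h3
      omega
    · have e1 : δ :: D = δ' :: D' := suf_eq h1 h1' (by simp only [List.length_cons, hD])
      injection e1 with e3 e4
      subst e3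
      have e2 : a = a' := pre_eq h2 h2' ha
      rw [e4, e2]

end Pool.Agent.Lib.MP38dfb6
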