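import Pool.Agent.Lib.MP_38dfb6_an.NB.SpecW

/-!
# MP_38dfb6_an, module WBS (helper74): the M-basis of the weighted ladder tree spaces
-/

set_option autoImplicit false

namespace Pool.Agent.Lib.MP38dfb6

open Filter Topology Set

namespace WBSM

variable {𝕜 : Type} [RCLike 𝕜] {Λ : Type} {L : Λ → ℕ → Λ} {N : ℕ∞} {lam : Ioc (0 : ℝ) 1}

theorem evw_apply (p : PN Λ N) (g : EW 𝕜 L N lam) :
    evw 𝕜 L N lam p g = ((((lam : ℝ) ^ p.1.1.length : ℝ)) : 𝕜)⁻¹ * (g.1 : PN Λ N → 𝕜) p := rfl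

theorem wne (lam : Ioc (0 : ℝ) 1) (k : ℕ) : ((((lam : ℝ) ^ k : ℝ)) : 𝕜) ≠ 0 := by
  rw [ne_eq, RCLike.ofReal_eq_zero]
  exact (pow_pos lam.2.1 _).ne'

open Classical in
theorem ev_ch (p : PN Λ N) (t : Node Λ) :
    evw 𝕜 L N lam p (cw 𝕜 L N lam t) = if On L t p.1 then (1 : 𝕜) else 0 := by
  have h1 : evw 𝕜 L N lam p (cw 𝕜 L N lam t) = ((((lam : ℝ) ^ p.1.1.length : ℝ)) : 𝕜)⁻¹ *
      (if On L t p.1 then ((((lam : ℝ) ^ p.1.1.length : ℝ)) : 𝕜) else 0) := rfl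
  rw [h1]
  split_ifs with h
  · exact inv_mul_cancel₀ (wne lam _)
  · exact mul_zero _

theorem ev_ch_on (p : PN Λ N) (t : Node Λ) (h : On L t p.1) :
    evw 𝕜 L N lam p (cw 𝕜 L N lam t) = 1 := by
  rw [ev_ch, if_pos h]

theorem ev_ch_off (p : PN Λ N) (t : Node Λ) (h : ¬ On L t p.1) :
    evw 𝕜 L N lam p (cw 𝕜 L N lam t) = 0 := by
  rw [ev_ch, if_neg h]

/-- the value of the difference of two evaluations, when exactly one more node is on the path -/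
theorem diff_val (p q : PN Λ N) (s : Node Λ) (hiff : ∀ t, On L t p.1 ↔ t = s ∨ On L t q.1)
    (hn : ¬ On L s q.1) (t : Node Λ) :
    (s = t → (evw 𝕜 L N lam p - evw 𝕜 L N lam q) (cw 𝕜 L N lam t) = 1) ∧
    (s ≠ t → (evw 𝕜 L N lam p - evw 𝕜 L N lam q) (cw 𝕜 L N lam t) = 0) := by
  constructor
  · intro h
    subst h
    rw [_root_.sub_apply, ev_ch_on p s ((hiff s).2 (Or.inl rfl)), ev_ch_off q s hn,
      sub_zero]
  · intro h
    by_cases hq : On L t q.1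
    · rw [_root_.sub_apply, ev_ch_on p t ((hiff t).2 (Or.inr hq)), ev_ch_on q t hq,
        sub_self]
    · have hp : ¬ On L t p.1 := by
        intro hp
        rcases (hiff t).1 hp with h1 | h1
        · exact h h1.symm
        · exact hq h1
      rw [_root_.sub_apply, ev_ch_off p t hp, ev_ch_off q t hq, sub_self]

theorem es_val (hPRD : SpecPRD) (s : NN Λ N) (t : Node Λ) :
    (s.1 = t → esw 𝕜 L N lam s (cw 𝕜 L N lam t) = 1) ∧ (s.1 ≠ t → esw 𝕜 L N lam s (cw 𝕜 L N lam t) = 0) := by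
  rcases s with ⟨⟨D, _ | ⟨x, a⟩⟩, h⟩
  · rcases D with _ | ⟨δ, D⟩
    · have h5 : ∀ t, On L t ([], Sum.inl []) ↔ t = ([], []) := fun t => (hPRD Λ L t).2.2.2.2
      constructor
      · intro ht
        exact ev_ch_on _ _ ((h5 t).2 ht.symm)
      · intro ht
        exact ev_ch_off _ _ (fun hh => ht ((h5 t).1 hh).symm)
    · exact diff_val (𝕜 := 𝕜) ⟨(δ :: D, Sum.inl []), h⟩ ⟨(D, Sum.inr δ), h⟩ (δ :: D, [])
        (fun t => (hPRD Λ L t).2.2.1 δ D) ((hPRD Λ L t).2.2.2.1 δ D) t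
  · exact diff_val (𝕜 := 𝕜) ⟨(D, Sum.inl (x :: a)), h⟩ ⟨(D, Sum.inl a), h⟩ (D, x :: a)
      (fun t => (hPRD Λ L t).1 D x a) ((hPRD Λ L t).2.1 D x a) t

theorem vanish (hWLM : SpecWLM) (g : EW 𝕜 L N lam) (hg : ∀ s : NN Λ N, esw 𝕜 L N lam s g = 0)
    (D : List Λ) :
    (∀ (a : List Λ) (h : ((lev ((D, Sum.inl a) : Pt Λ) : ℕ) : ℕ∞) ≤ N),
      evw 𝕜 L N lam ⟨(D, Sum.inl a), h⟩ g = 0) ∧
    (∀ (δ : Λ) (h : ((lev ((D, Sum.inr δ) : Pt Λ) : ℕ) : ℕ∞) ≤ N),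
      evw 𝕜 L N lam ⟨(D, Sum.inr δ), h⟩ g = 0) := by
  induction D with
  | nil =>
    have key : ∀ (a : List Λ) (h : ((lev (([], Sum.inl a) : Pt Λ) : ℕ) : ℕ∞) ≤ N),
        evw 𝕜 L N lam ⟨([], Sum.inl a), h⟩ g = 0 := by
      intro a
      induction a with
      | nil => intro h; exact hg ⟨([], []), h⟩
      | cons x a ih =>
        intro h
        have h1 : evw 𝕜 L N lam ⟨([], Sum.inl (x :: a)), h⟩ g - evw 𝕜 L N lam ⟨([], Sum.inl a), h⟩ g = 0 :=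
          hg ⟨([], x :: a), h⟩
        rw [ih h, sub_zero] at h1
        exact h1
    refine ⟨key, fun δ h => ?_⟩
    have h0 : ((([] : List Λ).length : ℕ) : ℕ∞) ≤ N := by simp
    have hl := hWLM 𝕜 Λ L N lam g [] δ h h0
    have hc : (fun i => evw 𝕜 L N lam ⟨([], Sum.inl (lad L δ i)), h0⟩ g) = fun _ => (0 : 𝕜) := by
      funext i
      exact key _ _
    rw [hc] at hl
    exact (tendsto_nhds_unique hl tendsto_const_nhds)
  | cons δ' D ihD =>
    have key : ∀ (a : List Λ) (h : ((lev ((δ' :: D, Sum.inl a) : Pt Λ) : ℕ) : ℕ∞) ≤ N),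
        evw 𝕜 L N lam ⟨(δ' :: D, Sum.inl a), h⟩ g = 0 := by
      intro a
      induction a with
      | nil =>
        intro h
        have h1 : evw 𝕜 L N lam ⟨(δ' :: D, Sum.inl []), h⟩ g - evw 𝕜 L N lam ⟨(D, Sum.inr δ'), h⟩ g = 0 :=
          hg ⟨(δ' :: D, []), h⟩
        rw [ihD.2 δ' h, sub_zero] at h1
        exact h1
      | cons x a ih =>
        intro h
        have h1 : evw 𝕜 L N lam ⟨(δ' :: D, Sum.inl (x :: a)), h⟩ g
            - evw 𝕜 L N lam ⟨(δ' :: D, Sum.inl a), h⟩ g = 0 :=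
          hg ⟨(δ' :: D, x :: a), h⟩
        rw [ih h, sub_zero] at h1
        exact h1
    refine ⟨key, fun δ h => ?_⟩
    have h0 : (((δ' :: D).length : ℕ) : ℕ∞) ≤ N :=
      le_trans (by exact_mod_cast Nat.le_succ _) h
    have hl := hWLM 𝕜 Λ L N lam g (δ' :: D) δ h h0
    have hc : (fun i => evw 𝕜 L N lam ⟨(δ' :: D, Sum.inl (lad L δ i)), h0⟩ g) = fun _ => (0 : 𝕜) := by
      funext i
      exact key _ _
    rw [hc] at hl
    exact (tendsto_nhds_unique hl tendsto_const_nhds)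

end WBSM

open WBSM in
/-- **WBS.** The vectors `cw s` and the functionals `esw s` form an M-basis of `EW 𝕜 L N lam`. -/
theorem specWBS (hPRD : SpecPRD) (hWGN : SpecWGN) (hWLM : SpecWLM) : SpecWBS := by
  intro 𝕜 _ Λ L N lam
  refine ⟨fun s => (es_val hPRD s s.1).1 rfl, fun s t hst => (es_val hPRD s t.1).2 ?_,
    (hWGN 𝕜 Λ L N lam).2.2.2, fun g hg => ?_⟩
  · intro h
    exact hst (Subtype.ext h)
  · apply Subtype.ext
    apply lp.ext
    funext p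
    have key : evw 𝕜 L N lam p g = 0 := by
      rcases p with ⟨⟨D, a | δ⟩, h⟩
      · exact (vanish hWLM g hg D).1 a h
      · exact (vanish hWLM g hg D).2 δ h
    rw [evw_apply] at key
    rcases mul_eq_zero.1 key with h1 | h1
    · exact absurd h1 (inv_ne_zero (wne lam _))
    · exact h1

end Pool.Agent.Lib.MP38dfb6
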