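import Pool.Agent.Lib.MP_38dfb6_an.NB.Spec

set_option autoImplicit false

namespace Pool.Agent.Lib.MP38dfb6

open Filter Topology Set

universe u v

namespace WCGM

lemma weak_tendsto {𝕜 : Type} [RCLike 𝕜] {E : Type u} [NormedAddCommGroup E] [NormedSpace 𝕜 E]
    {α : Type v} (l : Filter α) (y : α → E)
    (h : ∀ ψ : E →L[𝕜] 𝕜, Tendsto (fun t => ψ (y t)) l (𝓝 0)) :
    Tendsto (fun t => toWeakSpace 𝕜 E (y t)) l (𝓝 (0 : WeakSpace 𝕜 E)) := by
  have hind : Topology.IsInducing (fun (x : WeakSpace 𝕜 E) (ψ : E →L[𝕜] 𝕜) =>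
      (topDualPairing 𝕜 E).flip x ψ) := ⟨rfl⟩
  rw [hind.tendsto_nhds_iff, tendsto_pi_nhds]
  intro ψ
  have e0 : (topDualPairing 𝕜 E).flip (0 : WeakSpace 𝕜 E) ψ = 0 := by
    show ψ 0 = 0
    exact map_zero ψ
  rw [e0]
  exact h ψ

end WCGM

open WCGM in
theorem specWCG (hCNT : SpecCNT) (hGEN : SpecGEN) : SpecWCG := by
  intro 𝕜 _ Λ L N
  let y : Node Λ → ES 𝕜 L N := fun t => ((1 / 2 : 𝕜) ^ (t.1.length + t.2.length)) • ch 𝕜 L N t
  refine ⟨insert 0 (range y), ?_, ?_⟩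
  · rw [image_insert_eq, ← range_comp, map_zero]
    refine Filter.Tendsto.isCompact_insert_range_of_cofinite ?_
    refine weak_tendsto cofinite y fun ψ => ?_
    rw [Metric.tendsto_nhds]
    intro ε hε
    rw [eventually_cofinite]
    refine ((hCNT 𝕜 Λ L N ψ).2 ε hε).subset ?_
    intro t ht
    have h1 : ¬ dist (ψ (y t)) 0 < ε := ht
    rw [dist_zero_right, not_lt] at h1
    exact h1
  · have h1 : Submodule.span 𝕜 (range (ch 𝕜 L N)) ≤ Submodule.span 𝕜 (insert 0 (range y)) := by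
      rw [Submodule.span_le]
      rintro _ ⟨t, rfl⟩
      have h2 : y t ∈ Submodule.span 𝕜 (insert 0 (range y)) :=
        Submodule.subset_span (Or.inr ⟨t, rfl⟩)
      have h3 := Submodule.smul_mem _ ((2 : 𝕜) ^ (t.1.length + t.2.length)) h2
      have e : ((2 : 𝕜) ^ (t.1.length + t.2.length)) • y t = ch 𝕜 L N t := by
        show ((2 : 𝕜) ^ (t.1.length + t.2.length)) •
          (((1 / 2 : 𝕜) ^ (t.1.length + t.2.length)) • ch 𝕜 L N t) = _
        rw [smul_smul, ← mul_pow, mul_one_div_cancel (two_ne_zero), one_pow, one_smul]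
      rw [e] at h3
      exact h3
    have h4 := Submodule.topologicalClosure_mono h1
    rw [(hGEN 𝕜 Λ L N).1] at h4
    exact top_le_iff.1 h4

end Pool.Agent.Lib.MP38dfb6
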