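import Pool.Agent.Lib.MP_38dfb6_an.NB.SpecW

/-!
# MP_38dfb6_an: module WFN

The theorem of part W from the modules.
-/

set_option autoImplicit false

namespace Pool.Agent.Lib.MP38dfb6

open Filter Topology Set

universe u v

namespace WFNM

theorem lim_le (c K a r : ℝ) (b : ℕ → ℝ) (hb : Tendsto (fun n => 1 / b n) atTop (𝓝 r))
    (h : ∀ n : ℕ, c ≤ K / (a * b n)) : c ≤ r * (K / a) := by
  have h1 : Tendsto (fun n => 1 / b n * (K / a)) atTop (𝓝 (r * (K / a))) := hb.mul_const _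
  refine ge_of_tendsto' h1 fun n => ?_
  have h2 : 1 / b n * (K / a) = K / (a * b n) := by
    rw [div_mul_div_comm, one_mul, mul_comm (b n) a]
  rw [h2]
  exact h n

theorem id_le (𝕜 : Type) [RCLike 𝕜] (E : Type u) [NormedAddCommGroup E] [NormedSpace 𝕜 E]
    (c r : ℝ) (hr : 0 ≤ r) (h : c ≤ r * (‖ContinuousLinearMap.id 𝕜 E‖ / 1)) : c ≤ r := by
  refine h.trans ?_
  rw [div_one]
  exact mul_le_of_le_one_right hr ContinuousLinearMap.norm_id_le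

end WFNM

/-- **WFN**. -/
theorem specWFN (hLAM : SpecLAM) (hWGN : SpecWGN) (hWCR : SpecWCR) (hWBS : SpecWBS)
    (hWLO : SpecWLO) (hWUP : SpecWUP.{u, v}) (h0v : SpecWUP.{0, v}) (h00 : SpecWUP.{0, 0})
    (hNNG : SpecNNG.{0}) (hWNU : SpecWNU) : SpecWFN.{u, v} := by
  intro 𝕜 _ r hr0 hr1
  obtain ⟨Λ, _, L, hL, hcard⟩ := hLAM
  obtain ⟨N, lam, s, hs, hlim, hM⟩ := hWNU r hr0 hr1
  refine ⟨EW 𝕜 L N lam, inferInstance, inferInstance, inferInstance, (hWGN 𝕜 Λ L N lam).1,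
    (hWGN 𝕜 Λ L N lam).2.1, hWCR 𝕜 Λ L N lam hcard, ?_, ?_, ?_⟩
  · refine ⟨NN Λ N, _, _, hWBS 𝕜 Λ L N lam, ?_⟩
    refine le_antisymm ?_ ?_
    · refine WFNM.id_le 𝕜 (EW 𝕜 L N lam) _ r hr0 ?_
      refine WFNM.lim_le _ _ 1 r (fun n => BB lam (s n)) hlim fun n => ?_
      exact h00 𝕜 Λ L N lam hL (EW 𝕜 L N lam) (ContinuousLinearMap.id 𝕜 (EW 𝕜 L N lam)) 1 one_pos
        (fun e => by rw [one_mul]; exact le_refl _) _ _ _ (hWBS 𝕜 Λ L N lam) (s n) (hs n)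
    · rcases hr0.eq_or_lt with h0 | h0
      · rw [← h0]
        exact hNNG 𝕜 _ _
      · have h1 := hWLO 𝕜 Λ L N lam (1 / r) (hM h0)
        rw [one_div_one_div] at h1
        exact h1
  · intro ι x f hB
    refine WFNM.id_le 𝕜 (EW 𝕜 L N lam) _ r hr0 ?_
    refine WFNM.lim_le _ _ 1 r (fun n => BB lam (s n)) hlim fun n => ?_
    exact h0v 𝕜 Λ L N lam hL (EW 𝕜 L N lam) (ContinuousLinearMap.id 𝕜 (EW 𝕜 L N lam)) 1 one_pos
      (fun e => by rw [one_mul]; exact le_refl _) ι x f hB (s n) (hs n)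
  · intro X _ _ J a ha hJ ι x f hB
    refine WFNM.lim_le _ _ a r (fun n => BB lam (s n)) hlim fun n => ?_
    exact hWUP 𝕜 Λ L N lam hL X J a ha hJ ι x f hB (s n) (hs n)

end Pool.Agent.Lib.MP38dfb6
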