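import Pool.Agent.Lib.MP_38dfb6_an.NB.SpecW

/-!
# MP_38dfb6_an: module WGN (the weighted space is generated by the weighted indicators)
-/

set_option autoImplicit false

namespace Pool.Agent.Lib.MP38dfb6

open Filter Topology Set

universe u v

namespace WGNM

theorem dense_image {𝕜 : Type} [RCLike 𝕜] {E : Type u} {F : Type v} [NormedAddCommGroup E]
    [NormedSpace 𝕜 E] [NormedAddCommGroup F] [NormedSpace 𝕜 F] {Φ : E →L[𝕜] F}
    (hd : DenseRange Φ) {A : Set E} (hA : (Submodule.span 𝕜 A).topologicalClosure = ⊤) :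
    (Submodule.span 𝕜 (Φ '' A)).topologicalClosure = ⊤ := by
  have h1 := hd.topologicalClosure_map_submodule hA
  rw [Submodule.map_span] at h1
  exact h1

theorem compact_image {𝕜 : Type} [RCLike 𝕜] {E : Type u} {F : Type v} [NormedAddCommGroup E]
    [NormedSpace 𝕜 E] [NormedAddCommGroup F] [NormedSpace 𝕜 F] (Φ : E →L[𝕜] F)
    {A : Set E} (hA : IsCompact (toWeakSpace 𝕜 E '' A)) :
    IsCompact (toWeakSpace 𝕜 F '' (Φ '' A)) := by
  have h1 := hA.image (WeakSpace.map Φ).continuous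
  rw [image_image] at h1 ⊢
  exact h1

end WGNM

open WGNM in
theorem specWGN (hWPH : SpecWPH) (hGEN : SpecGEN) (hWCG : SpecWCG) (hHIL : SpecHIL) : SpecWGN := by
  intro 𝕜 _ Λ L N lam
  obtain ⟨Φ, hΦ, hd⟩ := hWPH 𝕜 Λ L N lam
  refine ⟨?_, ?_, ?_, ?_⟩
  · obtain ⟨K, hK, hK'⟩ := hWCG 𝕜 Λ L N
    exact ⟨Φ '' K, compact_image Φ hK, dense_image hd hK'⟩
  · obtain ⟨H, i1, i2, i3, T, hT⟩ := hHIL 𝕜 Λ L N
    exact ⟨H, i1, i2, i3, Φ.comp T, hd.comp hT Φ.continuous⟩
  · have h1 := dense_image hd (hGEN 𝕜 Λ L N).1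
    have h2 : Φ '' range (ch 𝕜 L N) = range (cw 𝕜 L N lam) := by
      rw [← range_comp]
      congr 1
      funext s
      exact hΦ s
    rwa [h2] at h1
  · have h1 := dense_image hd (hGEN 𝕜 Λ L N).2
    have h2 : Φ '' range (fun s : NN Λ N => ch 𝕜 L N s.1)
        = range (fun s : NN Λ N => cw 𝕜 L N lam s.1) := by
      rw [← range_comp]
      congr 1
      funext s
      exact hΦ s.1
    rwa [h2] at h1

end Pool.Agent.Lib.MP38dfb6
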