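import Pool.Agent.Lib.MP_38dfb6_an.NB.SpecW

/-!
# MP_38dfb6_an, module WLO: the lower bound of the characteristic in the weighted space
-/

set_option autoImplicit false

namespace Pool.Agent.Lib.MP38dfb6

open Filter Topology Set

namespace WLOM

/-- the supremum at a unit vector -/
noncomputable def sg {𝕜 : Type} [RCLike 𝕜] {E : Type} [NormedAddCommGroup E] [NormedSpace 𝕜 E]
    (V : Submodule 𝕜 (E →L[𝕜] 𝕜)) (g : E) : ℝ :=
  ⨆ f : {f : E →L[𝕜] 𝕜 // f ∈ V ∧ ‖f‖ ≤ 1}, ‖f.1 g‖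

theorem sg_le {𝕜 : Type} [RCLike 𝕜] {E : Type} [NormedAddCommGroup E] [NormedSpace 𝕜 E]
    (V : Submodule 𝕜 (E →L[𝕜] 𝕜)) (g : E) (v : E →L[𝕜] 𝕜) (hv : v ∈ V)
    (hv1 : ‖v‖ ≤ 1) : ‖v g‖ ≤ sg V g := by
  have hbdd : BddAbove (range fun f : {f : E →L[𝕜] 𝕜 // f ∈ V ∧ ‖f‖ ≤ 1} => ‖f.1 g‖) := by
    refine ⟨‖g‖, ?_⟩
    rintro _ ⟨f, rfl⟩
    refine (f.1.le_opNorm g).trans ?_
    exact mul_le_of_le_one_left (norm_nonneg g) f.2.2
  exact le_ciSup hbdd ⟨v, hv, hv1⟩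

theorem sg_nonneg {𝕜 : Type} [RCLike 𝕜] {E : Type} [NormedAddCommGroup E] [NormedSpace 𝕜 E]
    (V : Submodule 𝕜 (E →L[𝕜] 𝕜)) (g : E) : 0 ≤ sg V g := by
  refine (norm_nonneg _).trans (sg_le V g 0 (Submodule.zero_mem _) ?_)
  rw [norm_zero]
  exact zero_le_one

theorem sg_c {𝕜 : Type} [RCLike 𝕜] {E : Type} [NormedAddCommGroup E] [NormedSpace 𝕜 E]
    (V : Submodule 𝕜 (E →L[𝕜] 𝕜)) (g : E) (v : E →L[𝕜] 𝕜) (hv : v ∈ V) (c : ℝ) (hc : 0 < c)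
    (hv1 : ‖v‖ ≤ c) : ‖v g‖ ≤ c * sg V g := by
  have hn : ‖((c : 𝕜))⁻¹‖ = c⁻¹ := by
    rw [norm_inv, RCLike.norm_ofReal, abs_of_pos hc]
  have h1 := sg_le V g ((c : 𝕜)⁻¹ • v) (Submodule.smul_mem _ _ hv) (by
    rw [norm_smul, hn, inv_mul_le_iff₀ hc, mul_one]
    exact hv1)
  have h2 : ((c : 𝕜)⁻¹ • v) g = (c : 𝕜)⁻¹ * v g := rfl
  rw [h2, norm_mul, hn, inv_mul_le_iff₀ hc] at h1
  exact h1

theorem sg_two {𝕜 : Type} [RCLike 𝕜] {E : Type} [NormedAddCommGroup E] [NormedSpace 𝕜 E]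
    (V : Submodule 𝕜 (E →L[𝕜] 𝕜)) (g : E) (v w : E →L[𝕜] 𝕜) (hv : v - w ∈ V) (c d : ℝ)
    (hc : 0 < c + d) (hv1 : ‖v‖ ≤ c) (hw1 : ‖w‖ ≤ d) : ‖v g‖ ≤ ‖w g‖ + (c + d) * sg V g := by
  have h0 : ‖v - w‖ ≤ c + d := (norm_sub_le v w).trans (add_le_add hv1 hw1)
  have h1 := sg_c V g (v - w) hv (c + d) hc h0
  have h2 : (v - w) g = v g - w g := rfl
  rw [h2] at h1
  have h3 := norm_le_norm_sub_add (v g) (w g)
  linarith

theorem BB_succ (lam : ℝ) (k : ℕ) : BB lam (k + 1) = 1 + lam + lam * BB lam k := by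
  unfold BB
  rw [Finset.sum_range_succ']
  have h1 : ∑ i ∈ Finset.range k, lam ^ (i + 1 + 1) =
      lam * ∑ i ∈ Finset.range k, lam ^ (i + 1) := by
    rw [Finset.mul_sum]
    exact Finset.sum_congr rfl fun i _ => by ring
  rw [h1]
  ring

theorem BB_zero (lam : ℝ) : BB lam 0 = 1 := by
  unfold BB
  simp

variable {𝕜 : Type} [RCLike 𝕜] {Λ : Type} (L : Λ → ℕ → Λ) (N : ℕ∞) (lam : Ioc (0 : ℝ) 1)

theorem w_pos (k : ℕ) : 0 < (lam : ℝ) ^ k := pow_pos lam.2.1 k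

theorem norm_w (k : ℕ) : ‖((((lam : ℝ) ^ k : ℝ)) : 𝕜)‖ = (lam : ℝ) ^ k := by
  rw [RCLike.norm_ofReal, abs_of_pos (w_pos lam k)]

theorem evw_norm (p : PN Λ N) : ‖evw 𝕜 L N lam p‖ ≤ ((lam : ℝ) ^ p.1.1.length)⁻¹ := by
  refine ContinuousLinearMap.opNorm_le_bound _ (inv_nonneg.2 (w_pos lam _).le) fun g => ?_
  have h1 : evw 𝕜 L N lam p g =
      ((((lam : ℝ) ^ p.1.1.length : ℝ)) : 𝕜)⁻¹ * (g.1 : PN Λ N → 𝕜) p := rfl
  have h2 : ‖(g.1 : PN Λ N → 𝕜) p‖ ≤ ‖g‖ := lp.norm_apply_le_norm ENNReal.top_ne_zero g.1 p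
  rw [h1, norm_mul, norm_inv, norm_w]
  exact mul_le_mul_of_nonneg_left h2 (inv_nonneg.2 (w_pos lam _).le)

theorem evw_apply (p : PN Λ N) (g : EW 𝕜 L N lam) :
    ‖(g.1 : PN Λ N → 𝕜) p‖ = (lam : ℝ) ^ p.1.1.length * ‖evw 𝕜 L N lam p g‖ := by
  have h1 : evw 𝕜 L N lam p g =
      ((((lam : ℝ) ^ p.1.1.length : ℝ)) : 𝕜)⁻¹ * (g.1 : PN Λ N → 𝕜) p := rfl
  rw [h1, norm_mul, norm_inv, norm_w, mul_inv_cancel_left₀ (w_pos lam _).ne']

theorem norm_cw : ‖cw 𝕜 L N lam ([], [])‖ = 1 := by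
  classical
  have h0 : (lev (([], Sum.inl []) : Pt Λ) : ℕ∞) ≤ N := by
    show ((0 : ℕ) : ℕ∞) ≤ N
    simp
  apply le_antisymm
  · refine lp.norm_le_of_forall_le zero_le_one fun p => ?_
    show ‖(if On L ([], []) p.1 then ((((lam : ℝ) ^ p.1.1.length : ℝ)) : 𝕜) else 0)‖ ≤ 1
    split_ifs
    · rw [norm_w]
      exact pow_le_one₀ lam.2.1.le lam.2.2
    · simp
  · have h1 := lp.norm_apply_le_norm ENNReal.top_ne_zero (chw 𝕜 L N lam ([], []))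
      ⟨([], Sum.inl []), h0⟩
    have h2 : On L (([], []) : Node Λ) (([], Sum.inl []) : Pt Λ) :=
      Or.inl ⟨rfl, List.suffix_refl _⟩
    have h3 : (chw 𝕜 L N lam ([], []) : PN Λ N → 𝕜) ⟨([], Sum.inl []), h0⟩ = 1 := by
      show (if On L (([], []) : Node Λ) (([], Sum.inl []) : Pt Λ) then
        ((((lam : ℝ) ^ ([] : List Λ).length : ℝ)) : 𝕜) else 0) = 1
      rw [if_pos h2, List.length_nil, pow_zero]
      simp
    rw [h3, norm_one] at h1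
    exact h1

theorem mem1 (a : List Λ) (h : (lev (([], Sum.inl a) : Pt Λ) : ℕ∞) ≤ N) :
    evw 𝕜 L N lam ⟨([], Sum.inl a), h⟩ ∈ Submodule.span 𝕜 (range (esw 𝕜 L N lam)) := by
  induction a with
  | nil => exact Submodule.subset_span ⟨⟨([], []), h⟩, rfl⟩
  | cons x a ih =>
    have h1 : esw 𝕜 L N lam ⟨([], x :: a), h⟩ ∈ Submodule.span 𝕜 (range (esw 𝕜 L N lam)) :=
      Submodule.subset_span ⟨_, rfl⟩
    have h2 := Submodule.add_mem _ h1 (ih h)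
    have h3 : esw 𝕜 L N lam ⟨([], x :: a), h⟩ + evw 𝕜 L N lam ⟨([], Sum.inl a), h⟩ =
        evw 𝕜 L N lam ⟨([], Sum.inl (x :: a)), h⟩ := sub_add_cancel _ _
    rw [h3] at h2
    exact h2

theorem mem2 (δ : Λ) (D : List Λ) (a : List Λ)
    (h : (lev ((δ :: D, Sum.inl a) : Pt Λ) : ℕ∞) ≤ N)
    (h' : (lev ((D, Sum.inr δ) : Pt Λ) : ℕ∞) ≤ N) :
    evw 𝕜 L N lam ⟨(δ :: D, Sum.inl a), h⟩ - evw 𝕜 L N lam ⟨(D, Sum.inr δ), h'⟩ ∈
      Submodule.span 𝕜 (range (esw 𝕜 L N lam)) := by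
  induction a with
  | nil => exact Submodule.subset_span ⟨⟨(δ :: D, []), h⟩, rfl⟩
  | cons x a ih =>
    have h1 : esw 𝕜 L N lam ⟨(δ :: D, x :: a), h⟩ ∈ Submodule.span 𝕜 (range (esw 𝕜 L N lam)) :=
      Submodule.subset_span ⟨_, rfl⟩
    have h2 := Submodule.add_mem _ h1 (ih h)
    have h3 : esw 𝕜 L N lam ⟨(δ :: D, x :: a), h⟩ +
        (evw 𝕜 L N lam ⟨(δ :: D, Sum.inl a), h⟩ - evw 𝕜 L N lam ⟨(D, Sum.inr δ), h'⟩) =
        evw 𝕜 L N lam ⟨(δ :: D, Sum.inl (x :: a)), h⟩ - evw 𝕜 L N lam ⟨(D, Sum.inr δ), h'⟩ := by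
      show evw 𝕜 L N lam ⟨(δ :: D, Sum.inl (x :: a)), h⟩ -
        evw 𝕜 L N lam ⟨(δ :: D, Sum.inl a), h⟩ + _ = _
      abel
    rw [h3] at h2
    exact h2

end WLOM

open WLOM in
theorem specWLO (hWLM : SpecWLM) : SpecWLO := by
  intro 𝕜 _ Λ L N lam M hM
  set V := cspan 𝕜 (esw 𝕜 L N lam) with hV
  have hsub : ∀ v ∈ Submodule.span 𝕜 (range (esw 𝕜 L N lam)), v ∈ V := fun v hv =>
    Submodule.le_topologicalClosure _ hv
  have hne : Nonempty {x : EW 𝕜 L N lam // ‖x‖ = 1} := ⟨⟨_, norm_cw L N lam⟩⟩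
  refine le_ciInf fun g => ?_
  obtain ⟨g, hg⟩ := g
  show 1 / M ≤ sg V g
  set σ := sg V g with hσ
  have hσ0 : 0 ≤ σ := sg_nonneg V g
  have hlam0 : 0 < (lam : ℝ) := lam.2.1
  have hMpos : 0 < M := by
    have h1 := hM 0 (by simp)
    rw [BB_zero] at h1
    linarith
  -- the induction
  have hlim : ∀ (D : List Λ) (C : ℝ),
      (∀ (a : List Λ) (h : (lev ((D, Sum.inl a) : Pt Λ) : ℕ∞) ≤ N),
        ‖evw 𝕜 L N lam ⟨(D, Sum.inl a), h⟩ g‖ ≤ C) →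
      ∀ (δ : Λ) (h : (lev ((D, Sum.inr δ) : Pt Λ) : ℕ∞) ≤ N),
        ‖evw 𝕜 L N lam ⟨(D, Sum.inr δ), h⟩ g‖ ≤ C := by
    intro D C hC δ h
    have h' : ((D.length : ℕ) : ℕ∞) ≤ N := by
      refine le_trans ?_ h
      show ((D.length : ℕ) : ℕ∞) ≤ ((D.length + 1 : ℕ) : ℕ∞)
      exact_mod_cast Nat.le_succ _
    have h1 := (hWLM 𝕜 Λ L N lam g D δ h h').norm
    exact le_of_tendsto h1 (Eventually.of_forall fun i => hC _ _)
  have main : ∀ D : List Λ,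
      ∀ (a : List Λ) (h : (lev ((D, Sum.inl a) : Pt Λ) : ℕ∞) ≤ N),
        ‖evw 𝕜 L N lam ⟨(D, Sum.inl a), h⟩ g‖ ≤
          ((lam : ℝ) ^ D.length)⁻¹ * (BB lam D.length * σ) := by
    intro D
    induction D with
    | nil =>
      intro a h
      have hn := evw_norm (𝕜 := 𝕜) L N lam ⟨([], Sum.inl a), h⟩
      have h1 := sg_c V g _ (hsub _ (mem1 L N lam a h)) 1 zero_lt_one (by
        refine hn.trans (le_of_eq ?_)
        show ((lam : ℝ) ^ ([] : List Λ).length)⁻¹ = 1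
        simp)
      rw [List.length_nil, pow_zero, inv_one, BB_zero]
      exact h1.trans (le_of_eq (by rw [hσ]; ring))
    | cons δ D ih =>
      intro a h
      have h' : (lev ((D, Sum.inr δ) : Pt Λ) : ℕ∞) ≤ N := h
      have h1 := hlim D _ ih δ h'
      have n1 : ‖evw 𝕜 L N lam ⟨(δ :: D, Sum.inl a), h⟩‖ ≤ ((lam : ℝ) ^ (D.length + 1))⁻¹ :=
        evw_norm L N lam _
      have n2 : ‖evw 𝕜 L N lam ⟨(D, Sum.inr δ), h'⟩‖ ≤ ((lam : ℝ) ^ D.length)⁻¹ :=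
        evw_norm L N lam _
      have hp1 := w_pos lam (D.length + 1)
      have hp0 := w_pos lam D.length
      have h2 := sg_two V g _ _ (hsub _ (mem2 L N lam δ D a h h'))
        (((lam : ℝ) ^ (D.length + 1))⁻¹) (((lam : ℝ) ^ D.length)⁻¹) (by positivity) n1 n2
      rw [List.length_cons]
      have h5 : ((lam : ℝ) ^ (D.length + 1))⁻¹ * (BB lam (D.length + 1) * σ) =
          (((lam : ℝ) ^ (D.length + 1))⁻¹ + ((lam : ℝ) ^ D.length)⁻¹) * σ +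
            ((lam : ℝ) ^ D.length)⁻¹ * (BB lam D.length * σ) := by
        rw [BB_succ, pow_succ]
        have hl := hlam0.ne'
        field_simp
      rw [h5]
      linarith
  have hall : ∀ p : PN Λ N, ‖(g.1 : PN Λ N → 𝕜) p‖ ≤ M * σ := by
    rintro ⟨⟨D, e⟩, h⟩
    have hlen : ((D.length : ℕ) : ℕ∞) ≤ N := by
      refine le_trans ?_ h
      cases e with
      | inl a => exact le_rfl
      | inr δ =>
        show ((D.length : ℕ) : ℕ∞) ≤ ((D.length + 1 : ℕ) : ℕ∞)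
        exact_mod_cast Nat.le_succ _
    have h2 : ‖evw 𝕜 L N lam ⟨(D, e), h⟩ g‖ ≤
        ((lam : ℝ) ^ D.length)⁻¹ * (BB lam D.length * σ) := by
      cases e with
      | inl a => exact main D a h
      | inr δ => exact hlim D _ (main D) δ h
    refine (evw_apply L N lam ⟨(D, e), h⟩ g).le.trans ?_
    have hp0 := w_pos lam D.length
    have h3 := mul_le_mul_of_nonneg_left h2 hp0.le
    rw [mul_inv_cancel_left₀ hp0.ne'] at h3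
    exact h3.trans (mul_le_mul_of_nonneg_right (hM _ hlen) hσ0)
  have hfin : ‖g‖ ≤ M * σ :=
    lp.norm_le_of_forall_le (by positivity) hall
  rw [hg] at hfin
  rw [div_le_iff₀ hMpos]
  linarith

end Pool.Agent.Lib.MP38dfb6
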