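import Pool.Agent.Lib.MP_38dfb6_an.NB.SpecW

/-!
# MP_38dfb6_an, module WNU: the numbers
-/

set_option autoImplicit false

namespace Pool.Agent.Lib.MP38dfb6

open Filter Topology Set

namespace WNUM

theorem BB_zero (lam : ℝ) : BB lam 0 = 1 := by
  unfold BB
  rw [Finset.sum_range_zero, mul_zero, add_zero]

theorem BB_succ (lam : ℝ) (n : ℕ) : BB lam (n + 1) = BB lam n + 2 * lam ^ (n + 1) := by
  unfold BB
  rw [Finset.sum_range_succ]
  ring

theorem BB_one (n : ℕ) : BB 1 n = 2 * (n : ℝ) + 1 := by
  unfold BB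
  simp only [one_pow, Finset.sum_const, Finset.card_range, nsmul_eq_mul, mul_one]
  ring

theorem BB_eq {r lam : ℝ} (hr : 0 < r) (h : (1 - r) * (1 - lam) = 2 * r * lam) (n : ℕ) :
    BB lam n = (1 - (1 - r) * lam ^ n) / r := by
  induction n with
  | zero =>
    rw [BB_zero, pow_zero, eq_div_iff hr.ne']
    ring
  | succ n ih =>
    rw [BB_succ, ih, eq_div_iff hr.ne', add_mul, div_mul_cancel₀ _ hr.ne']
    have h2 : ((1 - r) * (1 - lam)) * lam ^ n = (2 * r * lam) * lam ^ n := by rw [h]
    rw [pow_succ]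
    linear_combination -h2

end WNUM

theorem specWNU : SpecWNU := by
  intro r h0 h1
  rcases eq_or_lt_of_le h0 with hr | hr
  · refine ⟨⊤, ⟨1, one_pos, le_rfl⟩, fun n => n, fun n => le_top, ?_, fun h => ?_⟩
    · show Tendsto (fun n : ℕ => 1 / BB 1 n) atTop (𝓝 r)
      rw [← hr]
      simp only [WNUM.BB_one]
      have h2 : Tendsto (fun n : ℕ => 2 * (n : ℝ) + 1) atTop atTop :=
        tendsto_atTop_add_const_right _ _
          ((tendsto_natCast_atTop_atTop (R := ℝ)).const_mul_atTop two_pos)
      simp only [one_div]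
      exact h2.inv_tendsto_atTop
    · exact absurd hr h.ne
  · rcases eq_or_lt_of_le h1 with hr1 | hr1
    · refine ⟨0, ⟨1, one_pos, le_rfl⟩, fun _ => 0, fun n => le_of_eq Nat.cast_zero, ?_,
        fun _ k hk => ?_⟩
      · show Tendsto (fun _ : ℕ => 1 / BB 1 0) atTop (𝓝 r)
        rw [WNUM.BB_zero, hr1, div_one]
        exact tendsto_const_nhds
      · have hk0 : k = 0 := by
          have h2 : (k : ℕ∞) = 0 := le_antisymm hk (zero_le)
          exact_mod_cast h2
        show BB 1 k ≤ 1 / r
        rw [hk0, WNUM.BB_zero, hr1, div_one]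
    · have hp : 0 < 1 + r := by linarith
      obtain ⟨lam, hlam⟩ : ∃ lam : ℝ, lam = (1 - r) / (1 + r) := ⟨_, rfl⟩
      have hl0 : 0 < lam := by
        rw [hlam]
        exact div_pos (by linarith) hp
      have hl1 : lam < 1 := by
        rw [hlam, div_lt_one hp]
        linarith
      have hl : (1 - r) * (1 - lam) = 2 * r * lam := by
        have h3 : lam * (1 + r) = 1 - r := by rw [hlam, div_mul_cancel₀ _ hp.ne']
        linear_combination -h3
      have hB := WNUM.BB_eq hr hl
      refine ⟨⊤, ⟨lam, hl0, hl1.le⟩, fun n => n, fun n => le_top, ?_, fun _ k _ => ?_⟩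
      · show Tendsto (fun n : ℕ => 1 / BB lam n) atTop (𝓝 r)
        simp only [hB, one_div, inv_div]
        have h4 : Tendsto (fun n : ℕ => lam ^ n) atTop (𝓝 0) :=
          tendsto_pow_atTop_nhds_zero_of_lt_one hl0.le hl1
        have h5 : Tendsto (fun n : ℕ => r / (1 - (1 - r) * lam ^ n)) atTop
            (𝓝 (r / (1 - (1 - r) * 0))) := by
          apply Tendsto.div tendsto_const_nhds (tendsto_const_nhds.sub (h4.const_mul (1 - r)))
          rw [mul_zero, sub_zero]
          exact one_ne_zero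
        rwa [mul_zero, sub_zero, div_one] at h5
      · show BB lam k ≤ 1 / r
        rw [hB]
        have h6 : 0 ≤ (1 - r) * lam ^ k := mul_nonneg (by linarith) (pow_nonneg hl0.le _)
        gcongr
        linarith

end Pool.Agent.Lib.MP38dfb6
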