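import Pool.Agent.Lib.MP_38dfb6_an.NB.SpecW

/-!
# MP_38dfb6_an, module WPH: the operator from the space `ES` to the weighted space `EW`
-/

set_option autoImplicit false

namespace Pool.Agent.Lib.MP38dfb6

open Filter Topology Set

namespace WPHM

variable (𝕜 : Type) [RCLike 𝕜] {Λ : Type} (L : Λ → ℕ → Λ) (N : ℕ∞) (lam : Ioc (0 : ℝ) 1)

theorem w_norm (p : PN Λ N) : ‖((((lam : ℝ) ^ p.1.1.length : ℝ)) : 𝕜)‖ ≤ 1 := by
  rw [RCLike.norm_ofReal, abs_of_nonneg (pow_nonneg lam.2.1.le _)]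
  exact pow_le_one₀ lam.2.1.le lam.2.2

theorem mul_bound (g : lp (fun _ : PN Λ N => 𝕜) ⊤) (p : PN Λ N) :
    ‖((((lam : ℝ) ^ p.1.1.length : ℝ)) : 𝕜) * (g : PN Λ N → 𝕜) p‖ ≤ ‖g‖ := by
  rw [norm_mul]
  have h1 := w_norm 𝕜 N lam p
  have h2 : ‖(g : PN Λ N → 𝕜) p‖ ≤ ‖g‖ := lp.norm_apply_le_norm ENNReal.top_ne_zero g p
  calc ‖((((lam : ℝ) ^ p.1.1.length : ℝ)) : 𝕜)‖ * ‖(g : PN Λ N → 𝕜) p‖
      ≤ 1 * ‖g‖ := mul_le_mul h1 h2 (norm_nonneg _) zero_le_one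
    _ = ‖g‖ := one_mul _

/-- multiplication by the weight, as a function -/
noncomputable def mulF (g : lp (fun _ : PN Λ N => 𝕜) ⊤) : lp (fun _ : PN Λ N => 𝕜) ⊤ :=
  ⟨fun p => ((((lam : ℝ) ^ p.1.1.length : ℝ)) : 𝕜) * (g : PN Λ N → 𝕜) p, memℓp_infty ⟨‖g‖, by
    rintro _ ⟨p, rfl⟩
    exact mul_bound 𝕜 N lam g p⟩⟩

theorem mulF_apply (g : lp (fun _ : PN Λ N => 𝕜) ⊤) (p : PN Λ N) :
    (mulF 𝕜 N lam g : PN Λ N → 𝕜) p = ((((lam : ℝ) ^ p.1.1.length : ℝ)) : 𝕜) * (g : PN Λ N → 𝕜) p := rfl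

/-- multiplication by the weight -/
noncomputable def mulL : lp (fun _ : PN Λ N => 𝕜) ⊤ →L[𝕜] lp (fun _ : PN Λ N => 𝕜) ⊤ :=
  LinearMap.mkContinuous
    { toFun := mulF 𝕜 N lam
      map_add' := by
        intro g h
        apply lp.ext
        funext p
        show ((((lam : ℝ) ^ p.1.1.length : ℝ)) : 𝕜) * ((g : PN Λ N → 𝕜) p + (h : PN Λ N → 𝕜) p)
          = ((((lam : ℝ) ^ p.1.1.length : ℝ)) : 𝕜) * (g : PN Λ N → 𝕜) p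
            + ((((lam : ℝ) ^ p.1.1.length : ℝ)) : 𝕜) * (h : PN Λ N → 𝕜) p
        exact mul_add _ _ _
      map_smul' := by
        intro c g
        apply lp.ext
        funext p
        show ((((lam : ℝ) ^ p.1.1.length : ℝ)) : 𝕜) * (c * (g : PN Λ N → 𝕜) p)
          = c * (((((lam : ℝ) ^ p.1.1.length : ℝ)) : 𝕜) * (g : PN Λ N → 𝕜) p)
        exact mul_left_comm _ _ _ } 1 (by
    intro g
    rw [one_mul]
    exact lp.norm_le_of_forall_le (norm_nonneg _) fun p => mul_bound 𝕜 N lam g p)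

theorem mulL_chi (s : Node Λ) : mulL 𝕜 N lam (chi 𝕜 L N s) = chw 𝕜 L N lam s := by
  apply lp.ext
  funext p
  show ((((lam : ℝ) ^ p.1.1.length : ℝ)) : 𝕜) * (chi 𝕜 L N s : PN Λ N → 𝕜) p
    = (chw 𝕜 L N lam s : PN Λ N → 𝕜) p
  have e1 : (chi 𝕜 L N s : PN Λ N → 𝕜) p = @ite _ (On L s p.1) (Classical.propDecidable _) 1 0 := rfl
  have e2 : (chw 𝕜 L N lam s : PN Λ N → 𝕜) p
      = @ite _ (On L s p.1) (Classical.propDecidable _) ((((lam : ℝ) ^ p.1.1.length : ℝ)) : 𝕜) 0 := rfl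
  rw [e1, e2]
  by_cases h : On L s p.1
  · rw [if_pos h, if_pos h, mul_one]
  · rw [if_neg h, if_neg h, mul_zero]

theorem mulL_mem (x : ES 𝕜 L N) : mulL 𝕜 N lam x.1 ∈ EW 𝕜 L N lam := by
  have h1 : x.1 ∈ closure ((Submodule.span 𝕜 (range (chi 𝕜 L N)) :
      Submodule 𝕜 (lp (fun _ : PN Λ N => 𝕜) ⊤)) : Set (lp (fun _ : PN Λ N => 𝕜) ⊤)) := x.2
  have h2 : Submodule.span 𝕜 (range (chi 𝕜 L N)) ≤
      (Submodule.span 𝕜 (range (chw 𝕜 L N lam))).comap (mulL 𝕜 N lam).toLinearMap := by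
    rw [Submodule.span_le]
    rintro _ ⟨s, rfl⟩
    show mulL 𝕜 N lam (chi 𝕜 L N s) ∈ Submodule.span 𝕜 (range (chw 𝕜 L N lam))
    rw [mulL_chi]
    exact Submodule.subset_span ⟨s, rfl⟩
  exact map_mem_closure (mulL 𝕜 N lam).continuous h1 fun y hy => h2 hy

/-- the operator -/
noncomputable def Ph : ES 𝕜 L N →L[𝕜] EW 𝕜 L N lam :=
  ((mulL 𝕜 N lam).comp (ES 𝕜 L N).subtypeL).codRestrict (EW 𝕜 L N lam) fun x => mulL_mem 𝕜 L N lam x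

theorem Ph_ch (s : Node Λ) : Ph 𝕜 L N lam (ch 𝕜 L N s) = cw 𝕜 L N lam s := by
  apply Subtype.ext
  exact mulL_chi 𝕜 L N lam s

theorem dense : DenseRange (Ph 𝕜 L N lam) := by
  intro g
  rw [closure_subtype]
  have h1 : g.1 ∈ closure ((Submodule.span 𝕜 (range (chw 𝕜 L N lam)) :
      Submodule 𝕜 (lp (fun _ : PN Λ N => 𝕜) ⊤)) : Set (lp (fun _ : PN Λ N => 𝕜) ⊤)) := g.2
  refine closure_mono ?_ h1
  have h2 : Submodule.span 𝕜 (range (chw 𝕜 L N lam)) ≤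
      (LinearMap.range (Ph 𝕜 L N lam).toLinearMap).map (EW 𝕜 L N lam).subtype := by
    rw [Submodule.span_le]
    rintro _ ⟨s, rfl⟩
    refine ⟨Ph 𝕜 L N lam (ch 𝕜 L N s), ⟨ch 𝕜 L N s, rfl⟩, ?_⟩
    rw [Ph_ch]
    rfl
  intro y hy
  obtain ⟨z, ⟨x, hx⟩, hz⟩ := h2 hy
  exact ⟨z, ⟨x, hx⟩, hz⟩

end WPHM

theorem specWPH : SpecWPH := fun 𝕜 _ _ L N lam =>
  ⟨WPHM.Ph 𝕜 L N lam, WPHM.Ph_ch 𝕜 L N lam, WPHM.dense 𝕜 L N lam⟩

end Pool.Agent.Lib.MP38dfb6
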