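import Pool.Agent.Lib.MP_38dfb6_an.NB.SpecW

/-!
# MP_38dfb6_an, NB, module WTS: the weighted test vector (helper87)
-/

set_option autoImplicit false

namespace Pool.Agent.Lib.MP38dfb6

open Filter Topology Set

universe u v

namespace WTSM

lemma BB_succ (lam : ℝ) (n : ℕ) : BB lam (n + 1) = 1 + lam + lam * BB lam n := by
  unfold BB
  rw [Finset.sum_range_succ', mul_add, mul_add]
  have h : lam * (2 * ∑ j ∈ Finset.range n, lam ^ (j + 1)) =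
      2 * ∑ j ∈ Finset.range n, lam ^ (j + 1 + 1) := by
    rw [Finset.mul_sum, Finset.mul_sum, Finset.mul_sum]
    apply Finset.sum_congr rfl
    intro j _
    ring
  rw [h]
  ring

lemma BB_pos (lam : ℝ) (h : 0 < lam) (n : ℕ) : 0 < BB lam n := by
  unfold BB
  positivity

lemma on_len {Λ : Type} {L : Λ → ℕ → Λ} {s : Node Λ} {p : Pt Λ} (h : On L s p) :
    s.1.length ≤ p.1.length := by
  rcases h with h | ⟨δ, h, -⟩
  · rw [h.1]
  · have h1 := h.length_le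
    rw [List.length_cons] at h1
    omega

section

variable (𝕜 : Type) [RCLike 𝕜] {Λ : Type} (L : Λ → ℕ → Λ) (N : ℕ∞) (lam : Ioc (0 : ℝ) 1)

/-- the value at a point -/
def vl (p : PN Λ N) (g : EW 𝕜 L N lam) : 𝕜 := (g.1 : PN Λ N → 𝕜) p

lemma vl_add (p : PN Λ N) (g h : EW 𝕜 L N lam) :
    vl 𝕜 L N lam p (g + h) = vl 𝕜 L N lam p g + vl 𝕜 L N lam p h := rfl

lemma vl_sub (p : PN Λ N) (g h : EW 𝕜 L N lam) :
    vl 𝕜 L N lam p (g - h) = vl 𝕜 L N lam p g - vl 𝕜 L N lam p h := rfl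

lemma vl_smul (p : PN Λ N) (c : 𝕜) (g : EW 𝕜 L N lam) :
    vl 𝕜 L N lam p (c • g) = c * vl 𝕜 L N lam p g := rfl

open Classical in
lemma vl_cw (p : PN Λ N) (s : Node Λ) : vl 𝕜 L N lam p (cw 𝕜 L N lam s) =
    if On L s p.1 then ((((lam : ℝ) ^ p.1.1.length : ℝ)) : 𝕜) else 0 := rfl

lemma vl_pos {p : PN Λ N} {s : Node Λ} (h : On L s p.1) :
    vl 𝕜 L N lam p (cw 𝕜 L N lam s) = ((((lam : ℝ) ^ p.1.1.length : ℝ)) : 𝕜) := by
  classical
  rw [vl_cw, if_pos h]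

lemma vl_neg {p : PN Λ N} {s : Node Λ} (h : ¬ On L s p.1) :
    vl 𝕜 L N lam p (cw 𝕜 L N lam s) = 0 := by
  classical
  rw [vl_cw, if_neg h]

lemma vl_le (p : PN Λ N) (g : EW 𝕜 L N lam) : ‖vl 𝕜 L N lam p g‖ ≤ ‖g‖ :=
  lp.norm_apply_le_norm ENNReal.top_ne_zero g.1 p

lemma norm_le {g : EW 𝕜 L N lam} {C : ℝ} (hC : 0 ≤ C) (h : ∀ p : PN Λ N, ‖vl 𝕜 L N lam p g‖ ≤ C) :
    ‖g‖ ≤ C := by
  have h1 : ‖g.1‖ ≤ C := lp.norm_le_of_forall_le hC (fun p => h p)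
  exact h1

/-- The value of the test vector. -/
lemma vl_GW (hCHN : SpecCHN) (D : List Λ) (p : PN Λ N) (h : On L (D, []) p.1) :
    vl 𝕜 L N lam p (GW 𝕜 L N lam D) =
      (((lam : ℝ) ^ p.1.1.length * (((lam : ℝ) ^ D.length)⁻¹ * BB lam D.length) : ℝ) : 𝕜) := by
  have hl : (0 : ℝ) < lam := lam.2.1
  induction D with
  | nil =>
    show vl 𝕜 L N lam p (cw 𝕜 L N lam ([], [])) = _
    rw [vl_pos 𝕜 L N lam h]
    simp [BB]
  | cons δ D ih =>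
    have h1 : On L (D, []) p.1 := (hCHN Λ L p.1).2.2 δ D 0 h
    show vl 𝕜 L N lam p (GW 𝕜 L N lam D +
      ((((lam : ℝ) ^ (D.length + 1))⁻¹ + ((lam : ℝ) ^ D.length)⁻¹ : ℝ) : 𝕜) •
        cw 𝕜 L N lam (δ :: D, [])) = _
    rw [vl_add, vl_smul, ih h1, vl_pos 𝕜 L N lam h, List.length_cons, BB_succ,
      ← RCLike.ofReal_mul, ← RCLike.ofReal_add]
    congr 1
    have hn : (lam : ℝ) ^ D.length ≠ 0 := (pow_pos hl _).ne'
    field_simp
    ring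

/-- The modified vector. -/
lemma exists_R (hCHN : SpecCHN) (ψ : EW 𝕜 L N lam →L[𝕜] 𝕜) (D : List Λ)
    (h : ∀ (δ : Λ) (D' : List Λ), (δ :: D') <:+ D →
      ∃ i : ℕ, ψ (cw 𝕜 L N lam (D', lad L δ i)) = 0) :
    ∃ R : EW 𝕜 L N lam, ψ R = ψ (GW 𝕜 L N lam D) ∧ ∀ p : PN Λ N,
      ‖vl 𝕜 L N lam p R‖ ≤ 1 ∧ (On L (D, []) p.1 → vl 𝕜 L N lam p R =
        (((lam : ℝ) ^ p.1.1.length * ((lam : ℝ) ^ D.length)⁻¹ : ℝ) : 𝕜)) := by
  have hl : (0 : ℝ) < lam := lam.2.1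
  have hle : ∀ k n : ℕ, n ≤ k → ‖(((lam : ℝ) ^ k * ((lam : ℝ) ^ n)⁻¹ : ℝ) : 𝕜)‖ ≤ 1 := by
    intro k n hkn
    have h0 : (0 : ℝ) < (lam : ℝ) ^ n := pow_pos hl n
    rw [RCLike.norm_ofReal, abs_of_pos (by positivity), ← div_eq_mul_inv, div_le_one h0]
    exact pow_le_pow_of_le_one hl.le lam.2.2 hkn
  induction D with
  | nil =>
    refine ⟨cw 𝕜 L N lam ([], []), rfl, fun p => ?_⟩
    have h1 := vl_pos 𝕜 L N lam (hCHN Λ L p.1).1
    have h2 : vl 𝕜 L N lam p (cw 𝕜 L N lam ([], [])) =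
        (((lam : ℝ) ^ p.1.1.length * ((lam : ℝ) ^ ([] : List Λ).length)⁻¹ : ℝ) : 𝕜) := by
      rw [h1, List.length_nil, pow_zero, inv_one, mul_one]
    refine ⟨?_, fun _ => h2⟩
    rw [h2]
    exact hle _ _ (Nat.zero_le _)
  | cons δ D ih =>
    obtain ⟨R, hR, hv⟩ := ih (fun δ' D' hs => h δ' D' (hs.trans (List.suffix_cons δ D)))
    obtain ⟨i, hi⟩ := h δ D (List.suffix_refl _)
    refine ⟨R - ((2 * ((lam : ℝ) ^ D.length)⁻¹ : ℝ) : 𝕜) • cw 𝕜 L N lam (D, lad L δ i) +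
      ((((lam : ℝ) ^ (D.length + 1))⁻¹ + ((lam : ℝ) ^ D.length)⁻¹ : ℝ) : 𝕜) •
        cw 𝕜 L N lam (δ :: D, []), ?_, ?_⟩
    · show _ = ψ (GW 𝕜 L N lam D +
        ((((lam : ℝ) ^ (D.length + 1))⁻¹ + ((lam : ℝ) ^ D.length)⁻¹ : ℝ) : 𝕜) •
          cw 𝕜 L N lam (δ :: D, []))
      rw [ψ.map_add, ψ.map_sub, ψ.map_add, ψ.map_smul, ψ.map_smul, hi, hR, smul_zero, sub_zero]
    · intro p
      have hn : (lam : ℝ) ^ D.length ≠ 0 := (pow_pos hl _).ne'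
      rw [vl_add, vl_sub, vl_smul, vl_smul]
      by_cases h1 : On L (D, lad L δ i) p.1
      · have h2 : On L (D, []) p.1 := (hCHN Λ L p.1).2.1 (D, lad L δ i) h1
        have hk : D.length ≤ p.1.1.length := on_len h2
        rw [(hv p).2 h2, vl_pos 𝕜 L N lam h1]
        by_cases h3 : On L (δ :: D, []) p.1
        · have hk' : (δ :: D).length ≤ p.1.1.length := on_len h3
          rw [vl_pos 𝕜 L N lam h3, ← RCLike.ofReal_mul, ← RCLike.ofReal_mul, ← RCLike.ofReal_sub,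
            ← RCLike.ofReal_add]
          have e : (lam : ℝ) ^ p.1.1.length * ((lam : ℝ) ^ D.length)⁻¹ -
              2 * ((lam : ℝ) ^ D.length)⁻¹ * (lam : ℝ) ^ p.1.1.length +
              (((lam : ℝ) ^ (D.length + 1))⁻¹ + ((lam : ℝ) ^ D.length)⁻¹) *
                (lam : ℝ) ^ p.1.1.length =
              (lam : ℝ) ^ p.1.1.length * ((lam : ℝ) ^ (δ :: D).length)⁻¹ := by
            rw [List.length_cons]
            ring
          rw [e]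
          exact ⟨hle _ _ hk', fun _ => rfl⟩
        · rw [vl_neg 𝕜 L N lam h3, mul_zero, add_zero, ← RCLike.ofReal_mul, ← RCLike.ofReal_sub]
          have e : (lam : ℝ) ^ p.1.1.length * ((lam : ℝ) ^ D.length)⁻¹ -
              2 * ((lam : ℝ) ^ D.length)⁻¹ * (lam : ℝ) ^ p.1.1.length =
              -((lam : ℝ) ^ p.1.1.length * ((lam : ℝ) ^ D.length)⁻¹) := by
            ring
          rw [e, RCLike.ofReal_neg, norm_neg]
          exact ⟨hle _ _ hk, fun h5 => absurd h5 h3⟩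
      · have h3 : ¬ On L (δ :: D, []) p.1 := fun h5 => h1 ((hCHN Λ L p.1).2.2 δ D i h5)
        rw [vl_neg 𝕜 L N lam h1, vl_neg 𝕜 L N lam h3, mul_zero, mul_zero, sub_zero, add_zero]
        exact ⟨(hv p).1, fun h5 => absurd h5 h3⟩

end

end WTSM

open WTSM in
theorem specWTS (hCHN : SpecCHN) : SpecWTS := by
  intro 𝕜 _ Λ L N lam D
  have hl : (0 : ℝ) < lam := lam.2.1
  constructor
  · intro hD
    have hp : (lev ((D, Sum.inl []) : Pt Λ) : ℕ∞) ≤ N := hD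
    have hOn : On L (D, []) ((D, Sum.inl []) : Pt Λ) := Or.inl ⟨rfl, List.suffix_refl _⟩
    have h1 := vl_GW 𝕜 L N lam hCHN D ⟨(D, Sum.inl []), hp⟩ hOn
    have h2 := vl_le 𝕜 L N lam ⟨(D, Sum.inl []), hp⟩ (GW 𝕜 L N lam D)
    rw [h1, RCLike.norm_ofReal] at h2
    have h3 : (lam : ℝ) ^ D.length * (((lam : ℝ) ^ D.length)⁻¹ * BB lam D.length) =
        BB lam D.length := by
      rw [← mul_assoc, mul_inv_cancel₀ (pow_pos hl _).ne', one_mul]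
    have h4 : |(lam : ℝ) ^ D.length * (((lam : ℝ) ^ D.length)⁻¹ * BB lam D.length)| =
        BB lam D.length := by
      rw [h3, abs_of_pos (BB_pos _ hl _)]
    exact le_of_eq_of_le h4.symm h2
  · intro ψ h
    obtain ⟨R, hR, hv⟩ := exists_R 𝕜 L N lam hCHN ψ D h
    have hRn : ‖R‖ ≤ 1 := norm_le 𝕜 L N lam zero_le_one (fun p => (hv p).1)
    rw [← hR]
    calc ‖ψ R‖ ≤ ‖ψ‖ * ‖R‖ := ψ.le_opNorm R
      _ ≤ ‖ψ‖ * 1 := mul_le_mul_of_nonneg_left hRn (ContinuousLinearMap.opNorm_nonneg ψ)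
      _ = ‖ψ‖ := mul_one _

end Pool.Agent.Lib.MP38dfb6
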